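import Pool.Agent.Work.MP_8f87b2_h60.TyA0
import Pool.Agent.Work.MP_8f87b2_mid.InAE
import Pool.Agent.Work.MP_8f87b2_mid.DisC
import Pool.Agent.Work.MP_8f87b2_h27.Inn4

/-!
MP_8f87b2_co: the inner words of the mirrored bare windows (type A0) against the plain triples (helper58).

`g = q + 3`, all parts of `R` at least `g`, the top larger: `T (w i)`, `i = 0, 1, 3, 6, 8, 9`, starts with `1^(g+1)` or `1^g 0^g` and
ends with `0^(g+1)` or `1^g 0^g`, and so does its mirror image.
-/

set_option autoImplicit false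

namespace Pool.OddHC

open Finset Equiv BinaryTree Pool.Agent.Work.MP_8f87b2_co

namespace H1

variable {k : ℕ}

/-! ### Contents and syntactic form -/

theorem cont_one (n : ℕ) : ∀ {A : BinaryTree Unit}, cont A = {n + 1} → A = ch (n + 1) := by
  induction n with
  | zero =>
    intro A h
    have hn := cont_sum A
    rw [h, Multiset.sum_singleton] at hn
    cases A with
    | nil => simp [BinaryTree.numNodes] at hn
    | node _ C D =>
      change 1 = C.numNodes + D.numNodes + 1 at hn
      cases C with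
      | nil =>
        cases D with
        | nil => rfl
        | node _ _ _ => simp [BinaryTree.numNodes] at hn
      | node _ _ _ => simp [BinaryTree.numNodes] at hn
  | succ n ih =>
    intro A h
    cases A with
    | nil =>
      rw [cont_nil] at h
      exact absurd h.symm (by simp)
    | node _ C D =>
      have hD : D = .nil := by
        by_contra hD
        have h1 : Multiset.card (cont (C △ D)) = 1 := by
          rw [show cont (C △ D) = {n + 1 + 1} from h]; rfl
        rw [cont_node, Multiset.card_add] at h1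
        have h2 : 0 < Multiset.card (raise (cont C)) := Multiset.card_pos.2 (raise_ne_zero _)
        have h3 : 0 < Multiset.card (cont D) :=
          Multiset.card_pos.2 (fun h4 => hD (cont_eq_zero.1 h4))
        omega
      subst hD
      have h1 : raise (cont C) = {n + 1 + 1} := by
        have h2 : cont (C △ .nil) = {n + 1 + 1} := h
        rwa [cont_node, cont_nil, add_zero] at h2
      have hC : C ≠ .nil := by
        rintro rfl
        rw [cont_nil, raise_zero] at h1
        have := Multiset.singleton_inj.1 h1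
        omega
      have hc0 : cont C ≠ 0 := fun h4 => hC (cont_eq_zero.1 h4)
      unfold raise at h1
      rw [← Multiset.cons_zero, Multiset.cons_eq_cons] at h1
      have h5 : (cont C).sup + 1 = n + 1 + 1 ∧ (cont C).erase (cont C).sup = 0 := by
        rcases h1 with h1 | ⟨h1, cs, h2, h3⟩
        · exact h1
        · exact absurd h3.symm (by simp)
      have h8 := Multiset.cons_erase (sup_mem hc0)
      rw [h5.2, show (cont C).sup = n + 1 by omega] at h8
      rw [ih h8.symm]
      rfl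

/-- all parts at least `g` -/
theorem hg_of_cont {g : ℕ} (hg2 : 2 ≤ g) : ∀ {t : BinaryTree Unit}, (∀ x ∈ cont t, g ≤ x) → hg g t := by
  intro t
  induction t with
  | nil => intro _; trivial
  | node u A C ihA ihC =>
    intro h
    have h' : ∀ x ∈ raise (cont A) + cont C, g ≤ x := h
    have h1 : ∀ x ∈ raise (cont A), g ≤ x := fun x hx => h' x (Multiset.mem_add.2 (Or.inl hx))
    have h2 : ∀ x ∈ cont C, g ≤ x := fun x hx => h' x (Multiset.mem_add.2 (Or.inr hx))
    refine ⟨?_, ihC h2⟩
    have h3 : g ≤ (cont A).sup + 1 := h1 _ (by unfold raise; exact Multiset.mem_cons_self _ _)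
    have hA0 : A ≠ .nil := by
      rintro rfl
      rw [cont_nil, Multiset.sup_zero] at h3
      simp at h3
      omega
    have hc0 : cont A ≠ 0 := fun h4 => hA0 (cont_eq_zero.1 h4)
    have h4 : ∀ x ∈ (cont A).erase (cont A).sup, g ≤ x := fun x hx =>
      h1 x (by unfold raise; exact Multiset.mem_cons_of_mem hx)
    rcases Nat.lt_or_ge (cont A).sup g with h5 | h5
    · left
      have h6 : (cont A).sup = (g - 2) + 1 := by omega
      have h7 : (cont A).erase (cont A).sup = 0 := by
        rw [Multiset.eq_zero_iff_forall_notMem]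
        intro x hx
        have h8 := h4 x hx
        have h9 := Multiset.le_sup (Multiset.mem_of_mem_erase hx)
        omega
      have h8 := Multiset.cons_erase (sup_mem hc0)
      rw [h7, h6] at h8
      rw [show g - 1 = (g - 2) + 1 by omega]
      exact cont_one _ h8.symm
    · right
      refine ⟨hA0, ihA ?_⟩
      intro x hx
      by_cases hx1 : x = (cont A).sup
      · omega
      · exact h4 x ((Multiset.mem_erase_of_ne hx1).2 hx)

/-- `.. 0^g` or empty -/
theorem hg_end {g : ℕ} (hg1 : 1 ≤ g) {t : BinaryTree Unit} : hg g t → t ≠ .nil →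
    ∃ v, wd t = v ++ List.replicate g false := by
  induction t with
  | nil => intro _ h; exact absurd rfl h
  | node _ A C ihA ihC =>
    intro h _
    change ∃ v, wd (A △ C) = _
    rw [wd_node]
    by_cases hn : C = .nil
    · subst hn
      obtain ⟨n, rfl⟩ : ∃ n, g = n + 1 := ⟨g - 1, by omega⟩
      rcases h.1 with rfl | ⟨h1, h2⟩
      · rw [wd_ch, Nat.add_sub_cancel, List.replicate_succ']
        exact ⟨true :: List.replicate n true, by simp [wd]⟩
      · obtain ⟨v, hv⟩ := ihA h2 h1
        rw [hv]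
        refine ⟨true :: (v ++ [false]), ?_⟩
        have e : List.replicate (n + 1) false ++ [false] = false :: List.replicate (n + 1) false := by
          rw [← List.replicate_succ', List.replicate_succ]
        change true :: (v ++ List.replicate (n + 1) false ++ [false]) = _
        rw [List.append_assoc, e]
        simp
    · obtain ⟨v, hv⟩ := ihC h.2 hn
      exact ⟨true :: (wd A ++ false :: v), by rw [hv]; simp⟩

/-! ### Before the first maximum -/

/-- `a = .. 1^(g+1)` or `.. 0^g 1^g` -/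
def Bef2 (g : ℕ) (a : List Bool) : Prop :=
  (∃ a', a = a' ++ List.replicate (g + 1) true) ∨
    ∃ a', a = a' ++ (List.replicate g false ++ List.replicate g true)

/-- moreover `a = 1^g` -/
def Bef (g : ℕ) (a : List Bool) : Prop := a = List.replicate g true ∨ Bef2 g a

theorem Bef2.append {g : ℕ} {a : List Bool} (h : Bef2 g a) (P : List Bool) : Bef2 g (P ++ a) := by
  rcases h with ⟨a', rfl⟩ | ⟨a', rfl⟩
  · exact Or.inl ⟨P ++ a', by rw [List.append_assoc]⟩
  · exact Or.inr ⟨P ++ a', by rw [List.append_assoc]⟩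

theorem Bef.cons {g : ℕ} {a : List Bool} (h : Bef g a) : Bef2 g (true :: a) := by
  rcases h with rfl | h
  · exact Or.inl ⟨[], by rw [List.replicate_succ]; rfl⟩
  · exact h.append [true]

theorem FM_low {g : ℕ} (hg1 : 1 ≤ g) {t : BinaryTree Unit} (h : hg g t) (h0 : t ≠ .nil)
    (hh : Tsq.ht t = g) : ∃ v, FM t (List.replicate (g - 1) true) v := by
  obtain ⟨v, hv⟩ := hg_start hg1 h h0
  obtain ⟨n, rfl⟩ : ∃ n, g = n + 1 := ⟨g - 1, by omega⟩
  refine ⟨v, ?_, ?_, ?_⟩
  · rw [hv, List.replicate_succ', Nat.add_sub_cancel]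
    simp
  · intro m
    rw [Nat.add_sub_cancel, List.take_replicate, List.count_replicate_self, hh]
    omega
  · rw [Nat.add_sub_cancel, List.count_replicate_self, List.count_replicate, hh]
    simp

theorem hg_Bef {g : ℕ} (hg1 : 1 ≤ g) {t : BinaryTree Unit} : hg g t → g < Tsq.ht t →
    ∃ a b, FM t a b ∧ Bef g a := by
  induction t with
  | nil => intro _ h; simp [Tsq.ht] at h
  | node _ A C ihA ihC =>
    intro h hh
    change ∃ a b, FM (A △ C) a b ∧ _
    change g < Tsq.ht (A △ C) at hh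
    rw [Tsq.ht_node] at hh
    by_cases hC : Tsq.ht A + 1 < Tsq.ht C
    · obtain ⟨a, b, h2, h3⟩ := ihC h.2 (by omega)
      have h5 := h2.app_left (P := A △ .nil) (by rw [Tsq.ht_node]; simp [Tsq.ht]; omega)
      refine ⟨_, b, h5, Or.inr ?_⟩
      rcases h3 with rfl | h3
      · obtain ⟨v, hv⟩ := hg_end (t := A △ .nil) hg1 ⟨h.1, trivial⟩ (by simp)
        exact Or.inr ⟨v, by rw [hv, List.append_assoc]⟩
      · exact h3.append _
    · push Not at hC
      rcases h.1 with rfl | ⟨h1, h2⟩
      · rw [ht_eq (ch (g - 1)), ch_ht] at hh hC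
        omega
      · have h3 := (hg_FM hg1 h2 h1).1
        rcases Nat.eq_or_lt_of_le h3 with h4 | h4
        · obtain ⟨v, hv⟩ := FM_low hg1 h2 h1 h4.symm
          refine ⟨_, _, hv.node hC, Or.inl ?_⟩
          obtain ⟨n, rfl⟩ : ∃ n, g = n + 1 := ⟨g - 1, by omega⟩
          rw [Nat.add_sub_cancel, List.replicate_succ]
        · obtain ⟨a, b, h5, h6⟩ := ihA h2 h4
          exact ⟨_, _, h5.node hC, Or.inr h6.cons⟩

/-- the first maximum and both sides of it -/
structure FMT (g : ℕ) (t : BinaryTree Unit) (a b : List Bool) : Prop where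
  fm : FM t a b
  up : Bef g a
  dn : Aft' g b

theorem hg_FMT {g : ℕ} (hg1 : 1 ≤ g) {t : BinaryTree Unit} (h : hg g t) (hh : g < Tsq.ht t) :
    ∃ a b, FMT g t a b := by
  have h0 : t ≠ .nil := by
    rintro rfl
    simp [Tsq.ht] at hh
  obtain ⟨_, a, b, h1, _, ⟨v, h3, h4⟩⟩ := hg_FM hg1 h h0
  obtain ⟨a', b', h5, h6⟩ := hg_Bef hg1 h hh
  obtain ⟨rfl, rfl⟩ := h1.uniq h5
  refine ⟨a, b, h1, h6, ?_⟩
  rcases h4 with rfl | ⟨r, rfl⟩ | ⟨r, rfl⟩
  · exfalso
    have h7 := h1.bal
    rw [h3, List.append_nil, List.count_replicate_self, List.count_replicate] at h7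
    simp at h7
    omega
  · exact Or.inl ⟨r, by rw [h3, List.replicate_succ']; simp⟩
  · exact Or.inr ⟨r, by rw [h3]⟩

/-- the linked words of a window -/
theorem FMT_W {g q : ℕ} {R B S : BinaryTree Unit} {a b : List Bool} (h : FMT g R a b)
    (hq : q + 3 ≤ Tsq.ht R) : ∀ i ∈ [0, 1, 3, 6, 8, 9],
    ∃ a b, FMT g (W R (ch (q + 1)) B S i) a b := by
  intro i hi
  have hn : Tsq.ht (.nil : BinaryTree Unit) = 0 := rfl
  have hc : ∀ n, Tsq.ht (ch n) = n := fun n => by rw [ht_eq, ch_ht]
  have k1 : ∀ {Z : BinaryTree Unit}, Tsq.ht Z ≤ Tsq.ht R → FMT g (app R Z) a (b ++ wd Z) := by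
    intro Z hZ
    exact ⟨h.fm.app_right hZ, h.up, h.dn.append _⟩
  have k2 : ∀ {A Z : BinaryTree Unit} {a b : List Bool}, FMT g A a b → Tsq.ht Z ≤ Tsq.ht A + 1 →
      FMT g (A △ Z) (true :: a) (b ++ false :: wd Z) := by
    intro A Z a b h hZ
    exact ⟨h.fm.node hZ, Or.inr h.up.cons, h.dn.append _⟩
  simp only [List.mem_cons, List.not_mem_nil, or_false] at hi
  rcases hi with rfl | rfl | rfl | rfl | rfl | rfl
  · exact ⟨_, _, k1 (Z := ch (q + 3)) (by rw [hc]; exact hq)⟩
  · exact ⟨_, _, k1 (Z := .nil △ app (ch (q + 1)) (.nil △ .nil)) (by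
      rw [Tsq.ht_node, Tsq.ht_app, Tsq.ht_node, hc, hn]; omega)⟩
  · exact ⟨_, _, k2 (k1 (Z := .nil △ ch (q + 1)) (by
      rw [Tsq.ht_node, hc, hn]; omega)) (Z := .nil) (by rw [hn]; omega)⟩
  · exact ⟨_, _, k2 h (Z := ch (q + 2)) (by rw [hc]; omega)⟩
  · have k3 := (h.fm.node (Z := .nil) (by rw [hn]; omega)).app_left
      (P := app (ch (q + 1)) (.nil △ .nil)) (by
        rw [Tsq.ht_node, Tsq.ht_app, Tsq.ht_node, hc, hn]; omega)
    have e : W R (ch (q + 1)) B S 8 = app (app (ch (q + 1)) (.nil △ .nil)) (R △ .nil) := by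
      rw [app_assoc]; rfl
    rw [e]
    exact ⟨_, _, k3, Or.inr (h.up.cons.append _), h.dn.append _⟩
  · exact ⟨_, _, k2 (k2 h (Z := .nil) (by rw [hn]; omega)) (Z := ch (q + 1)) (by
      rw [Tsq.ht_node, hc, hn]; omega)⟩

/-! ### Starts and ends -/

/-- `.. 0^(g+1)` or `.. 1^g 0^g` -/
def End (g : ℕ) (l : List Bool) : Prop :=
  (∃ r, l = r ++ List.replicate (g + 1) false) ∨
    ∃ r, l = r ++ (List.replicate g true ++ List.replicate g false)

theorem FMT.inner {g : ℕ} {x : X k} {a b : List Bool} (h : FMT g x.1 a b) :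
    Sta g (wd (TT x).1) ∧ End g (wd (TT x).1) := by
  have e := h.fm.wdT
  constructor
  · rw [e]
    rcases h.dn with ⟨r, h2⟩ | ⟨r, h2⟩
    · left
      exact ⟨r.map not ++ false :: a.map not, by rw [h2]; simp⟩
    · right
      exact ⟨r.map not ++ false :: a.map not, by rw [h2]; simp⟩
  · rw [e]
    rcases h.up with rfl | ⟨a', rfl⟩ | ⟨a', rfl⟩
    · left
      exact ⟨b.map not, by rw [List.replicate_succ]; simp⟩
    · left
      exact ⟨b.map not ++ false :: a'.map not, by simp⟩
    · right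
      exact ⟨b.map not ++ false :: a'.map not, by simp⟩

theorem Sta.mir {g : ℕ} {t : BinaryTree Unit} (h : Sta g (wd t)) : End g (wd (Tsq.mir t)) := by
  rw [Tsq.wd_mir]
  rcases h with ⟨r, h⟩ | ⟨r, h⟩
  · left
    exact ⟨(r.map not).reverse, by rw [h]; simp⟩
  · right
    exact ⟨(r.map not).reverse, by rw [h]; simp⟩

theorem End.mir {g : ℕ} {t : BinaryTree Unit} (h : End g (wd t)) : Sta g (wd (Tsq.mir t)) := by
  rw [Tsq.wd_mir]
  rcases h with ⟨r, h⟩ | ⟨r, h⟩
  · left
    exact ⟨(r.map not).reverse, by rw [h]; simp⟩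
  · right
    exact ⟨(r.map not).reverse, by rw [h]; simp⟩


/-! ### A bead high up -/

/-- a bead followed by a one at height at least 2 -/
def hb (t : BinaryTree Unit) : Prop :=
  ∃ u v, wd t = u ++ true :: false :: true :: v ∧ u.count false + 2 ≤ u.count true

/-- no factor `1 0 1` -/
def nb (t : BinaryTree Unit) : Prop := ∀ u v, wd t ≠ u ++ true :: false :: true :: v

/-- factors `1 0 1` only up to height `n` -/
def vb (n : ℕ) (t : BinaryTree Unit) : Prop :=
  ∀ u v, wd t = u ++ true :: false :: true :: v → u.count true ≤ u.count false + n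

theorem vb.not_hb {t : BinaryTree Unit} (h : vb 1 t) : ¬ hb t := by
  rintro ⟨u, v, h1, h2⟩
  have := h u v h1
  omega

theorem vb_mono {n m : ℕ} {t : BinaryTree Unit} (h : vb n t) (hn : n ≤ m) : vb m t := by
  intro u v e
  have := h u v e
  omega

theorem nb.vb {t : BinaryTree Unit} (h : nb t) (n : ℕ) : vb n t := fun u v e => absurd e (h u v)

theorem nb_nil : nb .nil := by
  intro u v e
  have := congrArg List.length e
  simp [wd] at this

theorem wd_last {t : BinaryTree Unit} (h : t ≠ .nil) : ∃ r, wd t = r ++ [false] := by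
  induction t with
  | nil => exact absurd rfl h
  | node _ A C _ ihC =>
    change ∃ r, wd (A △ C) = _
    rw [wd_node]
    by_cases hC : C = .nil
    · subst hC
      exact ⟨true :: wd A, rfl⟩
    · obtain ⟨r, hr⟩ := ihC hC
      exact ⟨true :: (wd A ++ false :: r), by rw [hr]; simp⟩

/-- a factor `1 0 1` of `(A) C` -/
theorem bead_node {A C : BinaryTree Unit} {u v : List Bool}
    (e : wd (A △ C) = u ++ true :: false :: true :: v) :
    (u = [] ∧ A = .nil) ∨ (∃ c, u = true :: (wd A ++ false :: c) ∧ wd C = c ++ true :: false :: true :: v) ∨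
    ∃ u' v', u = true :: u' ∧ wd A = u' ++ true :: false :: true :: v' := by
  have e' : wd (A △ C) = (u ++ [true]) ++ false :: true :: v := by rw [e]; simp
  rcases valley_node e' with h | ⟨c, h, h2⟩ | ⟨u', v', h, h2⟩
  · left
    by_cases hA : A = .nil
    · subst hA
      have h3 : u ++ [true] = [] ++ [true] := h
      exact ⟨List.append_cancel_right h3, rfl⟩
    · exfalso
      obtain ⟨r, hr⟩ := wd_last hA
      rw [hr, ← List.cons_append] at h
      have := List.append_inj_right' h rfl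
      simp at this
  · right; left
    rcases List.eq_nil_or_concat c with rfl | ⟨c', x, rfl⟩
    · exfalso
      have h3 : u ++ [true] = (true :: wd A) ++ [false] := by rw [h]; simp
      have := List.append_inj_right' h3 rfl
      simp at this
    · have h3 : u ++ [true] = (true :: (wd A ++ false :: c')) ++ [x] := by rw [h]; simp
      have h4 := List.append_inj_right' h3 rfl
      have h5 : x = true := by simpa using h4.symm
      subst h5
      exact ⟨c', List.append_cancel_right h3, by rw [h2]; simp⟩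
  · right; right
    rcases List.eq_nil_or_concat u' with rfl | ⟨c', x, rfl⟩
    · exfalso
      have h3 := wd_take A 1
      rw [h2] at h3
      simp at h3
    · have h3 : u ++ [true] = (true :: c') ++ [x] := by rw [h]; simp
      have h4 := List.append_inj_right' h3 rfl
      have h5 : x = true := by simpa using h4.symm
      subst h5
      exact ⟨c', v', List.append_cancel_right h3, by rw [h2]; simp⟩

theorem nb_node {A C : BinaryTree Unit} (h0 : A ≠ .nil) (hA : nb A) (hC : nb C) : nb (A △ C) := by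
  intro u v e
  rcases bead_node e with ⟨_, h⟩ | ⟨c, _, h⟩ | ⟨u', v', _, h⟩
  · exact h0 h
  · exact hC _ _ h
  · exact hA _ _ h

theorem vb_node {n : ℕ} {A C : BinaryTree Unit} (hA : vb n A) (hC : vb (n + 1) C) : vb (n + 1) (A △ C) := by
  intro u v e
  have cA := wd_counts A
  rcases bead_node e with ⟨rfl, _⟩ | ⟨c, rfl, h⟩ | ⟨u', v', rfl, h⟩
  · simp
  · have := hC _ _ h
    rw [List.count_cons_self, List.count_cons_of_ne (by simp), List.count_append, List.count_append,
      List.count_cons_self, List.count_cons_of_ne (by simp), cA.1, cA.2]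
    omega
  · have := hA _ _ h
    rw [List.count_cons_self, List.count_cons_of_ne (by simp)]
    omega

theorem vb_tower {n : ℕ} {A C : BinaryTree Unit} (hA : nb A) (hC : vb n C) : vb n (A △ C) := by
  intro u v e
  have cA := wd_counts A
  rcases bead_node e with ⟨rfl, _⟩ | ⟨c, rfl, h⟩ | ⟨u', v', rfl, h⟩
  · simp
  · have := hC _ _ h
    rw [List.count_cons_self, List.count_cons_of_ne (by simp), List.count_append, List.count_append,
      List.count_cons_self, List.count_cons_of_ne (by simp), cA.1, cA.2]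
    omega
  · exact absurd h (hA _ _)

theorem vb_app {n : ℕ} {P Q : BinaryTree Unit} (hP : vb n P) (hQ : vb n Q) : vb n (app P Q) := by
  induction P with
  | nil => exact hQ
  | node _ A X _ ih =>
    have hX : vb n X := by
      intro u v e
      have h1 := hP (true :: (wd A ++ false :: u)) v (by
        change wd (A △ X) = _
        rw [wd_node, e]; simp)
      have cA := wd_counts A
      rw [List.count_cons_self, List.count_cons_of_ne (by simp), List.count_append, List.count_append,
        List.count_cons_self, List.count_cons_of_ne (by simp), cA.1, cA.2] at h1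
      omega
    intro u v e
    have cA := wd_counts A
    have e' : wd (A △ app X Q) = u ++ true :: false :: true :: v := e
    rcases bead_node e' with ⟨rfl, _⟩ | ⟨c, rfl, h⟩ | ⟨u', v', rfl, h⟩
    · simp
    · have := ih hX _ _ h
      rw [List.count_cons_self, List.count_cons_of_ne (by simp), List.count_append, List.count_append,
        List.count_cons_self, List.count_cons_of_ne (by simp), cA.1, cA.2]
      omega
    · refine hP (true :: u') (v' ++ false :: wd X) ?_
      change wd (A △ X) = _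
      rw [wd_node, h]; simp

theorem nb_ch (m : ℕ) : nb (ch m) := by
  intro u v e
  have e' : wd (ch m) = (u ++ [true]) ++ false :: true :: v := by rw [e]; simp
  exact nv_ch m _ _ e'

theorem nb_hv {t : BinaryTree Unit} (h : hv t) : nb t := by
  induction t with
  | nil => exact nb_nil
  | node _ A X ihA ihX =>
    change nb (A △ X)
    rcases h.1 with rfl | ⟨h1, h2⟩
    · exact nb_node (by simp) (nb_ch 2) (ihX h.2)
    · exact nb_node h1 (ihA h2) (ihX h.2)

theorem vb_lp (m : ℕ) : vb 0 (lp m) := by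
  induction m with
  | zero => exact nb_nil.vb 0
  | succ m ih => exact vb_tower nb_nil ih

/-- `S0 ()^m`, `S0` heavy -/
theorem vb_S {S0 : BinaryTree Unit} (h : hv S0) (m : ℕ) : vb 0 (app S0 (lp m)) :=
  vb_app ((nb_hv h).vb 0) (vb_lp m)

/-- `()^m S0`, `S0` heavy -/
theorem vb_S' {S0 : BinaryTree Unit} (h : hv S0) (m : ℕ) : vb 0 (app (lp m) S0) :=
  vb_app (vb_lp m) ((nb_hv h).vb 0)

theorem vb_w1 {P Q R : BinaryTree Unit} (hP : vb 0 P) (hQ : vb 0 Q) (hR : vb 0 R) : vb 1 (w1 P Q R) :=
  vb_app (vb_mono hP (by omega)) (vb_node hQ (vb_mono hR (by omega)))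

/-- mirror image of a factor `0 1 0` -/
theorem hb_mir {t : BinaryTree Unit} {u v : List Bool} (h : wd t = u ++ false :: true :: false :: v)
    (h3 : u.count false + 3 ≤ u.count true) : hb (Tsq.mir t) := by
  have c := wd_counts t
  rw [h, List.count_append, List.count_append] at c
  have h4 : (v.map not).count true = v.count false := Tsq.count_not_true v
  have h5 : (v.map not).count false = v.count true := Tsq.count_not_false v
  refine ⟨(v.map not).reverse, (u.map not).reverse, ?_, ?_⟩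
  · rw [Tsq.wd_mir, h]
    simp
  · rw [List.count_reverse, List.count_reverse, h4, h5]
    simp at c
    omega

/-- the inner words 1, 3, 8, 9 of a window with `q = 0` -/
theorem inner_hb {R B S : BinaryTree Unit} {a b : List Bool} (h : FM R a b) (hq : 4 ≤ Tsq.ht R)
    {x : X k} : ∀ i ∈ [1, 3, 8, 9], x.1 = W R (ch 1) B S i →
    hb (TT x).1 ∧ hb (Tsq.mir (TT x).1) := by
  have hn : Tsq.ht (.nil : BinaryTree Unit) = 0 := rfl
  have hc : ∀ n, Tsq.ht (ch n) = n := fun n => by rw [ht_eq, ch_ht]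
  have hb1 := h.bal
  have m1 : (b.map not).count true = b.count false := Tsq.count_not_true b
  have m2 : (b.map not).count false = b.count true := Tsq.count_not_false b
  intro i hi e
  simp only [List.mem_cons, List.not_mem_nil, or_false] at hi
  rcases hi with rfl | rfl | rfl | rfl
  · have k1 := h.app_right (Z := .nil △ app (ch 1) (.nil △ .nil)) (by
      rw [Tsq.ht_node, Tsq.ht_app, Tsq.ht_node, hc, hn]; omega)
    have e' : x.1 = app R (.nil △ app (ch 1) (.nil △ .nil)) := e
    rw [← e'] at k1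
    have e1 : wd (TT x).1 = b.map not ++ false :: true :: false :: true :: false :: true :: false ::
        a.map not := by
      rw [k1.wdT]
      simp [ch, wd_node, wd, app]
    constructor
    · exact ⟨b.map not ++ [false], false :: true :: false :: a.map not, by rw [e1]; simp, by
        simp [m1, m2]; omega⟩
    · exact hb_mir (u := b.map not) (v := true :: false :: true :: false :: a.map not) e1 (by
        rw [m1, m2]; omega)
  · have k1 := (h.app_right (Z := .nil △ ch 1) (by
      rw [Tsq.ht_node, hc, hn]; omega)).node (Z := .nil) (by rw [hn]; omega)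
    have e' : x.1 = (app R (.nil △ ch 1) △ .nil) := e
    rw [← e'] at k1
    have e1 : wd (TT x).1 = b.map not ++ false :: true :: false :: true :: true :: false :: false ::
        a.map not := by
      rw [k1.wdT]
      simp [ch, wd_node, wd]
    constructor
    · exact ⟨b.map not ++ [false], true :: false :: false :: a.map not, by rw [e1]; simp, by
        simp [m1, m2]; omega⟩
    · exact hb_mir (u := b.map not) (v := true :: true :: false :: false :: a.map not) e1 (by
        rw [m1, m2]; omega)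
  · have k1 := (h.node (Z := .nil) (by rw [hn]; omega)).app_left
      (P := app (ch 1) (.nil △ .nil)) (by
        rw [Tsq.ht_node, Tsq.ht_app, Tsq.ht_node, hc, hn]; omega)
    have e' : x.1 = app (app (ch 1) (.nil △ .nil)) (R △ .nil) := by
      rw [app_assoc]; exact e
    rw [← e'] at k1
    have e1 : wd (TT x).1 = b.map not ++ true :: false :: false :: true :: false :: true :: false ::
        a.map not := by
      rw [k1.wdT]
      simp [ch, wd_node, wd, app]
    constructor
    · exact ⟨b.map not ++ [true, false, false], false :: a.map not, by rw [e1]; simp, by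
        simp [m1, m2]; omega⟩
    · exact hb_mir (u := b.map not ++ [true, false]) (v := true :: false :: a.map not) (by
        rw [e1]; simp) (by simp [m1, m2]; omega)
  · have k1 := (h.node (Z := .nil) (by rw [hn]; omega)).node (Z := ch 1) (by
      rw [Tsq.ht_node, hc, hn]; omega)
    have e' : x.1 = ((R △ .nil) △ ch 1) := e
    rw [← e'] at k1
    have e1 : wd (TT x).1 = b.map not ++ true :: true :: false :: true :: false :: false :: false ::
        a.map not := by
      rw [k1.wdT]
      simp [ch, wd_node, wd]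
    constructor
    · exact ⟨b.map not ++ [true], false :: false :: false :: a.map not, by rw [e1]; simp, by
        simp [m1, m2]; omega⟩
    · exact hb_mir (u := b.map not ++ [true, true]) (v := false :: false :: a.map not) (by
        rw [e1]; simp) (by simp [m1, m2]; omega)


/-! ### The rows -/

/-- start and end of an inner word of a bare window, `g = q + 3` -/
structure InnP (g : ℕ) (t : BinaryTree Unit) : Prop where
  g3 : 3 ≤ g
  sta : Sta g (wd t)
  en : End g (wd t)

variable {g0 c : ℕ} {w : X k} {S : BinaryTree Unit} {F F' : Set (Cyc k)} {g g' : DG k}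

theorem InnP.start {t : BinaryTree Unit} (h : InnP g0 t) {n : ℕ} {v : List Bool}
    (e : wd t = List.replicate n true ++ false :: v) : g0 ≤ n := by
  by_contra hn
  push Not at hn
  obtain ⟨r, hr⟩ : ∃ r, wd t = List.replicate g0 true ++ r := by
    rcases h.sta with ⟨r, hr⟩ | ⟨r, hr⟩
    · exact ⟨true :: r, by rw [hr, List.replicate_succ']; simp⟩
    · exact ⟨_, hr⟩
  obtain ⟨m, rfl⟩ : ∃ m, g0 = n + (m + 1) := ⟨g0 - n - 1, by omega⟩
  rw [e, List.replicate_add, List.replicate_succ, List.append_assoc] at hr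
  have := List.append_cancel_left hr
  simp at this

theorem InnP.stop {t : BinaryTree Unit} (h : InnP g0 t) {n : ℕ} {v : List Bool}
    (e : wd t = v ++ true :: List.replicate n false) : g0 ≤ n := by
  by_contra hn
  push Not at hn
  obtain ⟨r, hr⟩ : ∃ r, wd t = r ++ List.replicate g0 false := by
    rcases h.en with ⟨r, hr⟩ | ⟨r, hr⟩
    · exact ⟨r ++ [false], by rw [hr, List.replicate_succ]; simp⟩
    · exact ⟨r ++ List.replicate g0 true, by rw [hr, List.append_assoc]⟩
  obtain ⟨m, rfl⟩ : ∃ m, g0 = (m + 1) + n := ⟨g0 - n - 1, by omega⟩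
  have h1 : (v ++ [true]) ++ List.replicate n false =
      (r ++ List.replicate m false ++ [false]) ++ List.replicate n false := by
    have h2 : wd t = (v ++ [true]) ++ List.replicate n false := by rw [e]; simp
    rw [← h2, hr, List.replicate_add, List.replicate_succ']
    simp
  have h3 := List.append_inj_right' (List.append_cancel_right h1) rfl
  simp at h3

theorem InnP.not_first {t Y : BinaryTree Unit} (h : InnP g0 t) : t ≠ .nil △ Y := by
  intro e
  have h1 := h.start (n := 1) (v := wd Y) (by rw [e, wd_node]; simp [wd])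
  have := h.g3
  omega

theorem InnP.not_last {t Y : BinaryTree Unit} (h : InnP g0 t) : t ≠ app Y (.nil △ .nil) := by
  intro e
  have h1 := h.stop (n := 1) (v := wd Y) (by rw [e, wd_app, wd_node]; simp [wd])
  have := h.g3
  omega

/-- **L** -/
theorem InnP.not_L (h : InnP g0 w.1) (h' : TyL F' g') : w ∉ g'.B := by
  obtain ⟨R', e, h1, h2, h3, h4, ht⟩ := h'
  intro hw
  rcases ht.words w hw with e1 | ⟨_, e1 | e1⟩
  · exact h.not_first (Y := ins R' e △ lp 1) e1
  · apply h.not_last (Y := app (ins R' e) (lp 1 △ .nil))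
    rw [e1, app_assoc]
    rfl
  · exact h.not_first (Y := lp 1 △ ins R' e) e1

/-- **K** -/
theorem InnP.not_K (h : InnP g0 w.1) (h' : TyK S F' g') : w ∉ g'.B := by
  have g3 := h.g3
  intro hw
  rcases IsTri.words h' w hw with e1 | ⟨_, e1 | e1⟩
  · exact h.not_last (Y := S △ .nil) e1
  · have h1 := h.stop (n := 2) (v := wd S ++ [true]) (by
      rw [e1]
      change wd (app S ((.nil △ .nil) △ .nil)) = _
      rw [wd_app, wd_node, wd_node]
      simp [wd])
    omega
  · exact h.not_first (Y := .nil △ S) e1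

/-- **K'** -/
theorem InnP.not_K' (h : InnP g0 w.1) (h' : TyK' S F' g') : w ∉ g'.B := by
  have g3 := h.g3
  intro hw
  rcases IsTri.words h' w hw with e1 | ⟨_, e1 | e1⟩
  · exact h.not_first (Y := S △ .nil) e1
  · apply h.not_last (Y := app S (.nil △ .nil))
    rw [e1, app_assoc]
    rfl
  · have h1 := h.start (n := 2) (v := false :: wd S) (by
      rw [e1]
      change wd ((.nil △ .nil) △ S) = _
      rw [wd_node, wd_node]
      simp [wd])
    omega

theorem start_ch {t Y : BinaryTree Unit} (h : InnP g0 t) {n : ℕ} (hn : 1 ≤ n) (e : t = app (ch n) Y) :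
    g0 ≤ n := by
  obtain ⟨m, rfl⟩ : ∃ m, n = m + 1 := ⟨n - 1, by omega⟩
  exact h.start (v := List.replicate m false ++ wd Y) (by
    rw [e, wd_app, wd_ch, List.replicate_succ (a := false)]
    simp)

theorem stop_ch {t Y : BinaryTree Unit} (h : InnP g0 t) {n : ℕ} (hn : 1 ≤ n) (e : t = app Y (ch n)) :
    g0 ≤ n := by
  obtain ⟨m, rfl⟩ : ∃ m, n = m + 1 := ⟨n - 1, by omega⟩
  exact h.stop (v := wd Y ++ List.replicate m true) (by
    rw [e, wd_app, wd_ch, List.replicate_succ' (a := true)]
    simp)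

/-- a small part or a bead high up -/
def Sml (g0 : ℕ) (t : BinaryTree Unit) : Prop := (∃ p ∈ cont t, 2 ≤ p ∧ p < g0) ∨ hb t

theorem raise_mem {M : Multiset ℕ} {p : ℕ} (h : p ∈ raise M) : p = M.sup + 1 ∨ p ∈ M := by
  unfold raise at h
  rw [Multiset.mem_cons] at h
  rcases h with h | h
  · exact Or.inl h
  · exact Or.inr (Multiset.mem_of_mem_erase h)

/-- **Cr** (content link, right), all parts of `S` but the beads larger than `c` -/
theorem InnP.not_C (h : InnP g0 w.1) (hs : Sml g0 w.1) (h' : TyC c S F' g') (hc : 1 ≤ c) (hv : vb 0 S)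
    (hp : ∀ x ∈ cont S, x = 1 ∨ c + 1 ≤ x) (hS : c + 1 ≤ OddHC.ht S) : w ∉ g'.B := by
  obtain ⟨d, rfl⟩ : ∃ d, c = d + 1 := ⟨c - 1, by omega⟩
  have hsup : (cont S).sup = OddHC.ht S := (OddHC.ht_eq S).symm
  have n0 : vb 0 (.nil : BinaryTree Unit) := nb_nil.vb 0
  have nc : vb 0 (ch (d + 1)) := (nb_ch _).vb 0
  have cc := ch_cont d
  have cc1 := ch_cont (d + 1)
  intro hw
  rcases IsTri.words h' w hw with e1 | ⟨_, e1 | e1⟩
  · have h1 : w.1 = app (S △ .nil) (ch (d + 1)) := e1
    have h2 := stop_ch h (by omega) h1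
    rcases hs with ⟨p, h3, h4, h5⟩ | hs
    · rw [h1, cont_app, cont_node, cont_nil, add_zero, cc, Multiset.mem_add, Multiset.mem_singleton] at h3
      rcases h3 with h3 | h3
      · rcases raise_mem h3 with h3 | h3
        · omega
        · rcases hp p h3 with h6 | h6 <;> omega
      · omega
    · rw [e1] at hs
      exact (vb_w1 n0 hv nc).not_hb hs
  · have h1 : w.1 = app S (ch (d + 1 + 1)) := e1
    have h2 := stop_ch h (by omega) h1
    rcases hs with ⟨p, h3, h4, h5⟩ | hs
    · rw [h1, cont_app, cc1, Multiset.mem_add, Multiset.mem_singleton] at h3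
      rcases h3 with h3 | h3
      · rcases hp p h3 with h6 | h6 <;> omega
      · omega
    · rw [e1] at hs
      exact (vb_w1 hv nc n0).not_hb hs
  · have h1 : w.1 = app (ch (d + 1)) (.nil △ S) := e1
    have h2 := start_ch h (by omega) h1
    rcases hs with ⟨p, h3, h4, h5⟩ | hs
    · rw [h1, cont_app, cont_node, cont_nil, raise_zero, cc, Multiset.mem_add, Multiset.mem_add,
        Multiset.mem_singleton, Multiset.mem_singleton] at h3
      rcases h3 with h3 | h3 | h3
      · omega
      · omega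
      · rcases hp p h3 with h6 | h6 <;> omega
    · rw [e1] at hs
      exact (vb_w1 nc n0 hv).not_hb hs

/-- **Cl** (content link, left), all parts of `S` but the beads larger than `c` -/
theorem InnP.not_C' (h : InnP g0 w.1) (hs : Sml g0 w.1) (h' : TyC' c S F' g') (hc : 1 ≤ c) (hv : vb 0 S)
    (hp : ∀ x ∈ cont S, x = 1 ∨ c + 1 ≤ x) (hS : c + 1 ≤ OddHC.ht S) : w ∉ g'.B := by
  obtain ⟨d, rfl⟩ : ∃ d, c = d + 1 := ⟨c - 1, by omega⟩
  have hsup : (cont S).sup = OddHC.ht S := (OddHC.ht_eq S).symm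
  have n0 : vb 0 (.nil : BinaryTree Unit) := nb_nil.vb 0
  have nc : vb 0 (ch (d + 1)) := (nb_ch _).vb 0
  have cc := ch_cont d
  have cc1 := ch_cont (d + 1)
  intro hw
  rcases IsTri.words h' w hw with e1 | ⟨_, e1 | e1⟩
  · have h1 : w.1 = app (ch (d + 1)) (S △ .nil) := e1
    have h2 := start_ch h (by omega) h1
    rcases hs with ⟨p, h3, h4, h5⟩ | hs
    · rw [h1, cont_app, cont_node, cont_nil, add_zero, cc, Multiset.mem_add, Multiset.mem_singleton] at h3
      rcases h3 with h3 | h3
      · omega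
      · rcases raise_mem h3 with h3 | h3
        · omega
        · rcases hp p h3 with h6 | h6 <;> omega
    · rw [e1] at hs
      exact (vb_w1 nc hv n0).not_hb hs
  · have h1 : w.1 = app (app S (.nil △ .nil)) (ch (d + 1)) := by
      rw [e1, app_assoc]; rfl
    have h2 := stop_ch h (by omega) h1
    rcases hs with ⟨p, h3, h4, h5⟩ | hs
    · rw [h1, cont_app, cont_app, cont_node, cont_nil, raise_zero, add_zero, cc, Multiset.mem_add,
        Multiset.mem_add, Multiset.mem_singleton, Multiset.mem_singleton] at h3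
      rcases h3 with (h3 | h3) | h3
      · rcases hp p h3 with h6 | h6 <;> omega
      · omega
      · omega
    · rw [e1] at hs
      exact (vb_w1 hv n0 nc).not_hb hs
  · have h1 : w.1 = app (ch (d + 1 + 1)) S := e1
    have h2 := start_ch h (by omega) h1
    rcases hs with ⟨p, h3, h4, h5⟩ | hs
    · rw [h1, cont_app, cc1, Multiset.mem_add, Multiset.mem_singleton] at h3
      rcases h3 with h3 | h3
      · omega
      · rcases hp p h3 with h6 | h6 <;> omega
    · rw [e1] at hs
      exact (vb_w1 n0 nc hv).not_hb hs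

/-- **Cl**, `c = 2`, `S` ends light -/
theorem InnP.not_Cl2 (h : InnP g0 w.1) (h' : TyC' 2 S F' g') {n : ℕ} {v : List Bool} (hn : n ≤ 2)
    (hS : wd S = v ++ true :: List.replicate n false) : w ∉ g'.B := by
  have g3 := h.g3
  intro hw
  rcases IsTri.words h' w hw with e1 | ⟨_, e1 | e1⟩
  · have h1 : w.1 = app (ch 2) (S △ .nil) := e1
    have h2 := start_ch h (by omega) h1
    omega
  · have h1 : w.1 = app (app S (.nil △ .nil)) (ch 2) := by
      rw [e1, app_assoc]; rfl
    have h2 := stop_ch h (by omega) h1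
    omega
  · have h1 : w.1 = app (ch 3) S := e1
    have h2 := h.stop (n := n) (v := wd (ch 3) ++ v) (by rw [h1, wd_app, hS]; simp)
    omega

/-- **Cr**, `c = 2`, `S` starts light -/
theorem InnP.not_Cr2 (h : InnP g0 w.1) (h' : TyC 2 S F' g') {n : ℕ} {v : List Bool} (hn : n ≤ 2)
    (hS : wd S = List.replicate n true ++ false :: v) : w ∉ g'.B := by
  have g3 := h.g3
  intro hw
  rcases IsTri.words h' w hw with e1 | ⟨_, e1 | e1⟩
  · have h1 : w.1 = app (S △ .nil) (ch 2) := e1
    have h2 := stop_ch h (by omega) h1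
    omega
  · have h1 : w.1 = app S (ch 3) := e1
    have h2 := h.start (n := n) (v := v ++ wd (ch 3)) (by rw [h1, wd_app, hS]; simp)
    omega
  · have h1 : w.1 = app (ch 2) (.nil △ S) := e1
    have h2 := start_ch h (by omega) h1
    omega

/-- **E**: word of the height of the group, or a part 2, or `4 ≤ g` and a part 3, or a part 3 and `fh X ≠ 2` -/
theorem InnP.not_E (h : InnP g0 w.1) (hk : g0 < k) (h4 : 4 ≤ OddHC.ht w.1) (h' : TyE F' g')
    (hc : (∀ d ∈ F', htc (cyc w) ≤ htc d) ∨ 1 ≤ (cont w.1).count 2 ∨ (4 ≤ g0 ∧ 1 ≤ (cont w.1).count 3) ∨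
      (1 ≤ (cont w.1).count 3 ∧ ∀ Y, w.1 = Y △ .nil → fh Y ≠ 2)) : w ∉ g'.B := by
  have g3 := h.g3
  obtain ⟨j, r, f, hj, hr, ht⟩ := h'
  have hf : (lf f).length = 2 * r.1.numNodes + 1 := by rw [lf_length, X_num]
  intro hw
  rcases ht.words _ hw with e | ⟨_, e | e⟩
  · rcases hc with hc | hc
    · have hF : cyc w ∈ F' ∨ ∀ d ∈ F', htc d < htc (cyc w) := ht.rank w hw
      obtain ⟨a', b', c', ha, hb', hc', k1, k2, k3, rfl, rfl⟩ := ht
      have e8 : w = a' := Subtype.ext (e.trans ha.symm)
      have h5 := hc (cyc b') (Or.inl rfl)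
      rw [e8] at h5
      omega
    · have e1 : w.1 = ins r.1 (lf f) △ .nil := e
      obtain ⟨l1, l2⟩ := low_fh hf hr
      have k1 := inner_one g3 h.sta (by rw [X_num]; exact hk) e1
      have hfree : ∀ Y, w.1 = Y △ .nil → Y = ins r.1 (lf f) := by
        intro Y hY
        rw [e1] at hY
        exact (BinaryTree.node.inj hY).2.1.symm
      have e2 : cont w.1 = raise (cont (ins r.1 (lf f))) := by
        rw [e1, cont_node, cont_nil, add_zero]
      rw [e2] at hc
      have hc' : 1 ≤ (raise (cont (ins r.1 (lf f)))).count 2 ∨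
          (4 ≤ g0 ∧ 1 ≤ (raise (cont (ins r.1 (lf f)))).count 3) ∨
          (1 ≤ (raise (cont (ins r.1 (lf f)))).count 3 ∧ fh (ins r.1 (lf f)) ≠ 2) := by
        rcases hc with hc | hc | ⟨hc, hc2⟩
        · exact Or.inl hc
        · exact Or.inr (Or.inl hc)
        · exact Or.inr (Or.inr ⟨hc, hc2 _ e1⟩)
      clear hc hfree
      generalize ins r.1 (lf f) = Y at *
      have e3 : (cont Y).sup + 1 = OddHC.ht w.1 := by
        rw [OddHC.ht_eq w.1, e2, sup_raise]
      have e4 : (raise (cont Y)).count 2 = (cont Y).count 2 := count_two_raise (by omega)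
      have e5 := count_three_raise (M := cont Y) (by omega)
      by_cases h6 : 1 ≤ (cont Y).count 2
      · have := l1 h6
        omega
      · rcases hc' with h2 | ⟨h7, h2⟩ | ⟨h2, h7⟩
        · omega
        · have := l2 (by omega) (by omega)
          omega
        · exact h7 (l2 (by omega) (by omega))
  · exact h.not_last (Y := ins r.1 (lf f)) e
  · exact h.not_first (Y := ins r.1 (lf f)) e

/-! ### The windows -/

variable {q : ℕ} {R B : BinaryTree Unit}

theorem _root_.Pool.OddHC.HM.NodeM.fmt (h : HM.NodeM k q R B S) : ∃ a b, FMT (q + 3) R a b :=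
  hg_FMT (by omega) (hg_of_cont (by omega) h.part) (by rw [ht_eq]; exact h.top)

/-- **both orientations** -/
theorem _root_.Pool.OddHC.HM.NodeM.inn (h : HM.NodeM k q R B S) (w0 : X k) {i : ℕ}
    (hi : i ∈ [0, 1, 3, 6, 8, 9]) : InnP (q + 3) (TT (wX R B S q w0 i)).1 ∧
      InnP (q + 3) (Tsq.mirX (TT (wX R B S q w0 i))).1 := by
  obtain ⟨a, b, h1⟩ := h.fmt
  have hi' : i < 20 := by
    simp only [List.mem_cons, List.not_mem_nil, or_false] at hi
    omega
  obtain ⟨u, v, h2⟩ := FMT_W (q := q) (B := B) (S := S) h1 (by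
    rw [ht_eq]; exact h.top.le) i hi
  rw [← wX_eq h.dat h.size w0 hi'] at h2
  obtain ⟨h3, h4⟩ := h2.inner
  exact ⟨⟨by omega, h3, h4⟩, ⟨by omega, h4.mir, h3.mir⟩⟩

theorem _root_.Pool.OddHC.HM.NodeM.sml (h : HM.NodeM k q R B S) (w0 : X k) {i : ℕ}
    (hi : i ∈ [1, 3, 6, 8, 9]) : Sml (q + 3) (TT (wX R B S q w0 i)).1 ∧
      Sml (q + 3) (Tsq.mirX (TT (wX R B S q w0 i))).1 := by
  obtain ⟨a, b, h1⟩ := h.fmt
  have hi' : i < 20 := by
    simp only [List.mem_cons, List.not_mem_nil, or_false] at hi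
    omega
  have hw := wX_eq h.dat h.size w0 hi'
  have hm : cont (Tsq.mirX (TT (wX R B S q w0 i))).1 = cont (TT (wX R B S q w0 i)).1 :=
    HM.cont_mir _
  have htop := h.top
  obtain ⟨d1, d2⟩ := count_WQ (R := R) (B := B) (S := S) (q := q) (by omega)
  have key : ∀ p, 1 ≤ (cont (W R (ch (q + 1)) B S i)).count p → 2 ≤ p → p < q + 3 →
      Sml (q + 3) (TT (wX R B S q w0 i)).1 ∧ Sml (q + 3) (Tsq.mirX (TT (wX R B S q w0 i))).1 := by
    intro p h2 h3 h4
    have h5 : p ∈ cont (TT (wX R B S q w0 i)).1 := by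
      rw [cont_TT, hw]
      exact Multiset.count_pos.1 h2
    exact ⟨Or.inl ⟨p, h5, h3, h4⟩, Or.inl ⟨p, by rw [hm]; exact h5, h3, h4⟩⟩
  by_cases h6 : i = 6
  · subst h6
    exact key (q + 2) d2 (by omega) (by omega)
  · have hi2 : i ∈ [1, 3, 8, 9] := by
      simp only [List.mem_cons, List.not_mem_nil, or_false] at hi ⊢
      omega
    by_cases hq : q = 0
    · subst hq
      obtain ⟨h2, h3⟩ := inner_hb (B := B) (S := S) h1.fm (by rw [ht_eq]; omega) (x := wX R B S 0 w0 i) i hi2 hw
      exact ⟨Or.inr h2, Or.inr h3⟩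
    · exact key (q + 1) (d1 i hi2) (by omega) (by omega)


/-- the content and the height of the inner words -/
theorem _root_.Pool.OddHC.HM.NodeM.winn (h : HM.NodeM k q R B S) (w0 : X k) {i : ℕ}
    (hi : i ∈ [0, 1, 3, 6, 8, 9]) {w : X k}
    (hw : w = TT (wX R B S q w0 i) ∨ w = Tsq.mirX (TT (wX R B S q w0 i))) :
    cont w.1 = cont (W R (ch (q + 1)) B S i) ∧ OddHC.ht R ≤ OddHC.ht w.1 ∧
      (i = 0 ∨ i = 1 → OddHC.ht w.1 = OddHC.ht R) := by
  have hi' : i < 20 := by
    simp only [List.mem_cons, List.not_mem_nil, or_false] at hi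
    omega
  have hx := wX_eq h.dat h.size w0 hi'
  have h1 : cont w.1 = cont (W R (ch (q + 1)) B S i) := by
    rcases hw with rfl | rfl
    · rw [cont_TT, hx]
    · change cont (Tsq.mir (TT (wX R B S q w0 i)).1) = _
      rw [HM.cont_mir, cont_TT, hx]
  have h2 : OddHC.ht w.1 = OddHC.ht (W R (ch (q + 1)) B S i) := by
    rw [OddHC.ht_eq, h1, ← OddHC.ht_eq]
  have htop := h.top
  have hQ := ch_ht (q + 1)
  have h00 : OddHC.ht (BinaryTree.nil : BinaryTree Unit) = 0 := rfl
  refine ⟨h1, ?_, ?_⟩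
  · rw [h2]
    simp only [List.mem_cons, List.not_mem_nil, or_false] at hi
    rcases hi with rfl | rfl | rfl | rfl | rfl | rfl <;>
      simp only [W, ht_app, ht_node] <;> omega
  · intro h3
    rw [h2]
    rcases h3 with rfl | rfl <;> simp only [W, ht_app, ht_node, hQ, h00] <;> omega

/-- **E** for both orientations: all words for `q = 1`, all but word 6 for `q = 2`, words 0, 1, 6 for `q = 0`, words 3, 8, 9
for `q = 0` if the word is not `(X)` with `fh X = 2` -/
theorem _root_.Pool.OddHC.HM.NodeM.not_E (h : HM.NodeM k q R B S) (w0 : X k) {i : ℕ}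
    (hi : i ∈ [0, 1, 3, 6, 8, 9]) {w : X k}
    (hw : w = TT (wX R B S q w0 i) ∨ w = Tsq.mirX (TT (wX R B S q w0 i))) (h' : TyE F' g')
    (hc : ((i = 0 ∨ i = 1) ∧ ∀ d ∈ F', OddHC.ht R ≤ htc d) ∨ (q = 0 ∧ i = 6) ∨ (q = 1 ∧ i ≠ 0) ∨
      (q = 2 ∧ i ≠ 0 ∧ i ≠ 6) ∨ (q = 0 ∧ ∀ Y, w.1 = Y △ .nil → fh Y ≠ 2)) : w ∉ g'.B := by
  obtain ⟨c1, c2, c3⟩ := h.winn w0 hi hw
  have htop := h.top
  have hin : InnP (q + 3) w.1 := by
    rcases hw with rfl | rfl
    · exact (h.inn w0 hi).1
    · exact (h.inn w0 hi).2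
  have hk : q + 3 < k := by
    have h1 := h.size
    have h2 : R.numNodes ≠ 0 := by
      intro e
      apply h.ne
      cases hR : R with
      | nil => rfl
      | node _ A C =>
        exfalso
        rw [hR] at e
        change A.numNodes + C.numNodes + 1 = 0 at e
        omega
    omega
  obtain ⟨d1, d2⟩ := count_WQ (R := R) (B := B) (S := S) (q := q) (by omega)
  refine hin.not_E hk (by omega) h' ?_
  have hsmall : i ≠ 0 → i ≠ 6 → 1 ≤ (cont w.1).count (q + 1) := by
    intro h1 h2
    rw [c1]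
    apply d1
    simp only [List.mem_cons, List.not_mem_nil, or_false] at hi ⊢
    omega
  have h6 : i = 6 → 1 ≤ (cont w.1).count (q + 2) := by
    rintro rfl
    rw [c1]
    exact d2
  rcases hc with ⟨hc, hd⟩ | ⟨rfl, hc⟩ | ⟨rfl, hc⟩ | ⟨rfl, hc, hc2⟩ | ⟨rfl, hc⟩
  · left
    intro d hd'
    have := hd d hd'
    rw [htc_cyc, c3 hc]
    exact this
  · exact Or.inr (Or.inl (h6 hc))
  · by_cases h1 : i = 6
    · exact Or.inr (Or.inr (Or.inl ⟨by omega, h6 h1⟩))
    · exact Or.inr (Or.inl (hsmall hc h1))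
  · exact Or.inr (Or.inr (Or.inl ⟨by omega, hsmall hc hc2⟩))
  · refine Or.inr (Or.inr (Or.inr ⟨?_, hc⟩))
    rw [c1]
    refine le_trans ?_ (count_W (R := R) (B := B) (S := S) (q := 0) (x := 3) htop i hi)
    exact Multiset.count_pos.2 h.mem

end H1

open H1 HM

/-- a word of the group of a triple at least as high -/
theorem IsTri.not_of_cyc {P Q R : BinaryTree Unit} {k : ℕ} {F F' : Set (Cyc k)} {g' : DG k}
    (h' : IsTri P Q R F' g') {w : X k} (hw : cyc w ∈ F) (hd : ∀ c ∈ F, c ∉ F')
    (hh : ∀ c ∈ F, ∀ d ∈ F', htc c ≤ htc d) : w ∉ g'.B := by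
  intro hw'
  rcases h'.rank w hw' with h1 | h1
  · exact hd _ hw h1
  · obtain ⟨a', b', c', ha, hb', hc', k1, k2, k3, rfl, rfl⟩ := h'
    have h2 := h1 (cyc b') (Or.inl rfl)
    have h3 := hh _ hw (cyc b') (Or.inl rfl)
    omega

section A0

variable {k : ℕ} {F F' : Set (Cyc k)} {g g' : DG k} {S : BinaryTree Unit} {c : ℕ}

/-- the inner words of a mirrored bare window -/
theorem TyA0.inn (h : TyA0 F g) : ∃ (q : ℕ) (R B S : BinaryTree Unit) (w0 : X k), NodeM k q R B S ∧
    F = {cyc (mX R B S q w0 0)} ∧ ∀ p ∈ g.arcs, ∃ i ∈ [0, 1, 3, 6, 8, 9],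
      innA p = {Tsq.mirX (TT (wX R B S q w0 i))} := by
  obtain ⟨q, R, B, S, w0, h1, hne, rfl, rfl⟩ := h
  refine ⟨q, R, B, S, w0, h1, rfl, ?_⟩
  intro p hp
  have key : ∀ i j, (i, j) ∈ [(0, 10), (1, 11), (3, 12), (6, 15), (8, 14), (9, 17)] →
      p = (mX R B S q w0 j, mX R B S q w0 i) → innA p = {Tsq.mirX (TT (wX R B S q w0 i))} := by
    rintro i j hij rfl
    change ({TT (mX R B S q w0 j)} : Set (X k)) = _
    rw [inner_mir h1 w0 hij]
  have hp' : p = (mX R B S q w0 10, mX R B S q w0 0) ∨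
      p = (mX R B S q w0 11, mX R B S q w0 1) ∨
      p = (mX R B S q w0 12, mX R B S q w0 3) ∨
      p = (mX R B S q w0 15, mX R B S q w0 6) ∨
      p = (mX R B S q w0 14, mX R B S q w0 8) ∨
      p = (mX R B S q w0 17, mX R B S q w0 9) := hp
  rcases hp' with e | e | e | e | e | e
  · exact ⟨0, by simp, key 0 10 (by simp) e⟩
  · exact ⟨1, by simp, key 1 11 (by simp) e⟩
  · exact ⟨3, by simp, key 3 12 (by simp) e⟩
  · exact ⟨6, by simp, key 6 15 (by simp) e⟩
  · exact ⟨8, by simp, key 8 14 (by simp) e⟩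
  · exact ⟨9, by simp, key 9 17 (by simp) e⟩

theorem NodeM.cyc0 {q : ℕ} {R B S : BinaryTree Unit} (h : NodeM k q R B S) (w0 : X k) :
    cyc (Tsq.mirX (TT (wX R B S q w0 0))) = cyc (mX R B S q w0 0) := by
  rw [← inner_mir h w0 (i := 0) (j := 10) (by simp)]
  have e1 : cyc (TT (mX R B S q w0 10)) = cyc (mX R B S q w0 10) := cyc_eq.2 ⟨-1, by simp⟩
  rw [e1]
  exact (cyc_eq.2 (h.same10 w0)).symm

theorem TyA0.inn1 (h : TyA0 F g) : ∃ q : ℕ, ∀ p ∈ g.arcs, ∀ w ∈ innA p, InnP (q + 3) w.1 ∧
    (cyc w ∈ F ∨ Sml (q + 3) w.1) := by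
  obtain ⟨q, R, B, S, w0, h1, rfl, h2⟩ := h.inn
  refine ⟨q, fun p hp w hw => ?_⟩
  obtain ⟨i, hi, e⟩ := h2 p hp
  rw [e] at hw
  obtain rfl : w = _ := hw
  refine ⟨(h1.inn w0 hi).2, ?_⟩
  by_cases h0 : i = 0
  · subst h0
    exact Or.inl (NodeM.cyc0 h1 w0)
  · refine Or.inr (h1.sml w0 ?_).2
    simp only [List.mem_cons, List.not_mem_nil, or_false] at hi ⊢
    omega

/-- **L** -/
theorem TyA0.inner_L (h : TyA0 F g) (h' : TyL F' g') : ∀ p ∈ g.arcs, ∀ w ∈ innA p, w ∉ g'.B := by
  obtain ⟨q, h1⟩ := h.inn1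
  intro p hp w hw
  exact (h1 p hp w hw).1.not_L h'

/-- **K**, any `S` -/
theorem TyA0.inner_K (h : TyA0 F g) (h' : TyK S F' g') : ∀ p ∈ g.arcs, ∀ w ∈ innA p, w ∉ g'.B := by
  obtain ⟨q, h1⟩ := h.inn1
  intro p hp w hw
  exact (h1 p hp w hw).1.not_K h'

/-- **K'**, any `S` -/
theorem TyA0.inner_K' (h : TyA0 F g) (h' : TyK' S F' g') : ∀ p ∈ g.arcs, ∀ w ∈ innA p, w ∉ g'.B := by
  obtain ⟨q, h1⟩ := h.inn1
  intro p hp w hw
  exact (h1 p hp w hw).1.not_K' h'

/-- **Cr** -/
theorem TyA0.inner_Cr (h : TyA0 F g) (h' : TyC c S F' g') (hc : 1 ≤ c) (hv : vb 0 S)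
    (hp : ∀ x ∈ cont S, x = 1 ∨ c + 1 ≤ x) (hS : c + 1 ≤ ht S) (hd : ∀ c ∈ F, c ∉ F')
    (hh : ∀ c ∈ F, ∀ d ∈ F', htc c ≤ htc d) : ∀ p ∈ g.arcs, ∀ w ∈ innA p, w ∉ g'.B := by
  obtain ⟨q, h1⟩ := h.inn1
  intro p hp' w hw
  obtain ⟨h2, h3 | h3⟩ := h1 p hp' w hw
  · exact IsTri.not_of_cyc h' h3 hd hh
  · exact h2.not_C h3 h' hc hv hp hS

/-- **Cl** -/
theorem TyA0.inner_Cl (h : TyA0 F g) (h' : TyC' c S F' g') (hc : 1 ≤ c) (hv : vb 0 S)
    (hp : ∀ x ∈ cont S, x = 1 ∨ c + 1 ≤ x) (hS : c + 1 ≤ ht S) (hd : ∀ c ∈ F, c ∉ F')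
    (hh : ∀ c ∈ F, ∀ d ∈ F', htc c ≤ htc d) : ∀ p ∈ g.arcs, ∀ w ∈ innA p, w ∉ g'.B := by
  obtain ⟨q, h1⟩ := h.inn1
  intro p hp' w hw
  obtain ⟨h2, h3 | h3⟩ := h1 p hp' w hw
  · exact IsTri.not_of_cyc h' h3 hd hh
  · exact h2.not_C' h3 h' hc hv hp hS

/-- **Cl**, `c = 2`, `S` ends light (`.. 1 0^n`, `n ≤ 2`) -/
theorem TyA0.inner_Cl2 (h : TyA0 F g) (h' : TyC' 2 S F' g') {n : ℕ} {v : List Bool} (hn : n ≤ 2)
    (hS : wd S = v ++ true :: List.replicate n false) : ∀ p ∈ g.arcs, ∀ w ∈ innA p, w ∉ g'.B := by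
  obtain ⟨q, h1⟩ := h.inn1
  intro p hp w hw
  exact (h1 p hp w hw).1.not_Cl2 h' hn hS

/-- **Cr**, `c = 2`, `S` starts light (`1^n 0 ..`, `n ≤ 2`) -/
theorem TyA0.inner_Cr2 (h : TyA0 F g) (h' : TyC 2 S F' g') {n : ℕ} {v : List Bool} (hn : n ≤ 2)
    (hS : wd S = List.replicate n true ++ false :: v) : ∀ p ∈ g.arcs, ∀ w ∈ innA p, w ∉ g'.B := by
  obtain ⟨q, h1⟩ := h.inn1
  intro p hp w hw
  exact (h1 p hp w hw).1.not_Cr2 h' hn hS

/-- **E** for `c = 4` (the group has a part 4 as its smallest part: every window `NodeM k 1 ..`) -/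
theorem TyA0.inner_E4 {R B S : BinaryTree Unit} {w0 : X k} (h : NodeM k 1 R B S) (h' : TyE F' g')
    (hh : ∀ d ∈ F', ht R ≤ htc d) {i : ℕ} (hi : i ∈ [0, 1, 3, 6, 8, 9]) {w : X k}
    (hw : w = TT (wX R B S 1 w0 i) ∨ w = Tsq.mirX (TT (wX R B S 1 w0 i))) : w ∉ g'.B := by
  by_cases h0 : i = 0
  · exact h.not_E w0 hi hw h' (Or.inl ⟨Or.inl h0, hh⟩)
  · exact h.not_E w0 hi hw h' (Or.inr (Or.inr (Or.inl ⟨rfl, h0⟩)))

end A0

end Pool.OddHC
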