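import Pool.Agent.Work.MP_8f87b2_h58.Late

/-!
# Late E pairs, two beads in one gap

`DblT t` : some gap of the word `t` carries two beads; this only depends on the T-cycle. The T-cycles of the E pairs hit by
`T(w_3)`, `T(w_8)` of a bare window with `c = 3` have this property, the words of the windows with the single marker `()`
and `c ≥ 4` which have three beads do not.
-/

set_option autoImplicit false
set_option linter.all false

namespace Pool.OddHC

open Finset Equiv BinaryTree Pool.Agent.Work.MP_8f87b2_co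

namespace H1

variable {k j : ℕ}

/-- alternating runs of length at most four; the last letter is `b`, its run has length `n` -/
def alt4 : Bool → ℕ → List Bool → Prop
  | _, _, [] => True
  | b, n, c :: l => if c = b then alt4 c 1 l else n + 1 ≤ 4 ∧ alt4 c (n + 1) l

theorem alt4_fac (c : Bool) : ∀ (l : List Bool) (b : Bool) (n : ℕ) (r : List Bool),
    ¬ alt4 b n (l ++ c :: (!c) :: c :: (!c) :: c :: r) := by
  intro l
  induction l with
  | nil =>
    intro b n r h
    cases b <;> cases c <;> simp [alt4] at h <;> omega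
  | cons x l ih =>
    intro b n r h
    rw [List.cons_append, alt4] at h
    split at h
    · exact ih _ _ _ h
    · exact ih _ _ _ h.2

theorem CL_alt : ∀ (s : List Bool) (e : List ℕ) (b : Bool) (n : ℕ), (∀ x ∈ e, x ≤ 1) →
    (b = true → n ≤ 4) → (b = false → n ≤ 1) →
    alt4 b n (ud (e.headD 0 + pk01 b (s.headD false)) ++ CL false s e.tail) := by
  intro s
  induction s with
  | nil =>
    intro e b n he h1 h2
    have h0 : e.headD 0 ≤ 1 := by
      cases e with
      | nil => simp
      | cons x e => exact he x (by simp)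
    cases b with
    | true =>
      have h3 : e.headD 0 = 0 ∨ e.headD 0 = 1 := by omega
      rcases h3 with h3 | h3 <;> rw [h3] <;> simp [pk01, ud, CL, alt4]
    | false =>
      have h3 : e.headD 0 = 0 ∨ e.headD 0 = 1 := by omega
      have h4 := h2 rfl
      rcases h3 with h3 | h3 <;> rw [h3] <;> simp [pk01, ud, CL, alt4] <;> omega
  | cons c s ih =>
    intro e b n he h1 h2
    have h0 : e.headD 0 ≤ 1 := by
      cases e with
      | nil => simp
      | cons x e => exact he x (by simp)
    have ht : ∀ x ∈ e.tail, x ≤ 1 := fun x hx => he x (List.mem_of_mem_tail hx)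
    have key : ∀ n', (c = true → n' ≤ 4) → (c = false → n' ≤ 1) →
        alt4 c n' (ud (e.tail.headD 0 + pk01 c (s.headD false)) ++ CL false s e.tail.tail) :=
      fun n' a1 a2 => ih e.tail c n' ht a1 a2
    have h3 : e.headD 0 = 0 ∨ e.headD 0 = 1 := by omega
    rw [CL, List.headD_cons]
    cases b with
    | true =>
      cases c with
      | true =>
        rcases h3 with h3 | h3
        · rw [h3]
          simp only [pk01, ud, alt4, List.nil_append, List.cons_append, Bool.not_true, Bool.and_false,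
            Bool.false_eq_true, if_false, if_true, add_zero]
          exact key 1 (fun _ => by norm_num) (fun h => by simp at h)
        · rw [h3]
          simp only [pk01, ud, alt4, List.nil_append, List.cons_append, Bool.not_true, Bool.and_false,
            Bool.false_eq_true, if_false, if_true, add_zero, reduceCtorEq]
          exact ⟨by norm_num, by norm_num, key 3 (fun _ => by norm_num) (fun h => by simp at h)⟩
      | false =>
        rcases h3 with h3 | h3
        · rw [h3]
          simp only [pk01, ud, alt4, List.nil_append, List.cons_append, Bool.not_false, Bool.and_true,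
            Bool.false_eq_true, if_false, if_true, zero_add, reduceCtorEq]
          exact ⟨by norm_num, key 1 (fun h => by simp at h) (fun _ => le_refl _)⟩
        · rw [h3]
          simp only [pk01, ud, alt4, List.nil_append, List.cons_append, Bool.not_false, Bool.and_true,
            Bool.false_eq_true, if_false, if_true, Nat.reduceAdd, reduceCtorEq]
          exact ⟨by norm_num, by norm_num, by norm_num, key 1 (fun h => by simp at h) (fun _ => le_refl _)⟩
    | false =>
      have h4 := h2 rfl
      cases c with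
      | true =>
        rcases h3 with h3 | h3
        · rw [h3]
          simp only [pk01, ud, alt4, List.nil_append, List.cons_append, Bool.not_true, Bool.and_false,
            Bool.false_eq_true, if_false, if_true, add_zero, reduceCtorEq]
          exact ⟨by omega, key (n + 1) (fun _ => by omega) (fun h => by simp at h)⟩
        · rw [h3]
          simp only [pk01, ud, alt4, List.nil_append, List.cons_append, Bool.not_true, Bool.and_false,
            Bool.false_eq_true, if_false, if_true, add_zero, reduceCtorEq]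
          exact ⟨by omega, by omega, by omega, key (n + 1 + 1 + 1) (fun _ => by omega) (fun h => by simp at h)⟩
      | false =>
        rcases h3 with h3 | h3
        · rw [h3]
          simp only [pk01, ud, alt4, List.nil_append, List.cons_append, Bool.false_and,
            Bool.false_eq_true, if_false, if_true, add_zero, reduceCtorEq]
          exact key 1 (fun h => by simp at h) (fun _ => le_refl _)
        · rw [h3]
          simp only [pk01, ud, alt4, List.nil_append, List.cons_append, Bool.false_and,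
            Bool.false_eq_true, if_false, if_true, add_zero, reduceCtorEq]
          exact ⟨by omega, by omega, key 1 (fun h => by simp at h) (fun _ => le_refl _)⟩

/-- two beads in one gap -/
def DblT (t : BinaryTree Unit) : Prop := ∃ x ∈ (red t).2, 2 ≤ x

/-- an alternating factor of length five gives two beads in one gap -/
theorem dbl_of {t : BinaryTree Unit} {c : Bool} {l r : List Bool}
    (h : wd t = l ++ c :: (!c) :: c :: (!c) :: c :: r) : DblT t := by
  by_contra hc
  unfold DblT at hc
  push Not at hc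
  have h1 : ∀ x ∈ (red t).2, x ≤ 1 := fun x hx => by
    have := hc x hx
    omega
  have h2 := sl_ins (red t).1 (red t).2 (red_len t)
  rw [ins_red] at h2
  unfold sl at h2
  rw [CL, List.cons.injEq] at h2
  have h3 := CL_alt (wd (red t).1) (red t).2 false 1 h1 (fun h => by simp at h) (fun _ => le_refl _)
  rw [← h2.2, h] at h3
  exact alt4_fac c l false 1 r h3

theorem dbl_TT (w : X k) (h : DblT (TT w).1) : DblT w.1 := by
  obtain ⟨u, hu⟩ : ∃ u, u = (red w.1).1 := ⟨_, rfl⟩
  obtain ⟨e, he⟩ : ∃ e, e = (red w.1).2 := ⟨_, rfl⟩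
  have h1 : e.length = 2 * u.numNodes + 1 := by rw [he, hu]; exact red_len w.1
  have h2 : w.1 = ins u e := by rw [he, hu]; exact (ins_red w.1).symm
  obtain ⟨U, hU⟩ : ∃ U : X u.numNodes, U.1 = u := ⟨⟨u, mem_treesOfNumNodesEq.2 rfl⟩, rfl⟩
  have h3 := (TF_ins' U e h1 w (by rw [hU]; exact h2)).1
  have h4 : (red (TT w).1).2 = e.rotate (Vo U).val := by
    rw [TT_apply, h3, red_ins _ _ (by rw [List.length_rotate, h1, X_num])]
  obtain ⟨x, hx, hx2⟩ := h
  rw [h4, List.mem_rotate, he] at hx
  exact ⟨x, hx, hx2⟩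

theorem dbl_cyc {w w' : X k} (h : cyc w = cyc w') (hw : DblT w.1) : DblT w'.1 := by
  obtain ⟨i, hi⟩ := sameCycle_nat (cyc_eq.1 h.symm)
  have key : ∀ i, DblT ((TT ^ i) w').1 → DblT w'.1 := by
    intro i
    induction i with
    | zero => exact fun h => h
    | succ i ih =>
      intro h
      apply ih
      apply dbl_TT
      rw [pow_succ', Perm.mul_apply] at h
      exact h
  apply key i
  rw [hi]
  exact hw

/-- `X` has two beads in one gap: so have `()X` and `X()` -/
theorem dbl_ins {r : X j} {f : ZMod (2 * j + 1) → ℕ} (h : DblT (ins r.1 (lf f))) :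
    DblT (.nil △ ins r.1 (lf f)) ∧ DblT (app (ins r.1 (lf f)) (.nil △ .nil)) := by
  have hmem : ∀ {a : ZMod (2 * j + 1) → ℕ}, DblT (ins r.1 (lf a)) ↔ ∃ x, 2 ≤ a x := by
    intro a
    unfold DblT
    rw [red_ins _ _ (by rw [lf_length, X_num])]
    constructor
    · rintro ⟨x, hx, h2⟩
      unfold lf at hx
      rw [List.mem_map] at hx
      obtain ⟨i, _, rfl⟩ := hx
      exact ⟨_, h2⟩
    · rintro ⟨x, h2⟩
      refine ⟨a x, ?_, h2⟩
      unfold lf
      rw [List.mem_map]
      exact ⟨x.val, List.mem_range.2 (ZMod.val_lt x), by rw [ZMod.natCast_zmod_val]⟩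
  obtain ⟨x, hx⟩ := hmem.1 h
  constructor
  · rw [← ins_front]
    exact hmem.2 ⟨x, le_trans hx (Nat.le_add_right _ _)⟩
  · rw [← ins_back]
    exact hmem.2 ⟨x, le_trans hx (Nat.le_add_right _ _)⟩

variable {g0 : ℕ}

/-- the alternating factor of `(X)` lies in `X` -/
theorem InnP.dbl_in {t X0 : BinaryTree Unit} (h : InnP g0 t) (e : t = X0 △ .nil) {c : Bool} {l r : List Bool}
    (hw : wd t = l ++ c :: (!c) :: c :: (!c) :: c :: r) : DblT X0 := by
  have hg := h.g3
  have e1 : wd t = true :: (wd X0 ++ [false]) := by rw [e, wd_node]; rfl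
  have hr : r ≠ [] := by
    rintro rfl
    rw [e1] at hw
    have h1 : true :: (wd X0 ++ [false]) = (true :: wd X0) ++ [false] := rfl
    have h2 : l ++ c :: (!c) :: c :: (!c) :: [c] = (l ++ [c, !c, c, !c]) ++ [c] := by simp
    rw [h1, h2] at hw
    have h3 := List.append_inj_right' hw rfl
    have h4 := List.append_inj_left' hw rfl
    simp only [List.cons.injEq, and_true] at h3
    subst h3
    have h5 := h.stop (n := 1) (v := l ++ [false, true, false]) (by
      rw [e1, h1, h4]
      simp)
    omega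
  obtain ⟨r', x, rfl⟩ : ∃ r' x, r = r' ++ [x] :=
    ⟨r.dropLast, r.getLast hr, (List.dropLast_append_getLast hr).symm⟩
  cases l with
  | nil =>
    exfalso
    rw [e1] at hw
    rw [List.nil_append, List.cons.injEq] at hw
    obtain ⟨h2, h3⟩ := hw
    subst h2
    have h5 := h.start (n := 1) (v := true :: false :: true :: (r' ++ [x])) (by
      rw [e1, h3]
      simp)
    omega
  | cons y l =>
    rw [e1, List.cons_append, List.cons.injEq] at hw
    have h2 : l ++ c :: (!c) :: c :: (!c) :: c :: (r' ++ [x]) =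
        (l ++ c :: (!c) :: c :: (!c) :: c :: r') ++ [x] := by simp
    rw [h2] at hw
    exact dbl_of (List.append_inj_left' hw.2 rfl)

/-- the inner words 3 and 8 of a window with `q = 0` have an alternating factor of length five -/
theorem inner_alt {R B S : BinaryTree Unit} {a b : List Bool} (h : FM R a b) (hq : 4 ≤ Tsq.ht R)
    {x : X k} {i : ℕ} (hi : i = 3 ∨ i = 8) (e : x.1 = W R (ch 1) B S i) :
    (∃ c l r, wd (TT x).1 = l ++ c :: (!c) :: c :: (!c) :: c :: r) ∧
      ∃ c l r, wd (Tsq.mir (TT x).1) = l ++ c :: (!c) :: c :: (!c) :: c :: r := by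
  have hn : Tsq.ht (.nil : BinaryTree Unit) = 0 := rfl
  have hc : ∀ n, Tsq.ht (ch n) = n := fun n => by rw [ht_eq, ch_ht]
  have hm : ∀ {t : BinaryTree Unit} {c : Bool} {l r : List Bool},
      wd t = l ++ c :: (!c) :: c :: (!c) :: c :: r →
      ∃ c l r, wd (Tsq.mir t) = l ++ c :: (!c) :: c :: (!c) :: c :: r := by
    intro t c l r h1
    refine ⟨!c, (r.map not).reverse, (l.map not).reverse, ?_⟩
    rw [Tsq.wd_mir, h1]
    simp
  have hR : R ≠ .nil := by
    rintro rfl
    rw [hn] at hq
    omega
  obtain ⟨b', hb'⟩ : ∃ b', b = b' ++ [false] := by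
    obtain ⟨v, hv⟩ := wd_last hR
    have h1 := h.eq
    cases hbb : b with
    | nil =>
      exfalso
      have h2 := h.bal
      rw [hbb] at h2
      simp at h2
      omega
    | cons z b2 =>
      rw [hv, hbb] at h1
      have h3 : (a ++ true :: z :: b2) = (a ++ [true]) ++ (z :: b2) := by simp
      obtain ⟨b3, y, h4⟩ : ∃ b3 y, z :: b2 = b3 ++ [y] :=
        ⟨(z :: b2).dropLast, (z :: b2).getLast (by simp), (List.dropLast_append_getLast (by simp)).symm⟩
      rw [h3, h4, ← List.append_assoc] at h1
      have h5 := List.append_inj_right' h1 rfl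
      simp only [List.cons.injEq, and_true] at h5
      exact ⟨b3, by rw [h4, ← h5]⟩
  rcases hi with rfl | rfl
  · have k1 := (h.app_right (Z := .nil △ ch 1) (by
      rw [Tsq.ht_node, hc, hn]; omega)).node (Z := .nil) (by rw [hn]; omega)
    have e' : x.1 = (app R (.nil △ ch 1) △ .nil) := e
    rw [← e'] at k1
    have e1 : wd (TT x).1 = (b'.map not) ++ true :: (!true) :: true :: (!true) :: true :: true :: false :: false ::
        a.map not := by
      rw [k1.wdT]
      simp [ch, wd_node, wd, hb']
    exact ⟨⟨_, _, _, e1⟩, hm e1⟩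
  · have k1 := (h.node (Z := .nil) (by rw [hn]; omega)).app_left
      (P := app (ch 1) (.nil △ .nil)) (by
        rw [Tsq.ht_node, Tsq.ht_app, Tsq.ht_node, hc, hn]; omega)
    have e' : x.1 = app (app (ch 1) (.nil △ .nil)) (R △ .nil) := by
      rw [app_assoc]; exact e
    rw [← e'] at k1
    have e1 : wd (TT x).1 = (b.map not ++ [true, false]) ++ false :: (!false) :: false :: (!false) :: false ::
        a.map not := by
      rw [k1.wdT]
      simp [ch, wd_node, wd, app]
    exact ⟨⟨_, _, _, e1⟩, hm e1⟩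

/-- **P0 has two beads in one gap** -/
theorem _root_.Pool.OddHC.HM.NodeM.late_dbl {R B S : BinaryTree Unit} {F' : Set (Cyc k)} {g' : DG k}
    (h : HM.NodeM k 0 R B S) (w0 : X k) {i : ℕ} (hi : i = 3 ∨ i = 8) {w : X k}
    (hw : w = TT (wX R B S 0 w0 i) ∨ w = Tsq.mirX (TT (wX R B S 0 w0 i)))
    (h' : TyE F' g') (hg : w ∈ g'.B) : ∀ c ∈ F', ∀ v : X k, cyc v = c → DblT v.1 := by
  have hi2 : i ∈ [0, 1, 3, 6, 8, 9] := by rcases hi with rfl | rfl <;> simp
  have hi3 : i < 20 := by omega
  have hin : InnP (0 + 3) w.1 := by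
    rcases hw with rfl | rfl
    · exact (h.inn w0 hi2).1
    · exact (h.inn w0 hi2).2
  obtain ⟨a, b, hf⟩ := h.fmt
  have h1 := inner_alt (B := B) (S := S) hf.fm (by
    have := h.top
    rw [ht_eq]; omega) hi (wX_eq h.dat h.size w0 hi3)
  obtain ⟨c0, l, r0, h2⟩ : ∃ c l r, wd w.1 = l ++ c :: (!c) :: c :: (!c) :: c :: r := by
    rcases hw with rfl | rfl
    · exact h1.1
    · exact h1.2
  obtain ⟨j, r, f, hj, hr, ht⟩ := h'
  rcases ht.words _ hg with e | ⟨_, e | e⟩
  · have e1 : w.1 = ins r.1 (lf f) △ .nil := e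
    obtain ⟨d1, d2⟩ := dbl_ins (hin.dbl_in e1 h2)
    obtain ⟨a', b', c', ha, hb', hc', k1, k2, k3, rfl, rfl⟩ := ht
    rintro c (rfl | rfl) v hv
    · refine dbl_cyc hv.symm ?_
      rw [hb']
      exact d2
    · refine dbl_cyc hv.symm ?_
      rw [hc']
      exact d1
  · exact absurd e (hin.not_last (Y := ins r.1 (lf f)))
  · exact absurd e (hin.not_first (Y := ins r.1 (lf f)))

/-! ### Words with three beads in three different gaps -/

/-- at most one bead in every gap -/
def One (t : BinaryTree Unit) : Prop := ∀ x ∈ (red t).2, x ≤ 1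

theorem One.not_dbl {t : BinaryTree Unit} (h : One t) : ¬ DblT t := by
  rintro ⟨x, hx, h2⟩
  have := h x hx
  omega

theorem one_sum {t : BinaryTree Unit} (h : (cont t).count 1 ≤ 1) : One t := by
  intro x hx
  have h1 : (red t).2.sum = (cont t).count 1 := by
    rw [← count_one_ins _ _ (red_len t), ins_red]
  have := List.single_le_sum (fun y _ => Nat.zero_le y) x hx
  omega

/-- the first gap is empty -/
theorem red_fst {A C : BinaryTree Unit} (h : A ≠ .nil) : ∃ l, (red (A △ C)).2 = 0 :: l := by
  have h1 := red_len (A △ C)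
  cases h2 : (red (A △ C)).2 with
  | nil => rw [h2] at h1; simp at h1
  | cons x l =>
    cases x with
    | zero => exact ⟨l, rfl⟩
    | succ x =>
      exfalso
      have h3 := ins_red (A △ C)
      rw [h2, ins_succ] at h3
      exact h (BinaryTree.node.inj h3).2.1.symm

theorem one_app {P A C : BinaryTree Unit} (hP : One P) (hQ : One (A △ C)) (h : A ≠ .nil) :
    One (app P (A △ C)) := by
  obtain ⟨l, hl⟩ := red_fst (C := C) h
  have h1 := red_len P
  have h2 := red_len (A △ C)
  have h3 := ins_app (red (A △ C)).1 l (red P).1 (red P).2 h1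
  rw [ins_red, ← hl, ins_red] at h3
  intro x hx
  rw [← h3, red_ins _ _ (by
    rw [num_app, List.length_append, h1]
    rw [hl, List.length_cons] at h2
    omega), List.mem_append] at hx
  rcases hx with hx | hx
  · exact hP x hx
  · exact hQ x (by rw [hl]; exact List.mem_cons_of_mem _ hx)

/-- a bead in front -/
theorem one_front {A C : BinaryTree Unit} (hQ : One (A △ C)) (h : A ≠ .nil) : One (.nil △ (A △ C)) := by
  obtain ⟨l, hl⟩ := red_fst (C := C) h
  have h2 := red_len (A △ C)
  have h3 : ins (red (A △ C)).1 (1 :: l) = .nil △ (A △ C) := by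
    rw [show (1 : ℕ) = 0 + 1 from rfl, ins_succ, ← hl, ins_red]
  intro x hx
  rw [← h3, red_ins _ _ (by
    rw [hl, List.length_cons] at h2
    rw [List.length_cons]
    exact h2)] at hx
  rcases List.mem_cons.1 hx with rfl | hx
  · exact le_refl _
  · exact hQ x (by rw [hl]; exact List.mem_cons_of_mem _ hx)

/-- a bead at the end -/
theorem one_back {P A : BinaryTree Unit} (hQ : One (app P (A △ .nil))) (h : A ≠ .nil) :
    One (app (app P (A △ .nil)) (.nil △ .nil)) := by
  obtain ⟨t, ht⟩ : ∃ t, t = app P (A △ .nil) := ⟨_, rfl⟩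
  rw [← ht] at hQ ⊢
  have h2 := red_len t
  obtain ⟨l, y, hl⟩ : ∃ l y, (red t).2 = l ++ [y] := by
    cases h4 : (red t).2 with
    | nil => rw [h4] at h2; simp at h2
    | cons a b =>
      exact ⟨(a :: b).dropLast, (a :: b).getLast (by simp), (List.dropLast_append_getLast (by simp)).symm⟩
  have h5 : l.length = 2 * (red t).1.numNodes := by
    rw [hl, List.length_append, List.length_singleton] at h2
    omega
  have hy : y = 0 := by
    cases y with
    | zero => rfl
    | succ y =>
      exfalso
      have h3 := ins_red t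
      rw [hl, ins_snoc _ _ _ h5, ht] at h3
      exact h (app_snoc h3).2.symm
  subst hy
  have h3 : ins (red t).1 (l ++ [0 + 1]) = app t (.nil △ .nil) := by
    rw [ins_snoc _ _ _ h5, ← hl, ins_red]
  intro x hx
  rw [← h3, red_ins _ _ (by
    rw [List.length_append, List.length_singleton, h5])] at hx
  rcases List.mem_append.1 hx with hx | hx
  · exact hQ x (by rw [hl]; exact List.mem_append_left _ hx)
  · rw [List.mem_singleton] at hx
    omega

/-- the first component is no bead -/
def Fst (t : BinaryTree Unit) : Prop := ∃ A C, t = A △ C ∧ A ≠ .nil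

/-- the last component is no bead -/
def Lst (t : BinaryTree Unit) : Prop := ∃ P A, t = app P (A △ .nil) ∧ A ≠ .nil

theorem last_of {t : BinaryTree Unit} (h0 : t ≠ .nil) (h : lastB t = false) : Lst t := by
  induction t with
  | nil => exact absurd rfl h0
  | node _ A C _ ihC =>
    by_cases hC : C = .nil
    · subst hC
      refine ⟨.nil, A, rfl, ?_⟩
      rintro rfl
      have : lastB (BinaryTree.nil △ BinaryTree.nil) = true := rfl
      change lastB (BinaryTree.nil △ BinaryTree.nil) = false at h
      rw [this] at h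
      simp at h
    · have h1 : lastB (A △ C) = lastB C := lastB_cons hC
      change lastB (A △ C) = false at h
      rw [h1] at h
      obtain ⟨P, A', h2, h3⟩ := ihC hC h
      exact ⟨A △ P, A', by rw [h2]; rfl, h3⟩

theorem fst_app {P t : BinaryTree Unit} (h : P = .nil ∨ Fst P) (ht : Fst t) : Fst (app P t) := by
  rcases h with rfl | ⟨A, C, rfl, h1⟩
  · exact ht
  · exact ⟨A, app C t, rfl, h1⟩

theorem lst_app {P t : BinaryTree Unit} (ht : Lst t) : Lst (app P t) := by
  obtain ⟨Q, A, rfl, h1⟩ := ht
  exact ⟨app P Q, A, (app_assoc _ _ _).symm, h1⟩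

theorem one_back' {t : BinaryTree Unit} (h : One t) (h1 : Lst t) : One (app t (.nil △ .nil)) := by
  obtain ⟨P, A, rfl, h2⟩ := h1
  exact one_back h h2

theorem one_front' {t : BinaryTree Unit} (h : One t) (h1 : Fst t) : One (.nil △ t) := by
  obtain ⟨A, C, rfl, h2⟩ := h1
  exact one_front h h2

theorem one_app' {P t : BinaryTree Unit} (hP : One P) (h : One t) (h1 : Fst t) : One (app P t) := by
  obtain ⟨A, C, rfl, h2⟩ := h1
  exact one_app hP h h2

theorem ch_fst {q : ℕ} (hq : 1 ≤ q) (C : BinaryTree Unit) : Fst (app (ch (q + 1)) C) := by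
  obtain ⟨n, rfl⟩ : ∃ n, q = n + 1 := ⟨q - 1, by omega⟩
  exact ⟨ch (n + 1), C, rfl, by simp [ch]⟩

theorem cnt_ch {q : ℕ} (hq : 1 ≤ q) : (cont (ch (q + 1))).count 1 = 0 := by
  rw [ch_cont, Multiset.count_singleton]
  rw [if_neg (by omega)]

theorem one_W {q : ℕ} {R B S : BinaryTree Unit} (hq : 1 ≤ q) (hR : One R) (R1 : Fst R) (R2 : Lst R)
    (hB : 1 ∉ cont B) (hS : One S) (S1 : Fst S) (S2 : Lst S) {i : ℕ}
    (hi : i = 1 ∨ i = 2 ∨ i = 11 ∨ (i = 18 ∧ B = .nil)) : One (W R (ch (q + 1)) B S i) := by
  have c0 : (cont (BinaryTree.nil △ BinaryTree.nil)).count 1 = 1 := by decide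
  have hQ0 := cnt_ch hq
  have hQ : One (ch (q + 1)) := one_sum (by omega)
  have hQ1 : One (app (ch (q + 1)) (.nil △ .nil)) := one_sum (by
    rw [cont_app, Multiset.count_add, c0]; omega)
  have hB0 : (cont B).count 1 = 0 := Multiset.count_eq_zero.2 hB
  rcases hi with rfl | rfl | rfl | ⟨rfl, rfl⟩
  · have e : W R (ch (q + 1)) B S 1 = app (app R (.nil △ .nil)) (app (ch (q + 1)) (.nil △ .nil)) := by
      rw [app_assoc]; rfl
    rw [e]
    exact one_app' (one_back' hR R2) hQ1 (ch_fst hq _)
  · have e : W R (ch (q + 1)) B S 2 = app (app (.nil △ R) (.nil △ .nil)) (ch (q + 1)) := by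
      rw [app_assoc]; rfl
    rw [e]
    have h1 : Lst (.nil △ R) := lst_app (P := .nil △ .nil) R2
    have h2 := ch_fst hq .nil
    rw [app_nil] at h2
    exact one_app' (one_back' (one_front' hR R1) h1) hQ h2
  · have e : W R (ch (q + 1)) B S 11 = app (app B (.nil △ .nil))
        (app (app (ch (q + 1)) (.nil △ .nil)) S) := by
      rw [app_assoc, app_assoc]; rfl
    rw [e]
    refine one_app' (one_sum ?_) (one_app' hQ1 hS S1) ?_
    · rw [cont_app, Multiset.count_add, c0, hB0]
    · rw [app_assoc]; exact ch_fst hq _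
  · have e : W R (ch (q + 1)) .nil S 18 = app (app (ch (q + 1)) (.nil △ .nil)) (app S (.nil △ .nil)) := by
      rw [app_assoc]; rfl
    rw [e]
    refine one_app' hQ1 (one_back' hS S2) ?_
    obtain ⟨A, C, rfl, h1⟩ := S1
    exact ⟨A, app C (.nil △ .nil), rfl, h1⟩

theorem cnt_node {A : BinaryTree Unit} (h : A ≠ .nil) (B : BinaryTree Unit) :
    (cont (A △ B)).count 1 ≤ (cont A).count 1 + (cont B).count 1 := by
  rw [cont_node, Multiset.count_add]
  have h1 : cont A ≠ 0 := fun e => h (cont_eq_zero.1 e)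
  have := count_raise_one h1 (fun h4 => absurd (cont_pos _ _ h4) (by norm_num))
  omega

theorem cnt_nil (B : BinaryTree Unit) : (cont (.nil △ B)).count 1 = 1 + (cont B).count 1 := by
  rw [cont_node, Multiset.count_add, cont_nil, raise_zero]
  rfl

/-- the words with three beads -/
theorem ones_W {q : ℕ} {R B S : BinaryTree Unit} (hq : 1 ≤ q) (R0 : R ≠ .nil) (S0 : S ≠ .nil)
    (hR : (cont R).count 1 ≤ 1) (hB : (cont B).count 1 = 0) (hS : (cont S).count 1 ≤ 1) {i : ℕ} (hi : i < 20)
    (h3 : 3 ≤ (cont (W R (ch (q + 1)) B S i)).count 1) :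
    i = 1 ∨ i = 2 ∨ i = 11 ∨ (i = 18 ∧ B = .nil) := by
  obtain ⟨Q, hQ⟩ : ∃ Q, Q = ch (q + 1) := ⟨_, rfl⟩
  have hQ0 : (cont Q).count 1 = 0 := by rw [hQ]; exact cnt_ch hq
  have Q0 : Q ≠ .nil := by rw [hQ]; simp [ch]
  have n0 : (cont (BinaryTree.nil : BinaryTree Unit)).count 1 = 0 := rfl
  rw [← hQ] at h3
  have cQn := cnt_node Q0 .nil
  have cRn := cnt_node R0 .nil
  have cSn := cnt_node S0 .nil
  have cSB := cnt_node S0 B
  have hBn : B ≠ .nil → (cont (B △ .nil)).count 1 = 0 := fun h => by
    have := cnt_node h .nil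
    omega
  have hBQ : B ≠ .nil → (cont (B △ (Q △ .nil))).count 1 = 0 := fun h => by
    have := cnt_node h (Q △ .nil)
    omega
  have hBle : (cont (B △ .nil)).count 1 ≤ 1 := by
    by_cases h : B = .nil
    · rw [h, cnt_nil]; omega
    · rw [hBn h]; omega
  have hBQle : (cont (B △ (Q △ .nil))).count 1 ≤ 1 := by
    by_cases h : B = .nil
    · rw [h, cnt_nil]; omega
    · rw [hBQ h]; omega
  interval_cases i
  · have e : W R Q B S 0 = app R ((Q △ .nil) △ .nil) := rfl
    have h1 := cnt_node (A := Q △ .nil) (by simp) .nil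
    rw [e, cont_app, Multiset.count_add] at h3; omega
  · exact Or.inl rfl
  · exact Or.inr (Or.inl rfl)
  · have e : W R Q B S 3 = app R (.nil △ Q) △ .nil := rfl
    have h1 := cnt_node (A := app R (.nil △ Q)) (app_ne (by simp)) .nil
    have h2 := cnt_nil Q
    rw [cont_app, Multiset.count_add] at h1
    rw [e] at h3; omega
  · have e : W R Q B S 4 = app Q (.nil △ .nil) △ R := rfl
    have h1 := cnt_node (A := app Q (.nil △ .nil)) (app_ne (by simp)) R
    have h2 := cnt_nil .nil
    rw [cont_app, Multiset.count_add] at h1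
    rw [e] at h3; omega
  · have e : W R Q B S 5 = Q △ (.nil △ R) := rfl
    have h1 := cnt_node Q0 (.nil △ R)
    have h2 := cnt_nil R
    rw [e] at h3; omega
  · have e : W R Q B S 6 = R △ (Q △ .nil) := rfl
    have h1 := cnt_node R0 (Q △ .nil)
    rw [e] at h3; omega
  · have e : W R Q B S 7 = app Q ((.nil △ R) △ .nil) := rfl
    have h1 := cnt_node (A := .nil △ R) (by simp) .nil
    have h2 := cnt_nil R
    rw [e, cont_app, Multiset.count_add] at h3; omega
  · have e : W R Q B S 8 = app Q (.nil △ (R △ .nil)) := rfl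
    have h2 := cnt_nil (R △ .nil)
    rw [e, cont_app, Multiset.count_add] at h3; omega
  · have e : W R Q B S 9 = (R △ .nil) △ Q := rfl
    have h1 := cnt_node (A := R △ .nil) (by simp) Q
    rw [e] at h3; omega
  · have e : W R Q B S 10 = app B ((Q △ .nil) △ S) := rfl
    have h1 := cnt_node (A := Q △ .nil) (by simp) S
    rw [e, cont_app, Multiset.count_add] at h3; omega
  · exact Or.inr (Or.inr (Or.inl rfl))
  · have e : W R Q B S 12 = S △ app B (.nil △ Q) := rfl
    have h1 := cnt_node S0 (app B (.nil △ Q))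
    have h2 := cnt_nil Q
    rw [cont_app, Multiset.count_add] at h1
    rw [e] at h3; omega
  · have e : W R Q B S 13 = app S (app B (.nil △ Q) △ .nil) := rfl
    have h1 := cnt_node (A := app B (.nil △ Q)) (app_ne (by simp)) .nil
    have h2 := cnt_nil Q
    rw [cont_app, Multiset.count_add] at h1
    rw [e, cont_app, Multiset.count_add] at h3; omega
  · have e : W R Q B S 14 = app Q (.nil △ S) △ B := rfl
    have h1 := cnt_node (A := app Q (.nil △ S)) (app_ne (by simp)) B
    have h2 := cnt_nil S
    rw [cont_app, Multiset.count_add] at h1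
    rw [e] at h3; omega
  · have e : W R Q B S 15 = Q △ (S △ B) := rfl
    have h1 := cnt_node Q0 (S △ B)
    rw [e] at h3; omega
  · have e : W R Q B S 16 = app S (B △ (Q △ .nil)) := rfl
    rw [e, cont_app, Multiset.count_add] at h3; omega
  · have e : W R Q B S 17 = app Q ((S △ B) △ .nil) := rfl
    have h1 := cnt_node (A := S △ B) (by simp) .nil
    rw [e, cont_app, Multiset.count_add] at h3; omega
  · have e : W R Q B S 18 = app Q (.nil △ app S (B △ .nil)) := rfl
    have h2 := cnt_nil (app S (B △ .nil))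
    rw [cont_app, Multiset.count_add] at h2
    rw [e, cont_app, Multiset.count_add] at h3
    refine Or.inr (Or.inr (Or.inr ⟨rfl, ?_⟩))
    by_contra h
    have := hBn h
    omega
  · have e : W R Q B S 19 = app S (B △ .nil) △ Q := rfl
    have h1 := cnt_node (A := app S (B △ .nil)) (app_ne (by simp)) Q
    rw [cont_app, Multiset.count_add] at h1
    rw [e] at h3; omega

/-! ### The windows of a node with the single marker `()` -/

theorem hv_no1 {t : BinaryTree Unit} (h : hv t) : (cont t).count 1 = 0 := by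
  induction t with
  | nil => rfl
  | node _ A C ihA ihC =>
    have h1 := ihC h.2
    have h2 := cnt_node (gd_ne h.1) C
    have h3 : (cont A).count 1 = 0 := by
      rcases h.1 with e | ⟨_, h3⟩
      · rw [e]; decide
      · exact ihA h3
    change (cont (A △ C)).count 1 = 0
    omega

theorem hv_fst {A : BinaryTree Unit} (h : hv A) : A = .nil ∨ Fst A := by
  cases A with
  | nil => exact Or.inl rfl
  | node _ A X => exact Or.inr ⟨A, X, rfl, gd_ne h.1⟩

theorem hv_lst {A : BinaryTree Unit} (h : hv A) (h0 : A ≠ .nil) : Lst A := last_of h0 (hv_last h)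

theorem lst_node {A C : BinaryTree Unit} (hA : A ≠ .nil) (h : C = .nil ∨ Lst C) : Lst (A △ C) := by
  rcases h with rfl | h
  · exact ⟨.nil, A, rfl, hA⟩
  · exact lst_app (P := A △ .nil) h

/-- **`H = ()`, `c ≥ 4`: a word with three beads has at most one bead in every gap** -/
theorem NodeG.one3 {q : ℕ} {B1 s B : BinaryTree Unit} (h : NodeG k q B1 (.nil △ .nil) s B) (hq : 1 ≤ q)
    (w0 : X k) {i : ℕ} (hi : i < 20) (h3 : 3 ≤ (cont (gX q B1 (.nil △ .nil) s B w0 i).1).count 1) :
    One (gX q B1 (.nil △ .nil) s B w0 i).1 := by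
  have c0 : (cont (BinaryTree.nil △ BinaryTree.nil)).count 1 = 1 := by decide
  have hs3 := hv_ht h.hs h.s0
  obtain ⟨X, Y, g, g1, g2, g3⟩ := sq_hv h.hs h.s0
  have low := h.low
  have top := h.top
  rw [← ht_eq, ← ht_eq] at low top
  have e1 : Tsq.ht (app (.nil △ .nil) s) = Tsq.ht s := by
    rw [Tsq.ht_app, Tsq.ht_node, Tsq.ht]; omega
  have e2 : Tsq.sq (app (.nil △ .nil) s) = (app (.nil △ .nil) X △ Y, (Tsq.sq s).2) := by
    rw [Tsq.sq_pre (.nil △ .nil) s (by rw [Tsq.ht_node, Tsq.ht]; omega), g.e]
    rfl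
  have e3 : Tsq.sq (app (.nil △ .nil) s △ B) = ((app (.nil △ .nil) X △ Y) △ (Tsq.sq s).2, B) := by
    rw [Tsq.sq_ge (app_ne h.s0) (by omega), e2]
  have e4 : Tsq.sq (gR B1 (.nil △ .nil) s B) =
      ((app B1 (app (.nil △ .nil) X △ Y)) △ (Tsq.sq s).2, B) := by
    unfold gR
    rw [Tsq.sq_pre B1 _ (by rw [Tsq.ht_node]; omega), e3]
    rfl
  obtain ⟨R, hR⟩ : ∃ R, R = gR B1 (.nil △ .nil) s B := ⟨_, rfl⟩
  obtain ⟨S, hS⟩ : ∃ S, S = (Tsq.sq (gR B1 (.nil △ .nil) s B)).1 := ⟨_, rfl⟩
  have hS' : S = (app B1 (app (.nil △ .nil) X △ Y)) △ (Tsq.sq s).2 := by rw [hS, e4]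
  have hR' : R = app B1 (app (.nil △ .nil) s △ B) := hR
  have hdat := h.dat
  rw [← hS, ← hR] at hdat
  rw [h.word w0 hi, ← hS, ← hR] at h3 ⊢
  have k1 := hv_no1 h.h1
  have k2 := hv_no1 h.hs
  have k3 := hv_no1 h.hB
  have kR : (cont R).count 1 ≤ 1 := by
    rw [hR', cont_app, Multiset.count_add]
    have e5 := cnt_node (A := app (.nil △ .nil) s) (app_ne h.s0) B
    have e6 : (cont (app (.nil △ .nil) s)).count 1 = 1 := by
      rw [cont_app, Multiset.count_add, c0, k2]
    omega
  have kS : (cont S).count 1 ≤ 1 := by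
    have e5 := congrArg (Multiset.count 1) hdat.cont
    rw [Multiset.count_add] at e5
    omega
  have R0 : R ≠ .nil := hdat.ne
  have S0 : S ≠ .nil := by rw [hS']; simp
  have R1 : Fst R := by rw [hR']; exact fst_app (hv_fst h.h1) ⟨_, _, rfl, app_ne h.s0⟩
  have R2 : Lst R := by
    rw [hR']
    refine lst_app (lst_node (app_ne h.s0) ?_)
    by_cases hB : B = .nil
    · exact Or.inl hB
    · exact Or.inr (hv_lst h.hB hB)
  have S1 : Fst S := ⟨_, _, hS', app_ne (by simp)⟩
  have S2 : Lst S := by
    rw [hS']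
    refine lst_node (app_ne (by simp)) ?_
    by_cases hB : (Tsq.sq s).2 = .nil
    · exact Or.inl hB
    · exact Or.inr (last_of hB g.l2)
  exact one_W hq (one_sum kR) R1 R2 (Multiset.count_eq_zero.1 k3) (one_sum kS) S1 S2
    (ones_W hq R0 S0 kR k3 kS hi h3)

/-- **no word of a window with the single marker `()`, `c ≥ 4`, lies on a T-cycle of `P0`** -/
theorem NodeG.late_free {q : ℕ} {B1 s B R' B' S' : BinaryTree Unit} {F' : Set (Cyc k)} {g' : DG k}
    (h : NodeG k q B1 (.nil △ .nil) s B) (hq : 1 ≤ q) (w0 : X k) {i : ℕ} (hi : i < 20)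
    (h2 : HM.NodeM k 0 R' B' S') (w0' : X k) {j : ℕ} (hj : j = 3 ∨ j = 8) {w : X k}
    (hw : w = TT (wX R' B' S' 0 w0' j) ∨ w = Tsq.mirX (TT (wX R' B' S' 0 w0' j)))
    (h' : TyE F' g') (hg : w ∈ g'.B) : cyc (gX q B1 (.nil △ .nil) s B w0 i) ∉ F' := by
  intro hc
  have h3 := (h2.late3 w0' hj hw h' hg _ hc).2
  rw [contc_cyc] at h3
  exact (h.one3 hq w0 hi h3).not_dbl (h2.late_dbl w0' hj hw h' hg _ hc _ rfl)

end H1

end Pool.OddHC
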