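import Pool.Agent.Work.MP_8f87b2_h58.InA0A0
import Pool.Agent.Work.MP_8f87b2_end.End

/-!
# Late E pairs

`NearT t` : all beads of the word `t` lie in two neighbouring gaps of the ring of gaps; this only depends on the T-cycle.
The T-cycles of an E pair whose host is an inner word (with a part 1) of a bare window are NOT near. The words with three
beads of the bare windows with `c = 3` are near.
-/

set_option autoImplicit false

namespace Pool.OddHC

open Finset Equiv BinaryTree Pool.Agent.Work.MP_8f87b2_co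

namespace H1

variable {k j : ℕ}

/-- two neighbouring entries of the cyclic list carry everything -/
def NearL (e : List ℕ) : Prop := ∃ r a b l, e.rotate r = a :: b :: l ∧ l.sum = 0

/-- all beads in two neighbouring gaps -/
def NearT (t : BinaryTree Unit) : Prop := NearL (red t).2

theorem near_TT (w : X k) (h : NearT (TT w).1) : NearT w.1 := by
  obtain ⟨u, hu⟩ : ∃ u, u = (red w.1).1 := ⟨_, rfl⟩
  obtain ⟨e, he⟩ : ∃ e, e = (red w.1).2 := ⟨_, rfl⟩
  have h1 : e.length = 2 * u.numNodes + 1 := by rw [he, hu]; exact red_len w.1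
  have h2 : w.1 = ins u e := by rw [he, hu]; exact (ins_red w.1).symm
  obtain ⟨U, hU⟩ : ∃ U : X u.numNodes, U.1 = u := ⟨⟨u, mem_treesOfNumNodesEq.2 rfl⟩, rfl⟩
  have h3 := (TF_ins' U e h1 w (by rw [hU]; exact h2)).1
  have h4 : (red (TT w).1).2 = e.rotate (Vo U).val := by
    rw [TT_apply, h3, red_ins _ _ (by rw [List.length_rotate, h1, X_num])]
  obtain ⟨r, a, b, l, h5, h6⟩ := h
  rw [h4, List.rotate_rotate] at h5
  refine ⟨(Vo U).val + r, a, b, l, ?_, h6⟩
  rw [← he]
  exact h5

theorem near_pow (w : X k) (i : ℕ) (h : NearT ((TT ^ i) w).1) : NearT w.1 := by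
  induction i with
  | zero => exact h
  | succ i ih =>
    apply ih
    apply near_TT
    rw [pow_succ', Perm.mul_apply] at h
    exact h

theorem near_cyc {w w' : X k} (h : cyc w = cyc w') (hw : NearT w.1) : NearT w'.1 := by
  obtain ⟨i, hi⟩ := sameCycle_nat (cyc_eq.1 h.symm)
  apply near_pow w' i
  rw [hi]
  exact hw

/-- no word of the T-cycle is near -/
def FarC (c : Cyc k) : Prop := ∀ w : X k, cyc w = c → ¬ NearT w.1

theorem farC_of {w : X k} (h : ¬ NearT w.1) : FarC (cyc w) := fun _ hv hn => h (near_cyc hv hn)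

theorem near_lf {n : ℕ} [NeZero n] (hn : 2 ≤ n) (a : ZMod n → ℕ) (h : NearL (lf a)) :
    ∃ x, a x + a (x + 1) = ∑ z, a z := by
  obtain ⟨r, p, q, l, h1, h2⟩ := h
  rw [lf_rotate] at h1
  obtain ⟨b, hb⟩ : ∃ b : ZMod n → ℕ, b = fun x => a (x + (r : ZMod n)) := ⟨_, rfl⟩
  rw [← hb] at h1
  have hl := lf_length b
  have e0 := lf_getElem b 0 (by rw [hl]; omega)
  have e1 := lf_getElem b 1 (by rw [hl]; omega)
  simp only [h1, List.getElem_cons_zero, List.getElem_cons_succ] at e0 e1
  have e2 := lf_sum b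
  rw [h1, List.sum_cons, List.sum_cons, h2] at e2
  have e3 : ∑ x, b x = ∑ x, a x := by rw [hb]; exact sum_shift a r
  refine ⟨(r : ZMod n), ?_⟩
  rw [← e3, ← e2, e0, e1, hb]
  simp only [Nat.cast_zero, Nat.cast_one, zero_add, add_zero]
  rw [add_comm (r : ZMod n) 1]

/-- a pair `()X`, `X()` with all beads of `X` away from the ends -/
theorem far_ins (hj : 1 ≤ j) (r : X j) (f : ZMod (2 * j + 1) → ℕ) (h0 : f 0 = 0) (h1 : f 1 = 0)
    (hm1 : f (-1) = 0) (hm2 : f (-2) = 0) (hs : 1 ≤ ∑ z, f z) :
    ¬ NearT (.nil △ ins r.1 (lf f)) ∧ ¬ NearT (app (ins r.1 (lf f)) (.nil △ .nil)) := by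
  have hn : (1 : ZMod (2 * j + 1)) ≠ 0 := by
    intro e
    have := congrArg ZMod.val e
    rw [ZMod.val_zero, ZMod.val_one_eq_one_mod, Nat.mod_eq_of_lt (by omega)] at this
    omega
  have key : ∀ y : ZMod (2 * j + 1), (y = 0 ∨ y = -1) → f (y - 1) = 0 → f y = 0 → f (y + 1) = 0 →
      ¬ NearL (lf (fun x => f x + if x = y then 1 else 0)) := by
    intro y hy a1 a2 a3 hN
    obtain ⟨x, hx⟩ := near_lf (by omega) _ hN
    rw [Finset.sum_add_distrib, Finset.sum_ite_eq' Finset.univ y (fun _ => 1), if_pos (mem_univ _)] at hx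
    by_cases c1 : x = y
    · subst c1
      have c2 : ¬ (x + 1 = x) := by
        intro e
        exact hn (by linear_combination e)
      rw [if_pos rfl, if_neg c2, a2, a3] at hx
      omega
    · by_cases c2 : x + 1 = y
      · have c3 : x = y - 1 := by linear_combination c2
        rw [if_neg c1, if_pos c2, c2, c3, a1, a2] at hx
        omega
      · rw [if_neg c1, if_neg c2] at hx
        have c4 : x ≠ x + 1 := by
          intro e
          exact hn (by linear_combination -e)
        have c5 : f x + f (x + 1) ≤ ∑ z, f z := by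
          rw [← Finset.sum_pair c4]
          exact Finset.sum_le_sum_of_subset (Finset.subset_univ _)
        omega
  constructor
  · rw [← ins_front]
    unfold NearT
    rw [red_ins _ _ (by rw [lf_length, X_num])]
    exact key 0 (Or.inl rfl) (by rw [zero_sub]; exact hm1) h0 (by rw [zero_add]; exact h1)
  · rw [← ins_back]
    unfold NearT
    rw [red_ins _ _ (by rw [lf_length, X_num])]
    refine key (-1) (Or.inr rfl) ?_ hm1 ?_
    · rw [show (-1 : ZMod (2 * j + 1)) - 1 = -2 by ring]; exact hm2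
    · rw [neg_add_cancel]; exact h0

/-! ### The ends -/

/-- a bead in the second gap -/
theorem ins_second {t : BinaryTree Unit} (h : t ≠ .nil) (y : ℕ) (l : List ℕ) :
    ∃ Y Z, ins t (0 :: (y + 1) :: l) = (.nil △ Y) △ Z ∧ Y ≠ .nil := by
  cases t with
  | nil => exact absurd rfl h
  | node _ A B =>
    have e : ins (A △ B) (0 :: (y + 1) :: l) =
        ins A (bump A ((y + 1) :: l.take (2 * A.numNodes))) △ ins B ((0 :: (y + 1) :: l).drop (2 * A.numNodes + 2)) := by
      rw [ins, List.headD_cons, List.tail_cons, List.take_succ_cons, lv]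
    cases A with
    | nil =>
      refine ⟨lv (y + 1) .nil, _, e, ?_⟩
      simp [lv]
    | node _ A1 A2 =>
      have e2 : ins (A1 △ A2) (bump (A1 △ A2) ((y + 1) :: l.take (2 * (A1 △ A2).numNodes))) =
          .nil △ ins (A1 △ A2) (y :: l.take (2 * (A1 △ A2).numNodes)) := by
        rw [bump, ins_succ]
      refine ⟨ins (A1 △ A2) (y :: l.take (2 * (A1 △ A2).numNodes)),
        ins B ((0 :: (y + 1) :: l).drop (2 * (A1 △ A2).numNodes + 2)), ?_, ?_⟩
      · rw [← e2]; exact e
      · have := ins_ne_nil (A1 △ A2) (y :: l.take (2 * (A1 △ A2).numNodes))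
        exact this

theorem lv_snoc (x : ℕ) : lv (x + 1) .nil = app (lv x .nil) (.nil △ .nil) := by
  induction x with
  | zero => rfl
  | succ x ih =>
    change BinaryTree.nil △ lv (x + 1) .nil = app (.nil △ lv x .nil) (.nil △ .nil)
    rw [ih]
    rfl

theorem app_lv (x : ℕ) (P Q : BinaryTree Unit) : app (lv x P) Q = lv x (app P Q) := by
  induction x with
  | zero => rfl
  | succ x ih =>
    change BinaryTree.nil △ app (lv x P) Q = .nil △ lv x (app P Q)
    rw [ih]

theorem ins_snoc : ∀ (t : BinaryTree Unit) (e : List ℕ) (x : ℕ), e.length = 2 * t.numNodes →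
    ins t (e ++ [x + 1]) = app (ins t (e ++ [x])) (.nil △ .nil) := by
  intro t
  induction t with
  | nil =>
    intro e x he
    obtain rfl : e = [] := List.length_eq_zero_iff.1 (by simpa using he)
    exact lv_snoc x
  | node _ A B _ ihB =>
    intro e x he
    obtain ⟨n, a, b, h1, h2, h3⟩ : ∃ (n : ℕ) (a b : List ℕ), e = n :: (a ++ b) ∧
        a.length = 2 * A.numNodes + 1 ∧ b.length = 2 * B.numNodes := by
      change e.length = 2 * (A.numNodes + B.numNodes + 1) at he
      cases e with
      | nil => simp at he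
      | cons n e =>
        rw [List.length_cons] at he
        refine ⟨n, e.take (2 * A.numNodes + 1), e.drop (2 * A.numNodes + 1), ?_, ?_, ?_⟩
        · rw [List.take_append_drop]
        · rw [List.length_take]; omega
        · rw [List.length_drop]; omega
    have key : ∀ y : ℕ, ins (A △ B) (e ++ [y]) = lv n (ins A (bump A a) △ ins B (b ++ [y])) := by
      intro y
      have e1 : e ++ [y] = n :: (a ++ (b ++ [y])) := by rw [h1]; simp
      rw [e1, ins, List.headD_cons, List.tail_cons, List.take_left' h2, List.drop_succ_cons,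
        List.drop_left' h2]
    rw [key, key, ihB b x h3, app_lv]
    rfl

/-- a bead in the last gap but one -/
theorem ins_last2 : ∀ (t : BinaryTree Unit) (e : List ℕ) (y : ℕ), t ≠ .nil →
    e.length + 1 = 2 * t.numNodes → ∃ P A, ins t (e ++ [y + 1, 0]) = app P (app A (.nil △ .nil) △ .nil) ∧
      A ≠ .nil := by
  intro t
  induction t with
  | nil => intro e y h; exact absurd rfl h
  | node _ A B _ ihB =>
    intro e y _ he
    change e.length + 1 = 2 * (A.numNodes + B.numNodes + 1) at he
    by_cases hB : B = .nil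
    · subst hB
      have he' : e.length = 2 * A.numNodes + 1 := by
        change e.length + 1 = 2 * (A.numNodes + 0 + 1) at he
        omega
      obtain ⟨n, a, rfl⟩ : ∃ n a, e = n :: a := by
        cases e with
        | nil => simp at he'
        | cons n a => exact ⟨n, a, rfl⟩
      have ha : a.length = 2 * A.numNodes := by
        rw [List.length_cons] at he'
        omega
      have ha2 : (a ++ [y + 1]).length = 2 * A.numNodes + 1 := by
        rw [List.length_append, List.length_singleton, ha]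
      have e1 : ins (A △ .nil) (n :: a ++ [y + 1, 0]) = lv n (ins A (bump A (a ++ [y + 1])) △ .nil) := by
        have e2 : n :: a ++ [y + 1, 0] = n :: ((a ++ [y + 1]) ++ [0]) := by simp
        rw [e2, ins, List.headD_cons, List.tail_cons, List.take_left' ha2, List.drop_succ_cons,
          List.drop_left' ha2]
        rfl
      have e3 : ∃ A', ins A (bump A (a ++ [y + 1])) = app A' (.nil △ .nil) ∧ A' ≠ .nil := by
        cases A with
        | nil =>
          obtain rfl : a = [] := List.length_eq_zero_iff.1 (by simpa using ha)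
          refine ⟨lv (y + 1) .nil, lv_snoc (y + 1), ?_⟩
          simp [lv]
        | node _ A1 A2 =>
          refine ⟨_, ins_snoc (A1 △ A2) a y ha, ?_⟩
          exact ins_ne_nil (A1 △ A2) (a ++ [y])
      obtain ⟨A', e4, e5⟩ := e3
      refine ⟨lv n .nil, A', ?_, e5⟩
      rw [e1, e4, app_lv]
      rfl
    · obtain ⟨n, a, b, h1, h2, h3⟩ : ∃ (n : ℕ) (a b : List ℕ), e = n :: (a ++ b) ∧
          a.length = 2 * A.numNodes + 1 ∧ b.length + 1 = 2 * B.numNodes := by
        have hB1 : 1 ≤ B.numNodes := by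
          cases B with
          | nil => exact absurd rfl hB
          | node _ _ _ => exact Nat.le_add_left 1 _
        cases e with
        | nil => simp at he; omega
        | cons n e =>
          rw [List.length_cons] at he
          refine ⟨n, e.take (2 * A.numNodes + 1), e.drop (2 * A.numNodes + 1), ?_, ?_, ?_⟩
          · rw [List.take_append_drop]
          · rw [List.length_take]; omega
          · rw [List.length_drop]; omega
      obtain ⟨P, A', e4, e5⟩ := ihB b y hB h3
      refine ⟨lv n (ins A (bump A a) △ P), A', ?_, e5⟩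
      have e1 : e ++ [y + 1, 0] = n :: (a ++ (b ++ [y + 1, 0])) := by rw [h1]; simp
      rw [e1, ins, List.headD_cons, List.tail_cons, List.take_left' h2, List.drop_succ_cons,
        List.drop_left' h2, e4, app_lv]
      rfl

variable {g0 : ℕ}

theorem InnP.start5 {t : BinaryTree Unit} (h : InnP g0 t) {v : List Bool}
    (e : wd t = true :: true :: true :: false :: true :: v) : False := by
  have h1 := h.start (n := 3) (v := true :: v) (by rw [e]; rfl)
  have h2 := h.g3
  obtain rfl : g0 = 3 := by omega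
  rcases h.sta with ⟨r, hr⟩ | ⟨r, hr⟩
  · rw [e] at hr
    simp [List.replicate_succ] at hr
  · rw [e] at hr
    simp [List.replicate_succ] at hr

theorem InnP.stop5 {t : BinaryTree Unit} (h : InnP g0 t) {v : List Bool}
    (e : wd t = v ++ [false, true, false, false, false]) : False := by
  have h1 := h.stop (n := 3) (v := v ++ [false]) (by rw [e]; simp [List.replicate_succ])
  have h2 := h.g3
  obtain rfl : g0 = 3 := by omega
  rcases h.en with ⟨r, hr⟩ | ⟨r, hr⟩
  · rw [e] at hr
    have h3 := congrArg List.reverse hr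
    simp [List.replicate_succ] at h3
  · rw [e] at hr
    have h3 := congrArg List.reverse hr
    simp [List.replicate_succ] at h3

/-- the gaps at both ends of `X` are empty if `(X)` starts and ends like an inner word -/
theorem InnP.gaps {r : X j} (hj : 1 ≤ j) {f : ZMod (2 * j + 1) → ℕ} {t : BinaryTree Unit}
    (h : InnP g0 t) (e : t = ins r.1 (lf f) △ .nil) : f 0 = 0 ∧ f 1 = 0 ∧ f (-1) = 0 ∧ f (-2) = 0 := by
  have hr : r.1 ≠ .nil := by
    intro e1
    have h1 := X_num r
    rw [e1] at h1
    change 0 = j at h1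
    omega
  have hg := h.g3
  -- the first gap
  have h0 : f 0 = 0 := by
    by_contra hc
    obtain ⟨l, h1, _⟩ := lf_cons f
    obtain ⟨n, hn⟩ : ∃ n, f 0 = n + 1 := ⟨f 0 - 1, by omega⟩
    rw [h1, hn, ins_succ] at e
    have h2 := h.start (n := 2) (v := wd (ins r.1 (n :: l)) ++ [false]) (by
      rw [e, wd_node, wd_node]
      simp [wd, List.replicate_succ])
    omega
  -- the last gap
  have hm1 : f (-1) = 0 := by
    by_contra hc
    obtain ⟨l, h1, h2, _⟩ := lf_snoc f
    obtain ⟨n, hn⟩ : ∃ n, f (-1) = n + 1 := ⟨f (-1) - 1, by omega⟩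
    rw [h2, hn, ins_snoc _ _ _ (by rw [X_num]; omega)] at e
    have h3 := h.stop (n := 2) (v := true :: wd (ins r.1 (l ++ [n]))) (by
      rw [e, wd_node, wd_app, wd_node]
      simp [wd, List.replicate_succ])
    omega
  -- the list
  have hlen := lf_length f
  obtain ⟨x0, x1, l, hl⟩ : ∃ x0 x1 l, lf f = x0 :: x1 :: l := by
    cases h1 : lf f with
    | nil => rw [h1] at hlen; simp at hlen
    | cons a l1 =>
      cases l1 with
      | nil => rw [h1] at hlen; simp at hlen; omega
      | cons b l2 => exact ⟨a, b, l2, rfl⟩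
  have g0' := lf_getElem f 0 (by rw [hlen]; omega)
  have g1' := lf_getElem f 1 (by rw [hlen]; omega)
  simp only [hl, List.getElem_cons_zero, List.getElem_cons_succ, Nat.cast_zero, Nat.cast_one] at g0' g1'
  have h1 : f 1 = 0 := by
    by_contra hc
    obtain ⟨n, hn⟩ : ∃ n, f 1 = n + 1 := ⟨f 1 - 1, by omega⟩
    rw [hl, g0', g1', h0, hn] at e
    obtain ⟨Y, Z, h2, h3⟩ := ins_second hr n l
    rw [h2] at e
    obtain ⟨v, hv⟩ : ∃ v, wd Y = true :: v := by
      cases Y with
      | nil => exact absurd rfl h3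
      | node _ A B => exact ⟨_, rfl⟩
    exact h.start5 (v := v ++ false :: (wd Z ++ [false])) (by
      rw [e, wd_node, wd_node, wd_node, hv]
      simp [wd])
  refine ⟨h0, h1, hm1, ?_⟩
  by_contra hc
  obtain ⟨l2, hl1, hl2, _⟩ := lf_snoc f
  obtain ⟨l3, y, rfl⟩ : ∃ l3 y, l2 = l3 ++ [y] := by
    refine ⟨l2.dropLast, l2.getLast (by intro h4; rw [h4] at hl1; simp at hl1; omega), ?_⟩
    exact (List.dropLast_append_getLast _).symm
  have hl4 : l3.length + 1 = 2 * j := by
    rw [List.length_append, List.length_singleton] at hl1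
    omega
  have hy : y = f (-2) := by
    have h5 := lf_getElem f l3.length (by rw [hlen]; omega)
    simp only [hl2] at h5
    rw [List.getElem_append_left (by simp), List.getElem_append_right (le_refl _)] at h5
    simp only [Nat.sub_self, List.getElem_cons_zero] at h5
    rw [h5]
    congr 1
    have h6 : ((l3.length + 2 : ℕ) : ZMod (2 * j + 1)) = 0 := by
      rw [show l3.length + 2 = 2 * j + 1 by omega]
      exact ZMod.natCast_self _
    push_cast at h6
    linear_combination h6
  obtain ⟨n, hn⟩ : ∃ n, y = n + 1 := ⟨y - 1, by omega⟩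
  rw [hl2, hm1, hn, List.append_assoc] at e
  obtain ⟨P, A, h6, h7⟩ := ins_last2 r.1 l3 n hr (by rw [X_num]; exact hl4)
  have h8 : ([n + 1] ++ [0] : List ℕ) = [n + 1, 0] := rfl
  rw [h8, h6] at e
  obtain ⟨v, hv⟩ := wd_last h7
  exact h.stop5 (v := true :: (wd P ++ true :: v)) (by
    rw [e, wd_node, wd_app, wd_node, wd_app, wd_node, hv]
    simp [wd])

theorem count_raise_one {M : Multiset ℕ} (h : M ≠ 0) (h0 : 0 ∉ M) : (raise M).count 1 ≤ M.count 1 := by
  unfold raise
  have h1 : 1 ≤ M.sup := by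
    obtain ⟨x, hx⟩ := Multiset.exists_mem_of_ne_zero h
    have h2 : x ≤ M.sup := Multiset.le_sup hx
    have h3 : x ≠ 0 := by rintro rfl; exact h0 hx
    omega
  rw [Multiset.count_cons_of_ne (by omega)]
  exact Multiset.count_le_of_le _ (Multiset.erase_le _ _)

/-- **the T-cycles of a hit E pair are far** -/
theorem InnP.far {w : X k} {F' : Set (Cyc k)} {g' : DG k} (h : InnP g0 w.1) (h1 : 1 ∈ cont w.1)
    (h' : TyE F' g') (hw : w ∈ g'.B) : ∀ c ∈ F', FarC c := by
  obtain ⟨j, r, f, hj, hr, ht⟩ := h'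
  rcases ht.words _ hw with e | ⟨_, e | e⟩
  · have e1 : w.1 = ins r.1 (lf f) △ .nil := e
    obtain ⟨a0, a1, a2, a3⟩ := h.gaps hj e1
    have hlen : (lf f).length = 2 * r.1.numNodes + 1 := by rw [lf_length, X_num]
    have hs : 1 ≤ ∑ z, f z := by
      have h2 : (cont (ins r.1 (lf f))).count 1 = ∑ z, f z := by
        rw [count_one_ins _ _ hlen, lf_sum]
      rw [← h2]
      rw [e1, cont_node, cont_nil, add_zero] at h1
      have h3 : cont (ins r.1 (lf f)) ≠ 0 := by
        intro e2
        rw [cont_eq_zero] at e2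
        have h5 := (ins_num r.1 (lf f) hlen).1
        rw [e2, X_num] at h5
        change 0 = _ at h5
        omega
      exact le_trans (Multiset.count_pos.2 h1) (count_raise_one h3 (fun h4 => absurd (cont_pos _ _ h4) (by norm_num)))
    obtain ⟨b1, b2⟩ := far_ins hj r f a0 a1 a2 a3 hs
    obtain ⟨a', b', c', ha, hb', hc', k1, k2, k3, rfl, rfl⟩ := ht
    rintro c (rfl | rfl)
    · apply farC_of
      rw [hb']
      exact b2
    · apply farC_of
      rw [hc']
      exact b1
  · exact absurd e (h.not_last (Y := ins r.1 (lf f)))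
  · exact absurd e (h.not_first (Y := ins r.1 (lf f)))

/-- **LATE**: the E pair hit by an inner word (with a part 1) of a bare window, both orientations, any `q` -/
theorem _root_.Pool.OddHC.HM.NodeM.late {q : ℕ} {R B S : BinaryTree Unit} {F' : Set (Cyc k)} {g' : DG k}
    (h : HM.NodeM k q R B S) (w0 : X k) {i : ℕ} (hi : i ∈ [0, 1, 3, 6, 8, 9]) {w : X k}
    (hw : w = TT (wX R B S q w0 i) ∨ w = Tsq.mirX (TT (wX R B S q w0 i))) (h1 : 1 ∈ cont w.1)
    (h' : TyE F' g') (hg : w ∈ g'.B) : ∀ c ∈ F', FarC c := by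
  have hin : InnP (q + 3) w.1 := by
    rcases hw with rfl | rfl
    · exact (h.inn w0 hi).1
    · exact (h.inn w0 hi).2
  exact hin.far h1 h' hg

/-! ### The words of the bare windows with three beads -/

theorem inf_of {t : BinaryTree Unit} (h : 1 ∉ cont t) : ∃ r, t = inf r := by
  refine ⟨(red t).1, ?_⟩
  have h1 : (red t).2.sum = 0 := by
    rw [← count_one_ins _ _ (red_len t), ins_red]
    exact Multiset.count_eq_zero.2 h
  have h2 : (red t).2 = List.replicate (2 * (red t).1.numNodes + 1) 0 := by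
    rw [List.eq_replicate_iff]
    refine ⟨red_len t, fun x hx => ?_⟩
    have := List.single_le_sum (fun y _ => Nat.zero_le y) x hx
    omega
  unfold inf
  rw [← h2, ins_red]

theorem inf_ne {t r : BinaryTree Unit} (h : t = inf r) (h0 : t ≠ .nil) : r ≠ .nil := by
  rintro rfl
  exact h0 h

/-- beads in the last gap -/
theorem ins_lst (A : BinaryTree Unit) (n : ℕ) :
    ins A (List.replicate (2 * A.numNodes) 0 ++ [n]) = app (inf A) (lv n .nil) := by
  induction n with
  | zero =>
    have h1 : List.replicate (2 * A.numNodes) 0 ++ [0] = List.replicate (2 * A.numNodes + 1) 0 :=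
      List.replicate_succ'.symm
    rw [h1, lv, app_nil]
    rfl
  | succ n ih =>
    rw [ins_snoc _ _ _ List.length_replicate, ih, app_assoc, lv_snoc]

theorem NearL.of {e : List ℕ} {r a b : ℕ} {l : List ℕ} (h : e.rotate r = a :: b :: l) (hl : l.sum = 0) :
    NearL e := ⟨r, a, b, l, h, hl⟩

theorem rep_sum (n : ℕ) : (List.replicate n 0).sum = 0 := by simp

/-- beads in the two end gaps -/
theorem near_one {A : BinaryTree Unit} (hA : A ≠ .nil) (x y : ℕ) :
    NearT (lv x (app (inf A) (lv y .nil))) := by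
  obtain ⟨n, hn⟩ : ∃ n, 2 * A.numNodes = n + 2 := by
    cases A with
    | nil => exact absurd rfl hA
    | node _ P Q =>
      refine ⟨2 * (P.numNodes + Q.numNodes), ?_⟩
      change 2 * (P.numNodes + Q.numNodes + 1) = _
      ring
  have e1 : ins A (x :: (List.replicate (n + 1) 0 ++ [y])) = lv x (app (inf A) (lv y .nil)) := by
    rw [ins_lv, ← ins_lst, hn, List.replicate_succ (n := n + 1)]
    rfl
  unfold NearT
  rw [← e1, red_ins _ _ (by simp [hn])]
  refine NearL.of (r := n + 2) (a := y) (b := x) (l := List.replicate (n + 1) 0) ?_ (rep_sum _)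
  have e2 : x :: (List.replicate (n + 1) 0 ++ [y]) = (x :: List.replicate (n + 1) 0) ++ [y] := rfl
  have e3 : n + 2 = (x :: List.replicate (n + 1) 0).length := by simp
  rw [e2, e3, List.rotate_append_length_eq]
  rfl

/-- beads between two blocks -/
theorem near_mid {A : BinaryTree Unit} (hA : A ≠ .nil) (B : BinaryTree Unit) (n : ℕ) :
    NearT (app (inf A) (lv n (inf B))) := by
  obtain ⟨m, hm⟩ : ∃ m, 2 * A.numNodes = m + 2 := by
    cases A with
    | nil => exact absurd rfl hA
    | node _ P Q =>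
      refine ⟨2 * (P.numNodes + Q.numNodes), ?_⟩
      change 2 * (P.numNodes + Q.numNodes + 1) = _
      ring
  have e1 : ins (app A B) ((List.replicate (2 * A.numNodes) 0 ++ [n]) ++ List.replicate (2 * B.numNodes) 0) =
      app (inf A) (lv n (inf B)) := by
    rw [ins_app _ _ _ _ (by simp), ins_lst, app_assoc, app_lv]
    rfl
  unfold NearT
  rw [← e1, red_ins _ _ (by rw [num_app]; simp; ring)]
  refine NearL.of (r := 2 * A.numNodes) (a := n) (b := 0)
    (l := List.replicate (2 * B.numNodes + (m + 1)) 0) ?_ (rep_sum _)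
  have e4 : (List.replicate (2 * A.numNodes) 0 ++ ([n] ++ List.replicate (2 * B.numNodes) 0)).rotate
      (2 * A.numNodes) = ([n] ++ List.replicate (2 * B.numNodes) 0) ++ List.replicate (2 * A.numNodes) 0 := by
    have e5 := List.rotate_append_length_eq (List.replicate (2 * A.numNodes) 0)
      ([n] ++ List.replicate (2 * B.numNodes) 0)
    rwa [List.length_replicate] at e5
  rw [List.append_assoc, e4, List.append_assoc, List.replicate_append_replicate, hm,
    show 2 * B.numNodes + (m + 2) = (2 * B.numNodes + (m + 1)) + 1 by ring, List.replicate_succ]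
  rfl

theorem mirne {t : BinaryTree Unit} (h : t ≠ .nil) : Tsq.mir t ≠ .nil := by
  intro e
  apply h
  have h1 := congrArg Tsq.mir e
  rw [Tsq.mir_mir] at h1
  exact h1

/-- the words 1, 2, 11 and, for `B = nil`, 18 -/
theorem near_W {R B S : BinaryTree Unit} (hR : 1 ∉ cont R) (hB : 1 ∉ cont B) (hS : 1 ∉ cont S)
    (R0 : R ≠ .nil) (S0 : S ≠ .nil) {i : ℕ} (hi : i = 1 ∨ i = 2 ∨ i = 11 ∨ (i = 18 ∧ B = .nil)) :
    NearT (W R (ch 1) B S i) := by
  obtain ⟨r, hr⟩ := inf_of hR
  obtain ⟨b, hb⟩ := inf_of hB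
  obtain ⟨s, hs⟩ := inf_of hS
  have r0 := inf_ne hr R0
  have s0 := inf_ne hs S0
  rcases hi with rfl | rfl | rfl | ⟨rfl, rfl⟩
  · have e : W R (ch 1) B S 1 = lv 0 (app (inf r) (lv 3 .nil)) := by rw [← hr]; rfl
    rw [e]
    exact near_one r0 0 3
  · have e : W R (ch 1) B S 2 = lv 1 (app (inf r) (lv 2 .nil)) := by rw [← hr]; rfl
    rw [e]
    exact near_one r0 1 2
  · by_cases h0 : B = .nil
    · have e : W R (ch 1) B S 11 = lv 3 (app (inf s) (lv 0 .nil)) := by
        rw [h0, ← hs, lv, app_nil]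
        rfl
      rw [e]
      exact near_one s0 3 0
    · have e : W R (ch 1) B S 11 = app (inf b) (lv 3 (inf s)) := by rw [← hs, ← hb]; rfl
      rw [e]
      exact near_mid (inf_ne hb h0) s 3
  · have e : W R (ch 1) .nil S 18 = lv 2 (app (inf s) (lv 1 .nil)) := by rw [← hs]; rfl
    rw [e]
    exact near_one s0 2 1

/-- the same for the mirrored words -/
theorem near_aw {R B S : BinaryTree Unit} (hR : 1 ∉ cont R) (hB : 1 ∉ cont B) (hS : 1 ∉ cont S)
    (R0 : R ≠ .nil) (S0 : S ≠ .nil) {i : ℕ} (hi : i = 1 ∨ i = 2 ∨ i = 11 ∨ (i = 18 ∧ B = .nil)) :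
    NearT (aw R (pc 1) B S i) := by
  obtain ⟨r, hr⟩ := inf_of hR
  obtain ⟨b, hb⟩ := inf_of hB
  obtain ⟨s, hs⟩ := inf_of hS
  have r0 := inf_ne hr R0
  have s0 := inf_ne hs S0
  rcases hi with rfl | rfl | rfl | ⟨rfl, rfl⟩
  · have e : aw R (pc 1) B S 1 = lv 3 (app (inf r) (lv 0 .nil)) := by
      rw [← hr, lv, app_nil]
      rfl
    rw [e]
    exact near_one r0 3 0
  · have e : aw R (pc 1) B S 2 = lv 2 (app (inf r) (lv 1 .nil)) := by rw [← hr]; rfl
    rw [e]
    exact near_one r0 2 1
  · by_cases h0 : B = .nil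
    · have e : aw R (pc 1) B S 11 = lv 0 (app (inf s) (lv 3 .nil)) := by rw [h0, ← hs]; rfl
      rw [e]
      exact near_one s0 0 3
    · have e : aw R (pc 1) B S 11 = app (inf s) (lv 3 (inf b)) := by rw [← hs, ← hb]; rfl
      rw [e]
      exact near_mid s0 b 3
  · have e : aw R (pc 1) .nil S 18 = lv 1 (app (inf s) (lv 2 .nil)) := by rw [← hs]; rfl
    rw [e]
    exact near_one s0 1 2

/-- the number of beads of a word of a bare window with `q = 0` -/
theorem _root_.Pool.OddHC.HM.NodeM.ones {R B S : BinaryTree Unit} (h : HM.NodeM k 0 R B S) (w0 : X k) {i : ℕ}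
    (hi : i < 20) (h3 : 3 ≤ (cont (HM.mX R B S 0 w0 i).1).count 1) :
    i = 1 ∨ i = 2 ∨ i = 11 ∨ (i = 18 ∧ B = .nil) := by
  obtain ⟨e, he⟩ : ∃ e : Bool, e = true ↔ Tsq.mir B = .nil := by
    by_cases hB : Tsq.mir B = .nil
    · exact ⟨true, by simp [hB]⟩
    · exact ⟨false, by simp [hB]⟩
  obtain ⟨H, h1, h2, _⟩ := cont_aw h.a0d he hi
  have hw := h.word' w0 hi
  rw [hw, h1, Multiset.count_add] at h3
  have h4 : H.count 1 = 0 := by
    rw [Multiset.count_eq_zero]
    intro h5
    have := h2 1 h5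
    omega
  rw [h4] at h3
  have hB : e = true → B = .nil := by
    intro h5
    by_contra h6
    exact mirne h6 (he.1 h5)
  cases e with
  | true =>
    have hB' := hB rfl
    interval_cases i <;> simp [kap, smc, hB'] at h3 ⊢
  | false =>
    interval_cases i <;> simp [kap, smc] at h3 ⊢

theorem NodeM_no1 {q : ℕ} {R B S : BinaryTree Unit} (h : HM.NodeM k q R B S) :
    1 ∉ cont R ∧ 1 ∉ cont B ∧ 1 ∉ cont S := by
  have h1 : 1 ∉ cont R := fun h1 => by
    have := h.part 1 h1
    omega
  have h2 := h.eq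
  refine ⟨h1, fun h3 => h1 ?_, fun h3 => h1 ?_⟩
  · rw [← h2]; exact Multiset.mem_add.2 (Or.inl h3)
  · rw [← h2]; exact Multiset.mem_add.2 (Or.inr h3)

/-- **NEAR**: the words with three beads of a bare window with `c = 3`, both orientations -/
theorem _root_.Pool.OddHC.HM.NodeM.near {R B S : BinaryTree Unit} (h : HM.NodeM k 0 R B S) (w0 : X k) {i : ℕ}
    (hi : i < 20) (h3 : 3 ≤ (cont (wX R B S 0 w0 i).1).count 1) :
    NearT (wX R B S 0 w0 i).1 ∧ NearT (HM.mX R B S 0 w0 i).1 := by
  have hm : cont (HM.mX R B S 0 w0 i).1 = cont (wX R B S 0 w0 i).1 := HM.cont_mir _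
  have h4 := h.ones w0 hi (by rw [hm]; exact h3)
  obtain ⟨n1, n2, n3⟩ := NodeM_no1 h
  have R0 := h.ne
  have S0 : S ≠ .nil := by
    rintro rfl
    have h5 := h.dat.htS
    have h6 := h.top
    rw [← h5] at h6
    change 0 + 3 < 0 at h6
    omega
  constructor
  · rw [wX_eq h.dat h.size w0 hi]
    exact near_W n1 n2 n3 R0 S0 h4
  · rw [h.word' w0 hi]
    refine near_aw (by rw [HM.cont_mir]; exact n1) (by rw [HM.cont_mir]; exact n2)
      (by rw [HM.cont_mir]; exact n3) (mirne R0) (mirne S0) ?_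
    rcases h4 with h4 | h4 | h4 | ⟨h4, h5⟩
    · exact Or.inl h4
    · exact Or.inr (Or.inl h4)
    · exact Or.inr (Or.inr (Or.inl h4))
    · refine Or.inr (Or.inr (Or.inr ⟨h4, ?_⟩))
      rw [h5]
      rfl

/-- a T-cycle with three beads which is far carries no word of a bare window with `c = 3` -/
theorem _root_.Pool.OddHC.HM.NodeM.not_far {R B S : BinaryTree Unit} (h : HM.NodeM k 0 R B S) (w0 : X k) {i : ℕ}
    (hi : i < 20) {c : Cyc k} (hc : FarC c) (h3 : 3 ≤ (contc c).count 1) :
    cyc (wX R B S 0 w0 i) ≠ c ∧ cyc (HM.mX R B S 0 w0 i) ≠ c := by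
  have hm : cont (HM.mX R B S 0 w0 i).1 = cont (wX R B S 0 w0 i).1 := HM.cont_mir _
  constructor
  · intro e
    rw [← e, contc_cyc] at h3
    exact hc _ e (h.near w0 hi h3).1
  · intro e
    rw [← e, contc_cyc, hm] at h3
    exact hc _ e (h.near w0 hi h3).2

/-- the member T-cycles of a plain group without outer parts -/
theorem TyE_count {F' : Set (Cyc k)} {g' : DG k} (h' : TyE F' g') {w : X k} (hw : w ∈ g'.B)
    (h1 : ∀ Y, w.1 ≠ .nil △ Y) (h2 : ∀ Y, w.1 ≠ app Y (.nil △ .nil)) :
    ∃ X0, w.1 = X0 △ .nil ∧ ∀ c ∈ F', contc c = cont X0 + {1} := by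
  obtain ⟨j, r, f, hj, hr, ht⟩ := h'
  rcases ht.words _ hw with e | ⟨_, e | e⟩
  · refine ⟨ins r.1 (lf f), e, ?_⟩
    obtain ⟨a', b', c', ha, hb', hc', k1, k2, k3, rfl, rfl⟩ := ht
    have c0 : cont (BinaryTree.nil △ BinaryTree.nil) = {1} := rfl
    rintro c (rfl | rfl)
    · rw [contc_cyc, hb']
      change cont (app (ins r.1 (lf f)) (.nil △ .nil)) = _
      rw [cont_app, c0]
    · rw [contc_cyc, hc']
      change cont (.nil △ ins r.1 (lf f)) = _
      rw [cont_node, cont_nil, raise_zero, add_comm]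
  · exact absurd e (h2 _)
  · exact absurd e (h1 _)

/-- **P0**: an E pair hit by `T(w_3)` or `T(w_8)` of a bare window with `c = 3`: three beads, far -/
theorem _root_.Pool.OddHC.HM.NodeM.late3 {R B S : BinaryTree Unit} {F' : Set (Cyc k)} {g' : DG k}
    (h : HM.NodeM k 0 R B S) (w0 : X k) {i : ℕ} (hi : i = 3 ∨ i = 8) {w : X k}
    (hw : w = TT (wX R B S 0 w0 i) ∨ w = Tsq.mirX (TT (wX R B S 0 w0 i)))
    (h' : TyE F' g') (hg : w ∈ g'.B) : ∀ c ∈ F', FarC c ∧ 3 ≤ (contc c).count 1 := by
  have hi2 : i ∈ [0, 1, 3, 6, 8, 9] := by rcases hi with rfl | rfl <;> simp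
  obtain ⟨c1, c2, c3⟩ := h.winn w0 hi2 hw
  have hin : InnP (0 + 3) w.1 := by
    rcases hw with rfl | rfl
    · exact (h.inn w0 hi2).1
    · exact (h.inn w0 hi2).2
  have htop := h.top
  have hsR : 3 < (cont R).sup := by rw [← OddHC.ht_eq]; omega
  have hcnt : (cont w.1).count 1 = 2 + (cont R).count 1 := by
    rw [c1]
    have cQ : cont (ch 1) = {1} := rfl
    rcases hi with rfl | rfl
    · have e : W R (ch (0 + 1)) B S 3 = app R (.nil △ ch 1) △ .nil := rfl
      have e2 : cont (app R (.nil △ ch 1)) = cont R + {1, 1} := by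
        rw [cont_app, cont_node, cont_nil, raise_zero, cQ]
        rfl
      rw [e, cont_node, cont_nil, add_zero, e2, raise_one (by
        rw [Multiset.sup_add]
        exact le_trans (by omega : 2 ≤ (cont R).sup) le_sup_left), Multiset.count_add]
      have e3 : Multiset.count 1 ({1, 1} : Multiset ℕ) = 2 := by decide
      rw [e3, add_comm]
    · have e : W R (ch (0 + 1)) B S 8 = app (ch 1) (.nil △ (R △ .nil)) := rfl
      rw [e, cont_app, cont_node, cont_node, cont_nil, raise_zero, add_zero, cQ, Multiset.count_add,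
        Multiset.count_add, raise_one (by omega)]
      have e3 : Multiset.count 1 ({1} : Multiset ℕ) = 1 := by decide
      rw [e3]
      ring
  have h1 : 1 ∈ cont w.1 := Multiset.count_pos.1 (by omega)
  have hfar := hin.far h1 h' hg
  obtain ⟨X0, e, hX⟩ := TyE_count h' hg (fun Y => hin.not_first) (fun Y => hin.not_last)
  intro c hc
  refine ⟨hfar c hc, ?_⟩
  rw [hX c hc, Multiset.count_add, Multiset.count_singleton_self]
  rw [e, cont_node, cont_nil, add_zero] at hcnt
  have h3 : cont X0 ≠ 0 := by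
    intro e2
    rw [e2, raise_zero] at hcnt
    have e3 : Multiset.count 1 ({1} : Multiset ℕ) = 1 := by decide
    omega
  have h4 := count_raise_one h3 (fun h4 => absurd (cont_pos _ _ h4) (by norm_num))
  omega

/-- **no word of a bare window with `c = 3` lies on a T-cycle of `P0`** -/
theorem _root_.Pool.OddHC.HM.NodeM.late_free {R B S R' B' S' : BinaryTree Unit} {F' : Set (Cyc k)} {g' : DG k}
    (h : HM.NodeM k 0 R B S) (w0 : X k) {i : ℕ} (hi : i = 3 ∨ i = 8) {w : X k}
    (hw : w = TT (wX R B S 0 w0 i) ∨ w = Tsq.mirX (TT (wX R B S 0 w0 i)))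
    (h' : TyE F' g') (hg : w ∈ g'.B) (h2 : HM.NodeM k 0 R' B' S') (w0' : X k) {j : ℕ} (hj : j < 20) :
    cyc (wX R' B' S' 0 w0' j) ∉ F' ∧ cyc (HM.mX R' B' S' 0 w0' j) ∉ F' := by
  have h3 := h.late3 w0 hi hw h' hg
  constructor
  · intro hc
    obtain ⟨a, b⟩ := h3 _ hc
    exact (h2.not_far w0' hj a b).1 rfl
  · intro hc
    obtain ⟨a, b⟩ := h3 _ hc
    exact (h2.not_far w0' hj a b).2 rfl

end H1

end Pool.OddHC
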