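import Pool.Agent.Work.MP_8f87b2_h13.R3X
import Pool.Agent.Work.MP_8f87b2_h13.IndepAll

/-!
# Bare T-cycles with smallest part `3`, at least three times

A bare word is `inf (inf (ins v f))`: `f` is the number of parts `3` in the gaps of the ring of `v`. It is FULL if every gap
is occupied. Not full: there is a phase `R[3]` such that `R` does not start with `[3]` (`R3c_ex`). Full: the link with host
`(R)(())`, `R` a phase whose last gap is strictly minimal (`MinR`); `R` determines `z` (`MinR_inj`).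
-/

set_option autoImplicit false
set_option linter.all false

namespace Pool.OddHC

open Finset Equiv BinaryTree Pool.Agent.Work.MP_8f87b2_co HM

variable {k : ℕ}

theorem inf_inj {a b : BinaryTree Unit} (h : inf a = inf b) : a = b := by
  have h1 : red (inf a) = (a, List.replicate (2 * a.numNodes + 1) 0) := by
    unfold inf
    exact red_ins _ _ List.length_replicate
  have h2 : red (inf b) = (b, List.replicate (2 * b.numNodes + 1) 0) := by
    unfold inf
    exact red_ins _ _ List.length_replicate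
  have h3 : (red (inf a)).1 = (red (inf b)).1 := by rw [h]
  rw [h1, h2] at h3
  exact h3

/-- coordinates of a word without parts `1`, `2` -/
theorem coord3 (z : X k) (h1 : (cont z.1).count 1 = 0) (h2 : (cont z.1).count 2 = 0) :
    ∃ (n : ℕ) (v : X n) (f : ZMod (2 * n + 1) → ℕ), z.1 = inf (inf (ins v.1 (lf f))) ∧
      ∀ m, ((TT ^ m) z).1 = inf (inf (ins ((TT ^ m) v).1 (lf (fun x => f (x + sp v m))))) := by
  obtain ⟨l, u1, hu1⟩ := exists_inf z h1
  rw [hu1, count_two_inf] at h2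
  obtain ⟨l', u, hu⟩ := exists_inf u1 h2
  obtain ⟨n, v, e, he, hv, _, _⟩ := red_ex u
  obtain ⟨f, rfl, hf⟩ := pow_ins v he hv
  refine ⟨n, v, f, by rw [hu1, hu, hv], fun m => ?_⟩
  rw [inf_pow u1 hu1, inf_pow u hu, hf]

theorem cont_inf2 (t : BinaryTree Unit) : cont (inf (inf t)) = (cont t).map (· + 2) := by
  rw [cont_inf, cont_inf, Multiset.map_map]
  rfl

theorem count3_inf2 (t : BinaryTree Unit) : (cont (inf (inf t))).count 3 = (cont t).count 1 := by
  rw [cont_inf2]
  exact Multiset.count_map_eq_count' (· + 2) _ (add_left_injective 2) 1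

/-- the number of parts `3` -/
theorem count3_coord {n : ℕ} (v : X n) (f : ZMod (2 * n + 1) → ℕ) :
    (cont (inf (inf (ins v.1 (lf f))))).count 3 = ∑ x, f x := by
  rw [count3_inf2, count_one_ins _ _ (by rw [lf_length, X_num]), lf_sum]

theorem coord_pos {n : ℕ} {v : X n} {f : ZMod (2 * n + 1) → ℕ} (h : 3 < ht (inf (inf (ins v.1 (lf f))))) :
    1 ≤ n := by
  by_contra hn
  obtain rfl : n = 0 := by omega
  have hv : v.1 = .nil := by
    have := X_num v
    cases h : v.1 with
    | nil => rfl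
    | node _ A B => rw [h] at this; simp at this
  rw [ht_eq, cont_inf2, cont_ins v.1 _ (by rw [lf_length, X_num]), hv] at h
  have h2 : (Multiset.map (· + 2) (Multiset.map (· + 1) (cont .nil) +
      Multiset.replicate (lf f).sum 1)).sup ≤ 3 := by
    apply Multiset.sup_le.2
    intro b hb
    rw [cont_nil, Multiset.map_zero, zero_add, Multiset.map_replicate] at hb
    rw [Multiset.eq_of_mem_replicate hb]
  omega

/-- starts with `[3]` : the first gap is occupied -/
theorem st3_coord {n : ℕ} {v : X n} {f : ZMod (2 * n + 1) → ℕ} (h : St3 (inf (inf (ins v.1 (lf f))))) :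
    1 ≤ f 0 := by
  obtain ⟨Y, hY⟩ := h
  obtain ⟨t, ht⟩ : ∃ t, t = ins v.1 (lf f) := ⟨_, rfl⟩
  rw [← ht] at hY
  cases hc : t with
  | nil => rw [hc] at hY; simp [inf_nil] at hY
  | node _ A C =>
    rw [hc] at hY
    change inf (inf (A △ C)) = _ at hY
    rw [inf_node, inf_node] at hY
    have e1 := (BinaryTree.node.inj hY).2.1
    have e2 : inf (inf (A △ .nil)) = inf (inf (.nil △ .nil)) := by
      rw [inf_node, inf_node, e1]
      rfl
    have e3 := (BinaryTree.node.inj (inf_inj (inf_inj e2))).2.1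
    subst e3
    rw [ht] at hc
    -- `ins v f = () C`
    have h1 : red (ins v.1 (lf f)) = (v.1, lf f) := red_ins _ _ (by rw [lf_length, X_num])
    obtain ⟨u, x, l, hC⟩ : ∃ u x l, C = ins u (x :: l) ∧ (x :: l).length = 2 * u.numNodes + 1 := by
      have h2 := red_len C
      cases h3 : (red C).2 with
      | nil => rw [h3] at h2; simp at h2
      | cons x l =>
        exact ⟨(red C).1, x, l, by rw [← h3, ins_red], by rw [← h3]; exact h2⟩
    have h2 : red (.nil △ C) = (u, (x + 1) :: l) := by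
      rw [hC.1, ← ins_succ]
      exact red_ins _ _ (by have := hC.2; simpa using this)
    rw [hc, show (BinaryTree.node () .nil C) = .nil △ C from rfl, h2] at h1
    have h3 := congrArg Prod.snd h1
    obtain ⟨l', hl, -⟩ := lf_cons f
    rw [hl] at h3
    have h4 := (List.cons.inj h3).1
    omega

/-- a bead in the last gap: the word ends with `[3]` -/
theorem end_coord {n : ℕ} (v : X n) (f : ZMod (2 * n + 1) → ℕ) (h : 1 ≤ f (-1)) :
    inf (inf (ins v.1 (lf f))) =
      app (inf (inf (ins v.1 (lf (fun x => f x - if x = -1 then 1 else 0))))) (pc 3) := by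
  have e : f = fun x => (f x - if x = -1 then 1 else 0) + if x = -1 then 1 else 0 := by
    funext x
    by_cases hx : x = -1
    · rw [if_pos hx, hx]; omega
    · rw [if_neg hx]; rfl
  conv_lhs => rw [e]
  rw [ins_back v (fun x => f x - if x = -1 then 1 else 0), inf_app, inf_app]
  rfl

/-- every hole is occupied -/
def Full3 (t : BinaryTree Unit) : Prop :=
  ∃ (n : ℕ) (v : X n) (f : ZMod (2 * n + 1) → ℕ), t = inf (inf (ins v.1 (lf f))) ∧ ∀ x, 1 ≤ f x

/-- the last hole is strictly minimal -/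
def MinR (t : BinaryTree Unit) : Prop :=
  ∃ (n : ℕ) (v : X n) (f : ZMod (2 * n + 1) → ℕ), 1 ≤ n ∧ t = inf (inf (ins v.1 (lf f))) ∧
    ∀ x, x ≠ -1 → f (-1) < f x

/-- coordinates are unique -/
theorem coord_inj {n n' : ℕ} {v : X n} {v' : X n'} {f : ZMod (2 * n + 1) → ℕ} {f' : ZMod (2 * n' + 1) → ℕ}
    (h : inf (inf (ins v.1 (lf f))) = inf (inf (ins v'.1 (lf f')))) : n = n' ∧ HEq v v' ∧ HEq f f' := by
  have h1 := inf_inj (inf_inj h)
  have h2 : red (ins v.1 (lf f)) = (v.1, lf f) := red_ins _ _ (by rw [lf_length, X_num])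
  have h3 : red (ins v'.1 (lf f')) = (v'.1, lf f') := red_ins _ _ (by rw [lf_length, X_num])
  rw [h1, h3, Prod.mk.injEq] at h2
  have e : n = n' := by
    have := congrArg BinaryTree.numNodes h2.1
    rw [X_num, X_num] at this
    exact this.symm
  subst e
  exact ⟨rfl, heq_of_eq (Subtype.ext h2.1.symm), heq_of_eq (lf_inj h2.2.symm)⟩

/-- the gaps: all of `Σ f` in them -/
theorem exists_occ {n : ℕ} {f : ZMod (2 * n + 1) → ℕ} (h : 1 ≤ ∑ x, f x) : ∃ y, 1 ≤ f y := by
  by_contra hcon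
  push Not at hcon
  have : ∑ x, f x = 0 := Finset.sum_eq_zero fun x _ => by have := hcon x; omega
  omega

/-- an occupied hole whose successor is empty -/
theorem exists_step {n : ℕ} {f : ZMod (2 * n + 1) → ℕ} (h : 1 ≤ ∑ x, f x) (h0 : ∃ x, f x = 0) :
    ∃ y, 1 ≤ f y ∧ f (y + 1) = 0 := by
  by_contra hcon
  push Not at hcon
  obtain ⟨y, hy⟩ := exists_occ h
  have key : ∀ m : ℕ, 1 ≤ f (y + m) := by
    intro m
    induction m with
    | zero => rw [Nat.cast_zero, add_zero]; exact hy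
    | succ m ih =>
      have h1 := hcon _ ih
      have e : y + ((m + 1 : ℕ) : ZMod (2 * n + 1)) = y + m + 1 := by push_cast; ring
      rw [e]
      omega
  obtain ⟨x, hx⟩ := h0
  have h2 := key (x - y).val
  rw [ZMod.natCast_zmod_val, add_sub_cancel, hx] at h2
  omega

theorem st3_app {R X : BinaryTree Unit} (hR : R ≠ .nil) (h : St3 (app R X)) : St3 R := by
  cases R with
  | nil => exact absurd rfl hR
  | node _ A C =>
    obtain ⟨Y, hY⟩ := h
    have e : A △ app C X = pc 2 △ Y := hY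
    exact ⟨C, by rw [(BinaryTree.node.inj e).2.1]⟩

theorem coord_st3 {n : ℕ} (v : X n) (f : ZMod (2 * n + 1) → ℕ) (h : 1 ≤ f 0) :
    St3 (inf (inf (ins v.1 (lf f)))) := by
  obtain ⟨r, hr⟩ := ins_bead v.1 h
  rw [hr, inf_node, inf_node]
  exact ⟨_, rfl⟩

/-- **NOT FULL, at least three parts `3`: the window `TyR3c`** -/
theorem R3c_ex (z : X k) (hz : ∀ x ∈ cont z.1, 3 ≤ x) (h3 : 3 ≤ (cont z.1).count 3) (htop : 3 < ht z.1)
    (hnf : ¬ Full3 z.1) : ∃ g : DG k, TyR3c {cyc z} g := by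
  have c1 : (cont z.1).count 1 = 0 := Multiset.count_eq_zero.2 fun h => by have := hz 1 h; omega
  have c2 : (cont z.1).count 2 = 0 := Multiset.count_eq_zero.2 fun h => by have := hz 2 h; omega
  obtain ⟨n, v, f, hzf, hp⟩ := coord3 z c1 c2
  have hn : 1 ≤ n := coord_pos (v := v) (f := f) (by rw [← hzf]; exact htop)
  have hs : (cont z.1).count 3 = ∑ x, f x := by rw [hzf]; exact count3_coord v f
  have h0 : ∃ x, f x = 0 := by
    by_contra hcon
    push Not at hcon
    exact hnf ⟨n, v, f, hzf, fun x => Nat.one_le_iff_ne_zero.2 (hcon x)⟩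
  obtain ⟨y, hy, hy1⟩ := exists_step (f := f) (by omega) h0
  obtain ⟨i, hi⟩ := exists_sp hn v (y + 1)
  obtain ⟨i2, hi2⟩ := exists_sp hn v y
  have e1 := hp i
  rw [end_coord _ _ (by
    change 1 ≤ f (-1 + sp v i)
    rw [hi]
    have : (-1 : ZMod (2 * n + 1)) + (y + 1) = y := by ring
    rw [this]; exact hy)] at e1
  obtain ⟨w, hw⟩ : ∃ w, w = (TT ^ i) z := ⟨_, rfl⟩
  obtain ⟨f', hf'⟩ : ∃ f' : ZMod (2 * n + 1) → ℕ, f' = fun x => f (x + sp v i) - if x = -1 then 1 else 0 :=
    ⟨_, rfl⟩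
  obtain ⟨R, hR⟩ : ∃ R, R = inf (inf (ins ((TT ^ i) v).1 (lf f'))) := ⟨_, rfl⟩
  rw [← hw, ← hf', ← hR] at e1
  have hcw : cyc w = cyc z := by
    rw [hw]
    exact cyc_eq.2 (Perm.SameCycle.symm ⟨i, by rw [zpow_natCast]⟩)
  have hcont : cont z.1 = cont R + {3} := by
    have h4 : cont w.1 = cont z.1 := by rw [hw]; exact cont_pow z i
    rw [← h4, e1, cont_app, cont_pc]
  have hRc : (cont R).count 3 + 1 = (cont z.1).count 3 := by
    rw [hcont, Multiset.count_add, Multiset.count_singleton_self]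
  have hmem : 3 ∈ cont R := Multiset.count_pos.1 (by omega)
  have hRtop : 3 < ht R := by
    rw [ht_eq, hcont, Multiset.sup_add, Multiset.sup_singleton, ← ht_eq] at htop
    rcases lt_sup_iff.1 htop with h5 | h5
    · exact h5
    · omega
  have hR0 : R ≠ .nil := by
    rintro h5
    rw [h5] at hRtop
    rw [ht] at hRtop
    omega
  have hst : ¬ St3 R := by
    intro h5
    rw [hR] at h5
    have h6 := st3_coord h5
    rw [hf'] at h6
    have h7 : f (0 + sp v i) = 0 := by rw [hi, zero_add]; exact hy1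
    simp only [h7] at h6
    omega
  rw [← hcw]
  refine TyR3c.ex_word e1 ?_ hmem hRtop hst ?_ ?_
  · intro x hx
    apply hz
    rw [hcont]
    exact Multiset.mem_add.2 (Or.inl hx)
  · rintro ⟨h5, h6⟩
    let x : X R.numNodes := ⟨R, mem_treesOfNumNodesEq.2 rfl⟩
    have e2 : (TT (TT x)).1 = app (Tsq.sq R).2 (Tsq.sq R).1 := Tsq.TT_sq x hR0
    have e3 : cont (TT (TT x)).1 = cont R := by
      rw [TT_apply, cont_TF, TT_apply, cont_TF]
    rw [e2, cont_app, h5, cont_pc] at e3
    have e4 := congrArg (Multiset.count 3) e3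
    rw [Multiset.count_add, Multiset.count_singleton_self, Multiset.count_eq_zero.2 h6] at e4
    omega
  · intro h5
    have h6 : ∀ m : ℕ, (TT ^ m) w = w := by
      intro m
      induction m with
      | zero => rfl
      | succ m ih => rw [pow_succ', Perm.mul_apply, ih, h5]
    have h7 : z = w := by
      have h8 := sameCycle_nat (cyc_eq.1 hcw)
      obtain ⟨m, hm⟩ := h8
      rw [← hm, h6]
    have h8 : (TT ^ i2) z = w := by rw [h7]; exact h6 i2
    have h9 : St3 w.1 := by
      rw [← h8, hp i2]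
      apply coord_st3
      change 1 ≤ f (0 + sp v i2)
      rw [hi2, zero_add]
      exact hy
    rw [e1] at h9
    exact hst (st3_app hR0 h9)

/-- **FULL: a phase `R[3]` whose `R` is strictly minimal at the last gap** -/
theorem full_ex (z : X k) (htop : 3 < ht z.1) (hf : Full3 z.1) : ∃ (w : X k) (R : BinaryTree Unit),
    cyc w = cyc z ∧ w.1 = app R (pc 3) ∧ MinR R := by
  obtain ⟨n, v, f, hzf, hf1⟩ := hf
  have hn : 1 ≤ n := coord_pos (v := v) (f := f) (by rw [← hzf]; exact htop)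
  obtain ⟨u, hu⟩ : ∃ u, u = ins v.1 (lf f) := ⟨_, rfl⟩
  rw [← hu] at hzf
  obtain ⟨u1, hu1⟩ : ∃ u1 : X u.numNodes, u1.1 = u := ⟨⟨u, mem_treesOfNumNodesEq.2 rfl⟩, rfl⟩
  obtain ⟨u2, hu2⟩ : ∃ u2 : X (inf u).numNodes, u2.1 = inf u := ⟨⟨inf u, mem_treesOfNumNodesEq.2 rfl⟩, rfl⟩
  obtain ⟨a, ha, hpa⟩ := pow_ins v (e := lf f) (lf_length f) (w := u1) (by rw [hu1, hu])
  have ha' : f = a := lf_inj ha
  subst ha'
  have hp : ∀ m, ((TT ^ m) z).1 = inf (inf (ins ((TT ^ m) v).1 (lf (fun x => f (x + sp v m))))) := by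
    intro m
    rw [inf_pow u2 (by rw [hzf, hu2]), inf_pow u1 (by rw [hu2, hu1]), hpa]
  obtain ⟨y, -, hy⟩ := Finset.exists_min_image (Finset.univ : Finset (ZMod (2 * n + 1))) f
    ⟨0, Finset.mem_univ _⟩
  obtain ⟨i, hi⟩ := exists_sp hn v (y + 1)
  have ey : (-1 : ZMod (2 * n + 1)) + (y + 1) = y := by ring
  have e1 := hp i
  rw [end_coord _ _ (by
    change 1 ≤ f (-1 + sp v i)
    rw [hi, ey]
    exact hf1 y)] at e1
  refine ⟨(TT ^ i) z, _, cyc_eq.2 (Perm.SameCycle.symm ⟨i, by rw [zpow_natCast]⟩), e1, n, _, _, hn, rfl, ?_⟩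
  intro x hx
  have h2 := hy (x + sp v i) (Finset.mem_univ _)
  have h3 := hf1 y
  simp only [if_neg hx, if_true]
  rw [hi, ey]
  rw [hi] at h2
  have h4 : f y ≤ f (x + (y + 1)) := h2
  omega

/-- coordinates along the `T`-orbit of a bare word -/
theorem pow_coord {n : ℕ} {v : X n} {f : ZMod (2 * n + 1) → ℕ} {z : X k}
    (hz : z.1 = inf (inf (ins v.1 (lf f)))) (m : ℕ) :
    ((TT ^ m) z).1 = inf (inf (ins ((TT ^ m) v).1 (lf (fun x => f (x + sp v m))))) := by
  obtain ⟨u, hu⟩ : ∃ u, u = ins v.1 (lf f) := ⟨_, rfl⟩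
  rw [← hu] at hz
  obtain ⟨u1, hu1⟩ : ∃ u1 : X u.numNodes, u1.1 = u := ⟨⟨u, mem_treesOfNumNodesEq.2 rfl⟩, rfl⟩
  obtain ⟨u2, hu2⟩ : ∃ u2 : X (inf u).numNodes, u2.1 = inf u := ⟨⟨inf u, mem_treesOfNumNodesEq.2 rfl⟩, rfl⟩
  obtain ⟨a, ha, hpa⟩ := pow_ins v (e := lf f) (lf_length f) (w := u1) (by rw [hu1, hu])
  have ha' : f = a := lf_inj ha
  subst ha'
  rw [inf_pow u2 (by rw [hz, hu2]), inf_pow u1 (by rw [hu2, hu1]), hpa]

/-- **`R` determines `z`**: `R`, `R'` strictly minimal at the last gap, on one T-cycle; then `R[3]`, `R'[3]` are on one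
T-cycle -/
theorem MinR_inj {j : ℕ} {r r' : X j} (h : MinR r.1) (h' : MinR r'.1) (hc : cyc r = cyc r') {w w' : X k}
    (hw : w.1 = app r.1 (pc 3)) (hw' : w'.1 = app r'.1 (pc 3)) : cyc w = cyc w' := by
  obtain ⟨n, v, f, hn, hr, hf⟩ := h
  obtain ⟨m, hm⟩ := sameCycle_nat (cyc_eq.1 hc)
  have h1 := pow_coord hr m
  rw [hm] at h1
  obtain ⟨n', v', f', hn', hr', hf'⟩ := h'
  rw [hr'] at h1
  obtain ⟨rfl, h2, h3⟩ := coord_inj h1
  have hv' := eq_of_heq h2
  have hf2 := eq_of_heq h3
  -- the star of `v` is at the same letter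
  have hsp : sp v m = 0 := by
    by_contra hne
    have h4 : (-1 : ZMod (2 * n' + 1)) - sp v m ≠ -1 := by
      intro e
      apply hne
      have : sp v m = -1 - (-1 - sp v m) := by ring
      rw [this, e]
      ring
    have h5 := hf' _ h4
    rw [hf2] at h5
    simp only [sub_add_cancel] at h5
    have h6 : (-1 : ZMod (2 * n' + 1)) + sp v m ≠ -1 := by
      intro e
      apply hne
      have : sp v m = (-1 + sp v m) + 1 := by ring
      rw [this, e]
      ring
    have h7 := hf _ h6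
    omega
  have e1 : ∀ g : ZMod (2 * n' + 1) → ℕ, (fun x => g (x + sp v m)) = g := by
    intro g
    funext x
    rw [hsp, add_zero]
  rw [e1] at hf2
  -- `R[3]` in coordinates
  have key : ∀ (v : X n') (f : ZMod (2 * n' + 1) → ℕ), app (inf (inf (ins v.1 (lf f)))) (pc 3) =
      inf (inf (ins v.1 (lf (fun x => f x + if x = -1 then 1 else 0)))) := by
    intro v f
    rw [ins_back, inf_app, inf_app]
    rfl
  rw [hr, key] at hw
  rw [hr', key] at hw'
  have h8 := pow_coord hw m
  rw [e1 (fun x => f x + if x = -1 then 1 else 0), ← hv', ← hf2, ← hw'] at h8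
  exact cyc_eq.2 ⟨m, by rw [zpow_natCast]; exact Subtype.ext h8⟩

end Pool.OddHC
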