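import Pool.Agent.Work.MP_8f87b2_h35.Gen20
import Pool.Agent.Work.MP_8f87b2_h58.CertR3w

/-!
MP_8f87b2_co: the gadget of a bare T-cycle `z = Y[3][3]` with the guest `()R()Q`: the seventeen words 0..15, 17 of `W R Q B S`, new
T-cycles {0, 10} = z = R((Q)) and {2} = ()R()Q; arcs 1 -> 11, 3 -> 12, 6 -> 15, 8 -> 14, 9 -> 17.
-/

set_option autoImplicit false

set_option synthInstance.maxSize 1000

namespace Pool.OddHC

open Finset BinaryTree Equiv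

variable {k : ℕ}

/-- numbers of the words -/
def ixR3w : List ℕ := [0, 1, 2, 3, 4, 5, 6, 7, 8, 9, 10, 11, 12, 13, 14, 15, 17]

/-- new T-cycles with one word -/
def sgR3w : List ℕ := [2]

/-- new T-cycles with two words -/
def prR3w : List (ℕ × ℕ) := [(0, 10)]

/-- arcs -/
def arR3w : List (ℕ × ℕ) := [(1, 11), (3, 12), (6, 15), (8, 14), (9, 17)]

/-- old words -/
def odR3w : List ℕ := [1, 3, 4, 5, 6, 7, 8, 9, 11, 12, 13, 14, 15, 17]

/-- the gadget -/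
noncomputable def gadR3w (w : ℕ → X k) : DG k := gadOf w ixR3w (sgR3w ++ prR3w.map Prod.fst) arR3w

theorem okR3w : CertOk ixR3w sgR3w prR3w arR3w odR3w CertR3w.A CertR3w.F_0 CertR3w.Z_0 CertR3w.x0_0
    CertR3w.z0_0 CertR3w.al Cert.al := by
  refine ⟨?_, ?_, ?_, ?_, ?_, ?_, ?_, ?_, ?_, ?_, ?_, ?_, ?_, ?_, ?_⟩ <;> decide +kernel

/-- THE GADGET ABSORBS. -/
theorem gadR3w_abs {R Q B S : BinaryTree Unit} (hR : Q.numNodes + R.numNodes + 2 = k)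
    (hB : Q.numNodes + S.numNodes + B.numNodes + 2 = k)
    {w : ℕ → X k} (hw : ∀ i ∈ ixR3w, (w i).1 = w20 R Q B S i)
    (hinj : ∀ i ∈ ixR3w, ∀ j ∈ ixR3w, w i = w j → i = j)
    (hpair : ∀ p ∈ prR3w, TT.SameCycle (w p.1) (w p.2))
    (hsep : ∀ i ∈ sgR3w ++ prR3w.map Prod.fst, ∀ j ∈ sgR3w ++ prR3w.map Prod.fst,
      TT.SameCycle (w i) (w j) → i = j)
    (hold : ∀ i ∈ sgR3w ++ prR3w.map Prod.fst, ∀ j ∈ odR3w, ¬ TT.SameCycle (w i) (w j)) :
    (gadR3w w).Abs :=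
  gadOf_abs hR hB okR3w CertR3w.runR3w hw hinj hpair hsep hold

end Pool.OddHC
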