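import Pool.Agent.Work.MP_8f87b2_h58.InA0

/-!
MP_8f87b2_co: the inner words of a bare window against the twenty words of a bare window (helper58), both with the same
orientation (right or mirrored).
-/

set_option autoImplicit false

namespace Pool.OddHC

open Finset Equiv BinaryTree Pool.Agent.Work.MP_8f87b2_co

namespace H1

open HM

variable {k : ℕ} {q q' : ℕ} {R B S R' B' S' : BinaryTree Unit}

/-! ### Parts of the pieces -/

theorem _root_.Pool.OddHC.HM.NodeM.partB (h : NodeM k q R B S) : ∀ x ∈ cont B, q + 3 ≤ x := h.dat.bare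

theorem _root_.Pool.OddHC.HM.NodeM.partS (h : NodeM k q R B S) : ∀ x ∈ cont S, q + 3 ≤ x := by
  intro x hx
  apply h.part
  rw [← h.eq]
  exact Multiset.mem_add.2 (Or.inr hx)

theorem _root_.Pool.OddHC.HM.NodeM.S0 (h : NodeM k q R B S) : S ≠ .nil := by
  rintro rfl
  have h1 := h.dat.htS
  have h2 := h.top
  rw [← h1] at h2
  have h00 : OddHC.ht (BinaryTree.nil : BinaryTree Unit) = 0 := rfl
  omega

theorem cnt_low {t : BinaryTree Unit} {g0 x : ℕ} (h : ∀ y ∈ cont t, g0 ≤ y) (hx : x < g0) :
    (cont t).count x = 0 := by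
  rw [Multiset.count_eq_zero]
  intro h1
  have := h x h1
  omega

theorem cnt_one (a x : ℕ) : ({a} : Multiset ℕ).count x = if x = a then 1 else 0 := by
  rw [Multiset.count_singleton]

/-- `raise` of something with a top above `x` -/
theorem cnt_raise {M : Multiset ℕ} {x : ℕ} (h : x < M.sup) : (raise M).count x = M.count x :=
  count_raise x (by omega) (by omega)

theorem sup_le_of_le {M N : Multiset ℕ} : M.sup ≤ (M + N).sup := by
  rw [sup_add']
  exact le_max_left _ _

/-- the small parts of the old words: one part `e` once, and beads -/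
theorem _root_.Pool.OddHC.HM.NodeM.cntW (h : NodeM k q R B S) {j : ℕ} (hj : j < 20) (h0 : j ≠ 0)
    (h10 : j ≠ 10) : ∃ e, ∀ x, 2 ≤ x → x < q + 3 →
      (cont (W R (ch (q + 1)) B S j)).count x ≤ if x = e then 1 else 0 := by
  have pR := h.part
  have pB := h.partB
  have pS := h.partS
  have htop := h.top
  have hS := h.dat.htS
  have c1 := ch_cont q
  have c2 : cont (ch (q + 2)) = {q + 2} := ch_cont (q + 1)
  have c0 : cont (BinaryTree.nil : BinaryTree Unit) = 0 := rfl
  have sR : (cont R).sup = OddHC.ht R := (OddHC.ht_eq R).symm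
  have sS : (cont S).sup = OddHC.ht S := (OddHC.ht_eq S).symm
  have zR : ∀ x, x < q + 3 → (cont R).count x = 0 := fun x hx => cnt_low pR hx
  have zB : ∀ x, x < q + 3 → (cont B).count x = 0 := fun x hx => cnt_low pB hx
  have zS : ∀ x, x < q + 3 → (cont S).count x = 0 := fun x hx => cnt_low pS hx
  have rR : ∀ x, x < q + 3 → (raise (cont R)).count x = 0 := fun x hx => by
    rw [cnt_raise (by omega), zR x hx]
  have rS : ∀ x, x < q + 3 → (raise (cont S)).count x = 0 := fun x hx => by
    rw [cnt_raise (by omega), zS x hx]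
  have one : ∀ x, 2 ≤ x → ({1} : Multiset ℕ).count x = 0 := fun x hx => by
    rw [Multiset.count_singleton, if_neg (by omega)]
  have rB : ∀ x, 2 ≤ x → x < q + 3 → (raise (cont B)).count x = 0 := by
    intro x h2 hx
    by_cases hB : B = .nil
    · rw [hB, c0, raise_zero, one x h2]
    · have h3 : q + 3 ≤ (cont B).sup := pB _ (sup_mem fun h4 => hB (cont_eq_zero.1 h4))
      rw [cnt_raise (by omega), zB x hx]
  -- raise of `{q+1} + {1}`
  have rQ : ∀ x, 2 ≤ x → (raise ({q + 1} + {1} : Multiset ℕ)).count x = if x = q + 2 then 1 else 0 := by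
    intro x hx
    have hs : ({q + 1} + {1} : Multiset ℕ).sup = q + 1 := by
      rw [sup_add', Multiset.sup_singleton, Multiset.sup_singleton]
      omega
    unfold raise
    rw [hs, Multiset.count_cons]
    have h3 : (({q + 1} + {1} : Multiset ℕ).erase (q + 1)).count x = 0 := by
      have e3 : ({q + 1} + {1} : Multiset ℕ).erase (q + 1) = {1} := by
        rw [Multiset.singleton_add, Multiset.erase_cons_head]
      rw [e3, one x hx]
    rw [h3, zero_add]
  have hgo : ∀ (e : ℕ), (∀ x, 2 ≤ x → x < q + 3 →
      (cont (W R (ch (q + 1)) B S j)).count x = if x = e then 1 else 0) →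
      ∃ e, ∀ x, 2 ≤ x → x < q + 3 →
      (cont (W R (ch (q + 1)) B S j)).count x ≤ if x = e then 1 else 0 :=
    fun e he => ⟨e, fun x h1 h2 => (he x h1 h2).le⟩
  interval_cases j
  · exact absurd rfl h0
  · apply hgo (q + 1)
    intro x h1 h2
    simp only [W, cont_app, cont_node, c0, raise_zero, c1, Multiset.count_add, zR x h2, one x h1,
      Multiset.count_zero]
    rw [Multiset.count_singleton]
    omega
  · apply hgo (q + 1)
    intro x h1 h2
    simp only [W, cont_app, cont_node, c0, raise_zero, c1, Multiset.count_add, zR x h2, one x h1,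
      Multiset.count_zero]
    rw [Multiset.count_singleton]
    omega
  · apply hgo (q + 1)
    intro x h1 h2
    simp only [W, cont_app, cont_node, c0, raise_zero, c1, add_zero]
    have h3 : x < (cont R + ({1} + {q + 1}) : Multiset ℕ).sup := by
      have := sup_le_of_le (M := cont R) (N := ({1} + {q + 1} : Multiset ℕ))
      omega
    rw [cnt_raise h3, Multiset.count_add, Multiset.count_add, zR x h2, one x h1, Multiset.count_singleton]
    omega
  · apply hgo (q + 2)
    intro x h1 h2
    simp only [W, cont_app, cont_node, c0, raise_zero, c1, add_zero, Multiset.count_add, zR x h2, rQ x h1]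
  · apply hgo (q + 2)
    intro x h1 h2
    have e5 : cont (W R (ch (q + 1)) B S 5) = {q + 2} + ({1} + cont R) := by
      have e6 : W R (ch (q + 1)) B S 5 = app (ch (q + 2)) (.nil △ R) := rfl
      rw [e6, cont_app, c2, cont_node, c0, raise_zero]
    rw [e5, Multiset.count_add, Multiset.count_add, zR x h2, one x h1, Multiset.count_singleton]
    omega
  · apply hgo (q + 2)
    intro x h1 h2
    have e6 : W R (ch (q + 1)) B S 6 = R △ ch (q + 2) := rfl
    rw [e6, cont_node, c2, Multiset.count_add, rR x h2, Multiset.count_singleton]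
    omega
  · apply hgo (q + 1)
    intro x h1 h2
    simp only [W, cont_app, cont_node, c0, raise_zero, c1, add_zero]
    have h3 : x < ({1} + cont R : Multiset ℕ).sup := by
      rw [add_comm]
      have := sup_le_of_le (M := cont R) (N := ({1} : Multiset ℕ))
      omega
    rw [Multiset.count_add, cnt_raise h3, Multiset.count_add, zR x h2, one x h1, Multiset.count_singleton]
    omega
  · apply hgo (q + 1)
    intro x h1 h2
    simp only [W, cont_app, cont_node, c0, raise_zero, c1, add_zero, Multiset.count_add, rR x h2, one x h1]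
    rw [Multiset.count_singleton]
  · apply hgo (q + 1)
    intro x h1 h2
    simp only [W, cont_node, c0, c1, add_zero, Multiset.count_add]
    rw [cnt_raise (by rw [sup_raise]; omega), rR x h2, Multiset.count_singleton]
    omega
  · exact absurd rfl h10
  · apply hgo (q + 1)
    intro x h1 h2
    simp only [W, cont_app, cont_node, c0, raise_zero, c1, Multiset.count_add, zB x h2, zS x h2, one x h1]
    rw [Multiset.count_singleton]
    omega
  · apply hgo (q + 1)
    intro x h1 h2
    simp only [W, cont_app, cont_node, c0, raise_zero, c1, Multiset.count_add, zB x h2, rS x h2, one x h1]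
    rw [Multiset.count_singleton]
    omega
  · -- `S(B()Q)`
    by_cases hB : B = .nil
    · subst hB
      apply hgo (q + 2)
      intro x h1 h2
      have e5 : cont (W R (ch (q + 1)) .nil S 13) = cont S + raise ({q + 1} + {1}) := by
        simp only [W, cont_app, cont_node, c0, raise_zero, c1, add_zero, zero_add]
        rw [add_comm ({1} : Multiset ℕ)]
      rw [e5, Multiset.count_add, zS x h2, rQ x h1]
      omega
    · apply hgo (q + 1)
      intro x h1 h2
      have h4 : q + 3 ≤ (cont B).sup := pB _ (sup_mem fun h4 => hB (cont_eq_zero.1 h4))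
      simp only [W, cont_app, cont_node, c0, raise_zero, c1, add_zero]
      have h3 : x < (cont B + ({1} + {q + 1}) : Multiset ℕ).sup := by
        have := sup_le_of_le (M := cont B) (N := ({1} + {q + 1} : Multiset ℕ))
        omega
      rw [Multiset.count_add, cnt_raise h3, Multiset.count_add, Multiset.count_add, zS x h2, zB x h2,
        one x h1, Multiset.count_singleton]
      omega
  · -- `(Q()S)B`
    apply hgo (q + 1)
    intro x h1 h2
    simp only [W, cont_app, cont_node, c0, raise_zero, c1]
    have h3 : x < ({q + 1} + ({1} + cont S) : Multiset ℕ).sup := by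
      rw [← add_assoc, add_comm]
      have := sup_le_of_le (M := cont S) (N := ({q + 1} + {1} : Multiset ℕ))
      omega
    rw [Multiset.count_add, cnt_raise h3, Multiset.count_add, Multiset.count_add, zS x h2, zB x h2,
      one x h1, Multiset.count_singleton]
    omega
  · -- `(Q)(S)B`
    apply hgo (q + 2)
    intro x h1 h2
    have e6 : W R (ch (q + 1)) B S 15 = app (ch (q + 2)) (S △ B) := rfl
    rw [e6, cont_app, c2, cont_node, Multiset.count_add, Multiset.count_add, rS x h2, zB x h2,
      Multiset.count_singleton]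
    omega
  · -- `S(B)(Q)`
    apply hgo (q + 2)
    intro x h1 h2
    have e6 : W R (ch (q + 1)) B S 16 = app S (B △ ch (q + 2)) := rfl
    rw [e6, cont_app, cont_node, c2, Multiset.count_add, Multiset.count_add, zS x h2, rB x h1 h2,
      Multiset.count_singleton]
    omega
  · -- `Q((S)B)`
    apply hgo (q + 1)
    intro x h1 h2
    simp only [W, cont_app, cont_node, c0, c1, add_zero]
    have h3 : x < (raise (cont S) + cont B : Multiset ℕ).sup := by
      have := sup_le_of_le (M := raise (cont S)) (N := cont B)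
      rw [sup_raise] at this
      omega
    rw [Multiset.count_add, cnt_raise h3, Multiset.count_add, rS x h2, zB x h2, Multiset.count_singleton]
    omega
  · -- `Q()S(B)`
    apply hgo (q + 1)
    intro x h1 h2
    simp only [W, cont_app, cont_node, c0, raise_zero, c1, add_zero, Multiset.count_add, zS x h2,
      rB x h1 h2, one x h1]
    rw [Multiset.count_singleton]
  · -- `(S(B))Q`
    apply hgo (q + 1)
    intro x h1 h2
    have e6 : W R (ch (q + 1)) B S 19 = app S (B △ .nil) △ ch (q + 1) := rfl
    rw [e6, cont_node, cont_app, cont_node, c0, c1, add_zero]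
    have h3 : x < (cont S + raise (cont B) : Multiset ℕ).sup := by
      have := sup_le_of_le (M := cont S) (N := raise (cont B))
      omega
    rw [Multiset.count_add, cnt_raise h3, Multiset.count_add, zS x h2, rB x h1 h2,
      Multiset.count_singleton]
    omega


/-- beads of the twenty words are at height at most 1 -/
theorem _root_.Pool.OddHC.HM.NodeM.vbW (h : NodeM k q R B S) {j : ℕ} (hj : j < 20) :
    vb 1 (W R (ch (q + 1)) B S j) := by
  have nR : nb R := nb_hv (hv_of_cont fun x hx => by have := h.part x hx; omega)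
  have nB : nb B := nb_hv (hv_of_cont fun x hx => by have := h.partB x hx; omega)
  have nS : nb S := nb_hv (hv_of_cont fun x hx => by have := h.partS x hx; omega)
  have nQ : nb (ch (q + 1)) := nb_ch _
  have nQ2 : nb (ch (q + 2)) := nb_ch _
  have nQ3 : nb (ch (q + 3)) := nb_ch _
  have n0 := nb_nil
  have bd : vb 0 (.nil △ .nil : BinaryTree Unit) := vb_tower n0 (n0.vb 0)
  interval_cases j
  · exact vb_app (nR.vb 1) (nQ3.vb 1)
  · exact vb_app (nR.vb 1) (vb_tower n0 (vb_app (nQ.vb 1) (vb_mono bd (by omega))))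
  · exact vb_tower n0 (vb_app (nR.vb 1) (vb_tower n0 (nQ.vb 1)))
  · exact vb_node (vb_app (nR.vb 0) (vb_tower n0 (nQ.vb 0))) (n0.vb 1)
  · exact vb_node (vb_app (nQ.vb 0) bd) (nR.vb 1)
  · exact vb_tower nQ (vb_tower n0 (nR.vb 1))
  · exact vb_tower nR (nQ2.vb 1)
  · exact vb_app (nQ.vb 1) (vb_node (vb_tower n0 (nR.vb 0)) (n0.vb 1))
  · exact vb_app (nQ.vb 1) (vb_tower n0 (vb_tower nR (n0.vb 1)))
  · exact vb_node (vb_tower nR (n0.vb 0)) (nQ.vb 1)
  · exact vb_app (nB.vb 1) (vb_tower nQ2 (nS.vb 1))
  · exact vb_app (nB.vb 1) (vb_tower n0 (vb_app (nQ.vb 1) (vb_tower n0 (nS.vb 1))))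
  · exact vb_tower nS (vb_app (nB.vb 1) (vb_tower n0 (nQ.vb 1)))
  · exact vb_app (nS.vb 1) (vb_node (vb_app (nB.vb 0) (vb_tower n0 (nQ.vb 0))) (n0.vb 1))
  · exact vb_node (vb_app (nQ.vb 0) (vb_tower n0 (nS.vb 0))) (nB.vb 1)
  · exact vb_tower nQ (vb_tower nS (nB.vb 1))
  · exact vb_app (nS.vb 1) (vb_tower nB (nQ2.vb 1))
  · exact vb_app (nQ.vb 1) (vb_node (vb_tower nS (nB.vb 0)) (n0.vb 1))
  · exact vb_app (nQ.vb 1) (vb_tower n0 (vb_app (nS.vb 1) (vb_tower nB (n0.vb 1))))
  · exact vb_node (vb_app (nS.vb 0) (vb_tower nB (n0.vb 0))) (nQ.vb 1)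

/-- start and end of the twenty words -/
theorem ss_W {g0 j : ℕ} (hj : j < 20) (h : InnP g0 (W R (ch (q + 1)) B S j)) :
    j ≠ 1 ∧ j ≠ 2 ∧ (j ≠ 0 → j ≠ 10 → j ≠ 11 → g0 ≤ q + 2) := by
  have en : ∀ (v : List Bool), wd (W R (ch (q + 1)) B S j) = v ++ wd (ch (q + 1)) ++ [false] → g0 ≤ q + 2 := by
    intro v hv
    apply h.stop (n := q + 2) (v := v ++ List.replicate q true)
    rw [hv, wd_ch, List.replicate_succ' (a := true), List.replicate_succ' (n := q + 1)]
    simp
  have st : ∀ (v : List Bool), wd (W R (ch (q + 1)) B S j) = true :: (wd (ch (q + 1)) ++ v) → g0 ≤ q + 2 := by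
    intro v hv
    apply h.start (n := q + 2) (v := List.replicate q false ++ v)
    rw [hv, wd_ch, List.replicate_succ (n := q) (a := false), List.replicate_succ (n := q + 1)]
    simp
  interval_cases j
  · exact ⟨by omega, by omega, fun h0 => absurd rfl h0⟩
  · exfalso
    apply h.not_last (Y := app R (.nil △ ch (q + 1)))
    rw [app_assoc]
    rfl
  · exfalso
    exact h.not_first rfl
  · refine ⟨by omega, by omega, fun _ _ _ => en (true :: (wd R ++ [true, false])) ?_⟩
    simp [W, wd_app, wd_node, wd]
  · refine ⟨by omega, by omega, fun _ _ _ => st ([true, false] ++ false :: wd R) ?_⟩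
    simp [W, wd_app, wd_node, wd]
  · exact ⟨by omega, by omega, fun _ _ _ => start_ch h (n := q + 2) (by omega) (Y := .nil △ R) rfl⟩
  · exact ⟨by omega, by omega, fun _ _ _ => stop_ch h (n := q + 2) (by omega) (Y := R △ .nil) rfl⟩
  · refine ⟨by omega, by omega, fun _ _ _ => ?_⟩
    have := start_ch h (n := q + 1) (by omega) rfl
    omega
  · refine ⟨by omega, by omega, fun _ _ _ => ?_⟩
    have := start_ch h (n := q + 1) (by omega) rfl
    omega
  · refine ⟨by omega, by omega, fun _ _ _ => ?_⟩
    have := stop_ch h (n := q + 1) (by omega) (Y := (R △ .nil) △ .nil) rfl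
    omega
  · exact ⟨by omega, by omega, fun _ h0 => absurd rfl h0⟩
  · exact ⟨by omega, by omega, fun _ _ h0 => absurd rfl h0⟩
  · refine ⟨by omega, by omega, fun _ _ _ => ?_⟩
    have := stop_ch h (n := q + 1) (by omega) (Y := S △ app B (.nil △ .nil)) (by
      change S △ app B (.nil △ ch (q + 1)) = S △ app (app B (.nil △ .nil)) (ch (q + 1))
      rw [app_assoc]
      rfl)
    omega
  · refine ⟨by omega, by omega, fun _ _ _ => en (wd S ++ true :: (wd B ++ [true, false])) ?_⟩
    simp [W, wd_app, wd_node, wd]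
  · refine ⟨by omega, by omega, fun _ _ _ => st ([true, false] ++ wd S ++ false :: wd B) ?_⟩
    simp [W, wd_app, wd_node, wd]
  · exact ⟨by omega, by omega, fun _ _ _ => start_ch h (n := q + 2) (by omega) (Y := S △ B) rfl⟩
  · refine ⟨by omega, by omega, fun _ _ _ => stop_ch h (n := q + 2) (by omega) (Y := app S (B △ .nil)) ?_⟩
    rw [app_assoc]
    rfl
  · refine ⟨by omega, by omega, fun _ _ _ => ?_⟩
    have := start_ch h (n := q + 1) (by omega) rfl
    omega
  · refine ⟨by omega, by omega, fun _ _ _ => ?_⟩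
    have := start_ch h (n := q + 1) (by omega) rfl
    omega
  · refine ⟨by omega, by omega, fun _ _ _ => ?_⟩
    have := stop_ch h (n := q + 1) (by omega) (Y := app S (B △ .nil) △ .nil) rfl
    omega

/-- the content of the words 0 and 10 -/
theorem _root_.Pool.OddHC.HM.NodeM.cont0W (h : NodeM k q R B S) {j : ℕ} (hj : j = 0 ∨ j = 10) :
    cont (W R (ch (q + 1)) B S j) = cont R + {q + 3} := by
  have c3 : cont (ch (q + 3)) = {q + 3} := ch_cont (q + 2)
  rcases hj with rfl | rfl
  · have e : W R (ch (q + 1)) B S 0 = app R (ch (q + 3)) := rfl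
    rw [e, cont_app, c3]
  · have e : W R (ch (q + 1)) B S 10 = app B (app (ch (q + 3)) S) := rfl
    rw [e, cont_app, cont_app, c3, ← h.eq]
    rw [add_comm ({q + 3} : Multiset ℕ), add_assoc]

/-- **the inner words of a bare window are no words of a bare window**, up to words 0, 10 of the same `T`-cycle -/
theorem _root_.Pool.OddHC.HM.NodeM.inner_ne (h : NodeM k q R B S) (h' : NodeM k q' R' B' S')
    (hm : q < q' → q + 3 ∈ cont R) (hm' : q' < q → q' + 3 ∈ cont R') (w0 w0' : X k)
    {i j : ℕ} (hi : i ∈ [0, 1, 3, 6, 8, 9]) (hj : j < 20) (hij : i ≠ 0 ∨ (j ≠ 0 ∧ j ≠ 10)) :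
    TT (wX R B S q w0 i) ≠ wX R' B' S' q' w0' j := by
  intro e
  have hin := (h.inn w0 hi).1
  have hi' : i < 20 := by
    simp only [List.mem_cons, List.not_mem_nil, or_false] at hi
    omega
  have hi10 : i ≠ 10 := by
    simp only [List.mem_cons, List.not_mem_nil, or_false] at hi
    omega
  have hi11 : i ≠ 11 := by
    simp only [List.mem_cons, List.not_mem_nil, or_false] at hi
    omega
  have e1 : (TT (wX R B S q w0 i)).1 = W R' (ch (q' + 1)) B' S' j := by
    rw [e, wX_eq h'.dat h'.size w0' hj]
  obtain ⟨c1, -, -⟩ := h.winn w0 hi (Or.inl rfl)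
  rw [e1] at hin c1
  obtain ⟨s1, s2, s3⟩ := ss_W hj hin
  have htop := h.top
  have hg : q < q' → 1 ≤ (cont R).count (q + 3) := fun g => Multiset.count_pos.2 (hm g)
  have hg' : q' < q → 1 ≤ (cont R').count (q' + 3) := fun g => Multiset.count_pos.2 (hm' g)
  by_cases hi0 : i = 0
  · obtain ⟨j0, j10⟩ := hij.resolve_left (fun h0 => h0 hi0)
    have c2 := h.cont0W (Or.inl hi0)
    have c3 : (cont (W R (ch (q + 1)) B S i)).count (q + 3) = (cont R).count (q + 3) + 1 := by
      rw [c2, Multiset.count_add, Multiset.count_singleton_self]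
    by_cases j11 : j = 11
    · subst j11
      have c4 : (cont (W R (ch (q + 1)) B S i)).count 1 = 0 := by
        rw [c2, Multiset.count_add, Multiset.count_singleton, if_neg (by omega),
          cnt_low h.part (by omega)]
      have c5 : 1 ≤ (cont (W R' (ch (q' + 1)) B' S' 11)).count 1 := by
        simp only [W, cont_app, cont_node, cont_nil, raise_zero, Multiset.count_add,
          Multiset.count_singleton_self]
        omega
      rw [c1, c4] at c5
      omega
    · have h2 := s3 j0 j10 j11
      obtain ⟨e0, h3⟩ := h'.cntW hj j0 j10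
      have h4 := h3 (q + 3) (by omega) (by omega)
      have hg := hg (by omega)
      rw [c1, c3] at h4
      split_ifs at h4 <;> omega
  · have hs : Sml (q + 3) (TT (wX R B S q w0 i)).1 := (h.sml w0 (by
      simp only [List.mem_cons, List.not_mem_nil, or_false] at hi ⊢
      omega)).1
    rw [e1] at hs
    rcases hs with ⟨p, hp, hp2, hp3⟩ | hs
    · have hpc : 1 ≤ (cont (W R' (ch (q' + 1)) B' S' j)).count p := Multiset.count_pos.2 hp
      by_cases j0 : j = 0 ∨ j = 10
      · have c2 := h'.cont0W j0
        have hp' : q' + 3 ≤ p := by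
          rw [c2, Multiset.mem_add, Multiset.mem_singleton] at hp
          rcases hp with hp | hp
          · exact h'.part p hp
          · omega
        obtain ⟨e0, h3⟩ := h.cntW hi' hi0 hi10
        have h4 := h3 (q' + 3) (by omega) (by omega)
        have hg' := hg' (by omega)
        rw [← c1, c2, Multiset.count_add, Multiset.count_singleton_self] at h4
        split_ifs at h4 <;> omega
      · by_cases j11 : j = 11
        · subst j11
          have hl := wX_link h'.dat h'.size w0' (i := 1) (j := 11) (by simp)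
          rw [← hl] at e
          have e2 := TT.injective e
          have e3 : (TT (wX R' B' S' q' w0' 1)).1 = W R (ch (q + 1)) B S i := by
            rw [← e2, wX_eq h.dat h.size w0 hi']
          have hin' := (h'.inn w0' (i := 1) (by simp)).1
          have hs' := (h'.sml w0' (i := 1) (by simp)).1
          obtain ⟨d1, -, -⟩ := h'.winn w0' (i := 1) (by simp) (Or.inl rfl)
          rw [e3] at hin' hs' d1
          obtain ⟨t1, t2, t3⟩ := ss_W hi' hin'
          have t4 := t3 hi0 hi10 hi11
          obtain ⟨e0, h3⟩ := h.cntW hi' hi0 hi10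
          have k1 : 1 ≤ (cont (W R (ch (q + 1)) B S i)).count (q' + 3) := by
            rw [d1]
            exact (hg' (by omega)).trans (count_W (R := R') (B := B') (S := S') (q := q') h'.top 1 (by simp))
          rcases hs' with ⟨p', hp', hp2', hp3'⟩ | hs'
          · have k2 : 1 ≤ (cont (W R (ch (q + 1)) B S i)).count p' := Multiset.count_pos.2 hp'
            have k3 := h3 (q' + 3) (by omega) (by omega)
            have k4 := h3 p' hp2' (by omega)
            split_ifs at k3 k4 <;> omega
          · exact (h.vbW hi').not_hb hs'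
        · have h2 := s3 (fun h0 => j0 (Or.inl h0)) (fun h0 => j0 (Or.inr h0)) j11
          obtain ⟨e0, h3⟩ := h'.cntW hj (fun h0 => j0 (Or.inl h0)) (fun h0 => j0 (Or.inr h0))
          have k1 : 1 ≤ (cont (W R' (ch (q' + 1)) B' S' j)).count (q + 3) := by
            rw [c1]
            exact (hg (by omega)).trans (count_W (R := R) (B := B) (S := S) (q := q) htop i hi)
          have k3 := h3 (q + 3) (by omega) (by omega)
          have k4 := h3 p hp2 (by omega)
          split_ifs at k3 k4 <;> omega
    · exact (h'.vbW hj).not_hb hs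

end H1

open H1 HM

section A0

variable {k : ℕ} {F F' : Set (Cyc k)} {g g' : DG k}

/-- **A0 - A0, inner words** -/
theorem TyA0.inner_A0 (h : TyA0 F g) (h' : TyA0 F' g') (hm : M2 F) (hm' : M2 F')
    (hd : ∀ c ∈ F, c ∉ F') : ∀ p ∈ g.arcs, ∀ w ∈ innA p, w ∉ g'.B := by
  obtain ⟨q, R, B, S, w0, h1, rfl, h2⟩ := h.inn
  obtain ⟨q', R', B', S', w0', h1', hne', rfl, rfl⟩ := h'
  intro p hp w hw hw'
  obtain ⟨i, hi, e⟩ := h2 p hp
  rw [e] at hw
  obtain rfl : w = _ := hw
  obtain ⟨j, hj, ej⟩ := mem_gad20M.1 hw'
  have e2 : Tsq.mirX (wX R' B' S' q' w0' j) = Tsq.mirX (TT (wX R B S q w0 i)) := ej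
  have e3 : TT (wX R B S q w0 i) = wX R' B' S' q' w0' j := by
    have := congrArg Tsq.mirX e2
    rw [mirX_mirX, mirX_mirX] at this
    exact this.symm
  by_cases hij : i ≠ 0 ∨ (j ≠ 0 ∧ j ≠ 10)
  · exact h1.inner_ne h1' (fun _ => hm.mem h1 rfl) (fun _ => hm'.mem h1' rfl) w0 w0' hi hj hij e3
  · have hi0 : i = 0 := by
      by_contra h0
      exact hij (Or.inl h0)
    have hj0 : j = 0 ∨ j = 10 := by
      by_contra h0
      exact hij (Or.inr ⟨fun h3 => h0 (Or.inl h3), fun h3 => h0 (Or.inr h3)⟩)
    subst hi0
    have k1 := NodeM.cyc0 h1 w0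
    have k2 : cyc (Tsq.mirX (TT (wX R B S q w0 0))) = cyc (mX R' B' S' q' w0' 0) := by
      rw [← ej]
      rcases hj0 with rfl | rfl
      · rfl
      · exact (cyc_eq.2 (h1'.same10 w0')).symm
    exact hd _ rfl (by rw [← k1, k2]; rfl)

end A0

end Pool.OddHC
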