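import Pool.Agent.Work.MP_8f87b2_h58.TyR3w
import Pool.Agent.Work.MP_8f87b2_h58.Full3

/-!
# MP_8f87b2_co: the bare T-cycles with both parts `3` in one hole

`SameH z`: coordinates `v`, `f = 2 δ_y`. `same_ex`: a phase `w = R[3]` with `MaxR R`; `same_cases`: `TyR3c {cyc w}` or
`TyR3w {cyc w, cyc t}`, `t = ()R()()`. `MaxR_inj`: the T-cycle of `R` determines the T-cycle of `z`.
-/

set_option autoImplicit false
set_option linter.all false

namespace Pool.OddHC
open Finset Equiv BinaryTree Pool.Agent.Work.MP_8f87b2_co HM Pool.OddHop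
variable {k : ℕ} {F F' : Set (Cyc k)} {g g' : DG k}

/-- both parts `3` in one hole -/
def SameH (t : BinaryTree Unit) : Prop :=
  ∃ (n : ℕ) (v : X n) (y : ZMod (2 * n + 1)), 1 ≤ n ∧
    t = inf (inf (ins v.1 (lf (fun x => if x = y then 2 else 0))))

/-- one part `3`, in the last hole -/
def MaxR (t : BinaryTree Unit) : Prop :=
  ∃ (n : ℕ) (v : X n), 1 ≤ n ∧
    t = inf (inf (ins v.1 (lf (fun x : ZMod (2 * n + 1) => if x = -1 then 1 else 0))))

theorem zero_ne_m1 {n : ℕ} (hn : 1 ≤ n) : (0 : ZMod (2 * n + 1)) ≠ -1 := by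
  intro h
  have h1 : ((1 : ℕ) : ZMod (2 * n + 1)) = 0 := by
    have : (1 : ZMod (2 * n + 1)) = 0 := by
      have h2 := congrArg (· + 1) h
      simpa using h2
    exact_mod_cast this
  rw [ZMod.natCast_eq_zero_iff] at h1
  have := Nat.le_of_dvd (by norm_num) h1
  omega

theorem MaxR.st {R : BinaryTree Unit} (h : MaxR R) : ¬ St3 R := by
  obtain ⟨n, v, hn, rfl⟩ := h
  intro h
  have := st3_coord h
  rw [if_neg (zero_ne_m1 hn)] at this
  omega

theorem MaxR.count {R : BinaryTree Unit} (h : MaxR R) : (cont R).count 3 = 1 := by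
  obtain ⟨n, v, hn, rfl⟩ := h
  rw [count3_coord]
  simp

theorem MaxR.min {R : BinaryTree Unit} (h : MaxR R) : ∀ x ∈ cont R, 3 ≤ x := by
  obtain ⟨n, v, hn, rfl⟩ := h
  intro x hx
  rw [cont_inf2] at hx
  obtain ⟨y, hy, rfl⟩ := Multiset.mem_map.1 hx
  have := cont_pos _ y hy
  omega

theorem MaxR.ne {R : BinaryTree Unit} (h : MaxR R) : R ≠ .nil := by
  intro e
  have := h.count
  rw [e] at this
  simp [cont] at this

/-- **a phase `R[3]`** -/
theorem same_ex (z : X k) (h : SameH z.1) : ∃ (w : X k) (R : BinaryTree Unit),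
    cyc w = cyc z ∧ w.1 = app R (pc 3) ∧ MaxR R := by
  obtain ⟨n, v, y, hn, hz⟩ := h
  obtain ⟨i, hi⟩ := exists_sp hn v (y + 1)
  have e1 := pow_coord hz i
  have e2 : (fun x : ZMod (2 * n + 1) => (fun x => if x = y then 2 else 0) (x + sp v i)) =
      fun x => if x = -1 then 2 else 0 := by
    funext x
    simp only [hi]
    by_cases hx : x = -1
    · rw [if_pos hx, if_pos (by rw [hx]; ring)]
    · rw [if_neg hx, if_neg]
      intro e
      apply hx
      have : x = (x + (y + 1)) - y - 1 := by ring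
      rw [this, e]
      ring
  rw [e2, end_coord _ _ (by simp)] at e1
  refine ⟨(TT ^ i) z, _, cyc_eq.2 (Perm.SameCycle.symm ⟨i, by rw [zpow_natCast]⟩), e1, n, (TT ^ i) v, hn, ?_⟩
  have e3 : (fun x : ZMod (2 * n + 1) => (if x = -1 then 2 else 0) - if x = -1 then 1 else 0) =
      fun x => if x = -1 then 1 else 0 := by
    funext x
    by_cases hx : x = -1
    · simp [hx]
    · simp [hx]
  rw [e3]

/-- `z` is not a fixed point -/
theorem MaxR.not_fixed {R : BinaryTree Unit} (h : MaxR R) {w : X k} (hw : w.1 = app R (pc 3)) : TT w ≠ w := by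
  intro hf
  have hR := h.ne
  have hst := h.st
  obtain ⟨n, v, hn, hR'⟩ := h
  have key : app (inf (inf (ins v.1 (lf (fun x : ZMod (2 * n + 1) => if x = -1 then 1 else 0))))) (pc 3) =
      inf (inf (ins v.1 (lf (fun x : ZMod (2 * n + 1) =>
        (if x = -1 then 1 else 0) + if x = -1 then 1 else 0)))) := by
    rw [ins_back v (fun x => if x = -1 then 1 else 0), inf_app, inf_app]
    rfl
  have h6 : ∀ m : ℕ, (TT ^ m) w = w := by
    intro m
    induction m with
    | zero => rfl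
    | succ m ih => rw [pow_succ', Perm.mul_apply, ih, hf]
  have hw' := hw
  rw [hR', key] at hw'
  obtain ⟨i, hi⟩ := exists_sp hn v (-1)
  have h8 := pow_coord hw' i
  rw [h6 i] at h8
  have h9 : St3 w.1 := by
    rw [h8]
    apply coord_st3
    simp only [zero_add]
    rw [hi]
    simp
  rw [hw] at h9
  exact hst (st3_app hR h9)

/-- **`R` determines `z`** -/
theorem MaxR_inj {j : ℕ} {r r' : X j} (h : MaxR r.1) (h' : MaxR r'.1) (hc : cyc r = cyc r') {w w' : X k}
    (hw : w.1 = app r.1 (pc 3)) (hw' : w'.1 = app r'.1 (pc 3)) : cyc w = cyc w' := by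
  obtain ⟨n, v, hn, hr⟩ := h
  obtain ⟨m, hm⟩ := sameCycle_nat (cyc_eq.1 hc)
  have h1 := pow_coord hr m
  rw [hm] at h1
  obtain ⟨n', v', hn', hr'⟩ := h'
  rw [hr'] at h1
  obtain ⟨rfl, h2, h3⟩ := coord_inj h1
  have hv' := eq_of_heq h2
  have hf2 := congrFun (eq_of_heq h3) (-1)
  have hsp : sp v m = 0 := by
    simp only [if_true] at hf2
    by_contra hne
    rw [if_neg] at hf2
    · omega
    · intro e
      apply hne
      have : sp v m = (-1 + sp v m) + 1 := by ring
      rw [this, e]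
      ring
  have e1 : ∀ g : ZMod (2 * n' + 1) → ℕ, (fun x => g (x + sp v m)) = g := by
    intro g
    funext x
    rw [hsp, add_zero]
  have key : ∀ (v : X n'), app (inf (inf (ins v.1 (lf (fun x : ZMod (2 * n' + 1) => if x = -1 then 1 else 0)))))
      (pc 3) = inf (inf (ins v.1 (lf (fun x : ZMod (2 * n' + 1) =>
        (if x = -1 then 1 else 0) + if x = -1 then 1 else 0)))) := by
    intro v
    rw [ins_back v (fun x => if x = -1 then 1 else 0), inf_app, inf_app]
    rfl
  rw [hr, key] at hw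
  rw [hr', key] at hw'
  have h8 := pow_coord hw m
  rw [e1 (fun x => (if x = -1 then 1 else 0) + if x = -1 then 1 else 0), ← hv', ← hw'] at h8
  exact cyc_eq.2 ⟨m, by rw [zpow_natCast]; exact Subtype.ext h8⟩

/-- **the T-cycles of `U()()()` and `()U()()` are different** -/
theorem pile_ne {j : ℕ} (hj : 1 ≤ j) (u : X j) {a b : X k} (ha : a.1 = app (inf u.1) (lp 3))
    (hb : b.1 = .nil △ (app (inf u.1) (lp 2))) : ¬ TT.SameCycle a b := by
  intro h
  have e0 : inf u.1 = ins u.1 (lf (fun _ : ZMod (2 * j + 1) => 0)) := by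
    rw [inf]
    congr 1
    rw [lf]
    apply List.ext_getElem
    · simp [X_num]
    · intro i h1 h2
      simp
  have key : ∀ f : ZMod (2 * j + 1) → ℕ, app (ins u.1 (lf f)) (.nil △ .nil) =
      ins u.1 (lf (fun x => f x + if x = -1 then 1 else 0)) := fun f => (ins_back u f).symm
  have l3 : ∀ t : BinaryTree Unit, app t (lp 3) = app (app (app t (.nil △ .nil)) (.nil △ .nil)) (.nil △ .nil) := by
    intro t
    rw [H1.app_assoc, H1.app_assoc]
    rfl
  have l2 : ∀ t : BinaryTree Unit, app t (lp 2) = app (app t (.nil △ .nil)) (.nil △ .nil) := by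
    intro t
    rw [H1.app_assoc]
    rfl
  rw [l3, e0, key, key, key] at ha
  rw [l2, e0, key, key, ← ins_front] at hb
  obtain ⟨m, hm⟩ := sameCycle_nat h
  obtain ⟨f, hf, hp⟩ := pow_ins u (e := _) (lf_length _) ha
  have h1 := hp m
  rw [hm, hb] at h1
  have h2 := congrArg red h1
  rw [red_ins _ _ (by rw [lf_length, X_num]), red_ins _ _ (by rw [lf_length, X_num]), Prod.mk.injEq] at h2
  have h3 := congrFun (lf_inj h2.2) 0
  have h4 := lf_inj hf
  rw [← h4] at h3
  simp only [zero_add, if_true, if_neg (zero_ne_m1 hj)] at h3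
  split at h3 <;> omega

/-- the words `z = R[3]`, `t = ()R()()`: the gadget `R3w` if `B = [3]` -/
theorem MaxR.tyw {R : BinaryTree Unit} (h : MaxR R) {w t : X k} (hw : w.1 = app R (pc 3))
    (ht' : t.1 = .nil △ (app R (lp 2))) (htop : 3 < OddHC.ht w.1) (hB : (Tsq.sq R).2 = pc 3) :
    ∃ g : DG k, TyR3w {cyc w, cyc t} g := by
  have hmem : 3 ∈ cont R := Multiset.count_pos.1 (by rw [h.count]; norm_num)
  have hRtop : 3 < OddHC.ht R := by
    rw [ht_eq, hw, cont_app, cont_pc, Multiset.sup_add, Multiset.sup_singleton, ← ht_eq] at htop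
    rcases lt_sup_iff.1 htop with h5 | h5
    · exact h5
    · omega
  obtain ⟨h1, h0⟩ := nodeM_word (q := 0) hw h.min hmem hRtop
  have hS : 3 ∉ cont (Tsq.sq R).1 := by
    intro h6
    let x : X R.numNodes := ⟨R, mem_treesOfNumNodesEq.2 rfl⟩
    have e2 : (TT (TT x)).1 = app (Tsq.sq R).2 (Tsq.sq R).1 := Tsq.TT_sq x h.ne
    have e3 : cont (TT (TT x)).1 = cont R := by
      rw [TT_apply, cont_TF, TT_apply, cont_TF]
    rw [e2, cont_app, hB, cont_pc] at e3
    have e4 := congrArg (Multiset.count 3) e3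
    rw [Multiset.count_add, Multiset.count_singleton_self, h.count] at e4
    have := Multiset.count_pos.2 h6
    omega
  have hd : R3wD k R (Tsq.sq R).2 (Tsq.sq R).1 := ⟨h1, hB, hS, h.st, h1.not_St3⟩
  have e2 : H1.wX R (Tsq.sq R).2 (Tsq.sq R).1 0 w 2 = t := by
    apply Subtype.ext
    rw [h1.rW w (by norm_num), ht']
    rfl
  have e1 : (H1.wX R (Tsq.sq R).2 (Tsq.sq R).1 0 w 1).1 = app R (lp 3) := by
    rw [h1.rW w (by norm_num)]
    rfl
  refine ⟨gadR3w (H1.wX R (Tsq.sq R).2 (Tsq.sq R).1 0 w), R, _, _, w, hd, ?_, by rw [h0 w, e2], rfl⟩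
  obtain ⟨n, v, hn, hR⟩ := h
  obtain ⟨u, hu⟩ : ∃ u, u = inf (ins v.1 (lf (fun x : ZMod (2 * n + 1) => if x = -1 then 1 else 0))) := ⟨_, rfl⟩
  rw [← hu] at hR
  obtain ⟨u1, hu1⟩ : ∃ u1 : X u.numNodes, u1.1 = u := ⟨⟨u, mem_treesOfNumNodesEq.2 rfl⟩, rfl⟩
  have hj : 1 ≤ u.numNodes := by
    rcases Nat.eq_zero_or_pos u.numNodes with h5 | h5
    · exfalso
      cases hu' : u with
      | nil =>
        rw [hR, hu'] at hRtop
        have : OddHC.ht (inf (BinaryTree.nil : BinaryTree Unit)) = 0 := rfl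
        omega
      | node _ A B =>
        rw [hu'] at h5
        simp at h5
    · exact h5
  rw [e2]
  refine pile_ne hj u1 (a := H1.wX R (Tsq.sq R).2 (Tsq.sq R).1 0 w 1) (b := t) ?_ ?_
  · rw [hu1, ← hR]; exact e1
  · rw [hu1, ← hR]; exact ht'

/-- the window `TyR3c` if not `B = [3]` -/
theorem MaxR.ty3 {R : BinaryTree Unit} (h : MaxR R) {w : X k} (hw : w.1 = app R (pc 3))
    (htop : 3 < OddHC.ht w.1) (hB : (Tsq.sq R).2 ≠ pc 3) : ∃ g : DG k, TyR3c {cyc w} g := by
  have hmem : 3 ∈ cont R := Multiset.count_pos.1 (by rw [h.count]; norm_num)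
  have hRtop : 3 < OddHC.ht R := by
    rw [ht_eq, hw, cont_app, cont_pc, Multiset.sup_add, Multiset.sup_singleton, ← ht_eq] at htop
    rcases lt_sup_iff.1 htop with h5 | h5
    · exact h5
    · omega
  exact TyR3c.ex_word hw h.min hmem hRtop h.st (fun h5 => hB h5.1) (h.not_fixed hw)

end Pool.OddHC
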