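import Pool.Agent.Work.MP_8f87b2_h38.PartDnV
import Pool.Agent.Work.MP_8f87b2_h58.R3wEx

/-!
# MP_8f87b2_co: bare T-cycles `z = U[3]` with the guest `()U()()` of the class `(V; 0, 3)`

`PV.part_pairw`, `PV.dn_allw`: as `PV.part_pair`, `PV.dn_all` of helper38 with `t = ()U()()`.
-/

set_option autoImplicit false

namespace Pool.OddHC.PV

open Finset BinaryTree Multiset Pool.OddHop Pool.OddHC

variable {i j j2 k : ℕ}

variable {τ : Type} {P : τ → Set (Cyc k) → DG k → Prop} {V : Cyc j2}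

theorem inf_lf58 {j : ℕ} (u : X j) : inf u.1 = ins u.1 (lf (fun _ : ZMod (2 * j + 1) => 0)) := by
  rw [inf]
  congr 1
  rw [lf]
  apply List.ext_getElem
  · simp [X_num]
  · intro i h1 h2
    simp

/-- the words `z = U[3]`, `t = ()U()()` over `U = inf (inf v)` -/
theorem dn_two (v : X j2) (hv : cyc v = V) (hk : j2 + 2 * pkc V + 3 = k) :
    ∃ (u0 : X (j2 + pkc V)) (z t : X k),
      z.1 = app (inf (inf v.1)) (pc 3) ∧ t.1 = .nil △ (app (inf (inf v.1)) (lp 2)) ∧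
      Rd (cyc t) = ⟨j2 + pkc V, cyc u0⟩ ∧ Rd (cyc u0) = ⟨j2, V⟩ ∧ cl (cyc t) ∈ vcl k V 0 ∧
      1 ∉ contc (cyc z) ∧ 2 ∉ contc (cyc z) := by
  obtain ⟨u0, u, z, t, y, hz, ht, hy, hRt, hR0, hct, hRy, hR1, hcy, hz1, hz2⟩ := dn_three v hv hk
  have hp : pkn v.1 = pkc V := by rw [← pkc_cyc, hv]
  have hi : (inf v.1).numNodes = j2 + pkc V := by rw [inf_num38, hp, X_num]
  have hii : (inf (inf v.1)).numNodes = j2 + 2 * pkc V := by
    rw [inf_num38, hi, inf_pkn38, hp]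
    ring
  have hk' : (.nil △ (app (inf (inf v.1)) (lp 2)) : BinaryTree Unit).numNodes = k := by
    change 0 + (app (inf (inf v.1)) (lp 2)).numNodes + 1 = k
    rw [num_app, lp_num, hii]
    omega
  obtain ⟨t', ht'⟩ : ∃ a : X k, a.1 = .nil △ (app (inf (inf v.1)) (lp 2)) :=
    ⟨⟨_, mem_treesOfNumNodesEq.2 hk'⟩, rfl⟩
  obtain ⟨u1, hu1⟩ : ∃ a : X (j2 + pkc V), a.1 = inf v.1 := ⟨⟨_, mem_treesOfNumNodesEq.2 hi⟩, rfl⟩
  have hR1' : Rd (cyc u1) = ⟨j2, V⟩ := by
    have h5 := Rd_ins (u := v) (e := List.replicate (2 * j2 + 1) 0) (by simp) (w := u1)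
      (by rw [hu1, inf, X_num])
    rwa [hv] at h5
  have key : ∀ f : ZMod (2 * (j2 + pkc V) + 1) → ℕ, app (ins u1.1 (lf f)) (.nil △ .nil) =
      ins u1.1 (lf (fun x => f x + if x = -1 then 1 else 0)) := fun f => (ins_back u1 f).symm
  have l2 : ∀ t : BinaryTree Unit, app t (lp 2) = app (app t (.nil △ .nil)) (.nil △ .nil) := by
    intro t
    rw [H1.app_assoc]
    rfl
  have e1 := ht'
  rw [← hu1, inf_lf58 u1, l2, key, key, ← ins_front] at e1
  have hRt' : Rd (cyc t') = ⟨j2 + pkc V, cyc u1⟩ := Rd_ins (lf_length _) e1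
  exact ⟨u1, z, t', hz, ht', hRt', hR1', (vcl_iff hRt' hR1').2 rfl, hz1, hz2⟩

/-- **PART, `j` even: the group `{z, t}`**, `t = ()U()()`; the class of `z` and the class `(V; 0, 3)` -/
theorem part_pairw (v : X j2) (hv : cyc v = V) (hk : j2 + 2 * pkc V + 3 = k)
    (env : ∀ p0 : Cyc k, Rd (Rd p0).2 = ⟨j2, V⟩ → ClsEnv (AEP P) P P (cl p0)) (ho : oddF (j2 + pkc V) 3)
    (dty : ∀ z t : X k, z.1 = app (inf (inf v.1)) (pc 3) → t.1 = .nil △ (app (inf (inf v.1)) (lp 2)) →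
      Typd P P {cyc z, cyc t}) :
    ∃ z : X k, z.1 = app (inf (inf v.1)) (pc 3) ∧
      ClsReg P ({cl (cyc z)} ∪ vcl k V 0 : Set (RD × Multiset ℕ)) := by
  obtain ⟨u0, z, t, hz, ht, hRt, hR0, hct, hz1, hz2⟩ := dn_two v hv hk
  refine ⟨z, hz, {{cyc z, cyc t}}, ?_, ?_, ?_⟩
  · rintro F hF
    rw [Set.mem_singleton_iff] at hF
    subst hF
    refine ⟨⟨_, Or.inl rfl⟩, dty z t hz ht, ?_⟩
    rintro c (rfl | rfl)
    · exact Or.inl rfl
    · exact Or.inr hct
  · rintro F hF F' hF' c _ _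
    rw [Set.mem_singleton_iff] at hF hF'
    rw [hF, hF']
  · rw [inG_single]
    rintro p0 (hp0 | hp0)
    · have e : p0 = cyc z := cl_single hz1 hz2 hp0
      subst e
      exact ⟨∅, ∅, cls_inX hz1 hz2 (Or.inl rfl)⟩
    · refine cls_t0 (m := 3) (by norm_num) hk env ho hRt hR0 (fun h => absurd h (by norm_num)) hp0 ?_
      intro q hq
      constructor
      · rintro (rfl | rfl)
        · exact absurd hq (vcl_ne_bare (m := 3) (by norm_num) (by omega) hp0 hz1)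
        · rfl
      · rintro rfl
        exact Or.inr rfl

/-- **one bare T-cycle `z = U[3]` with all classes over `V`**, `M = 3`, both parities; odd case with `t = ()U()()` -/
theorem dn_allw (v : X j2) (hv : cyc v = V) (h1 : 1 ≤ pkc V) (hk : j2 + 2 * pkc V + 3 = k)
    (env : ∀ p0 : Cyc k, Rd (Rd p0).2 = ⟨j2, V⟩ → ClsEnv (AEP P) P P (cl p0))
    (dty : ¬ oddF (j2 + pkc V) 3 → ∀ F g, TyC 2 (inf (inf v.1)) F g → Typd P P F)
    (dtyw : oddF (j2 + pkc V) 3 → (∀ z t : X k, z.1 = app (inf (inf v.1)) (pc 3) →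
      t.1 = .nil △ (app (inf (inf v.1)) (lp 2)) → Typd P P {cyc z, cyc t}) ∧ NodeW k V (Typd P P) 1 1) :
    ∃ z : X k, z.1 = app (inf (inf v.1)) (pc 3) ∧
      ClsReg P ({cl (cyc z)} ∪ {κ | κ.1 = (⟨j2, V⟩ : RD)}) := by
  by_cases ho : oddF (j2 + pkc V) 3
  · obtain ⟨h, hw⟩ := dtyw ho
    obtain ⟨z, hz, h2⟩ := part_pairw v hv hk env ho h
    have h3 := part_win (P := P) (V := V) 1 1 le_rfl le_rfl (by omega) env hw
    have hz1 : 1 ∉ contc (cyc z) := by
      rw [contc_cyc, hz, cont_app, cont_pc]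
      intro h4
      rcases Multiset.mem_add.1 h4 with h5 | h5
      · have := inf2_min v.1 _ h5
        omega
      · have := Multiset.mem_singleton.1 h5
        omega
    refine ⟨z, hz, over_three hk ?_⟩
    refine (h2.union h3 ?_).congr ?_
    · rintro κ (hκ | hκ) hκ'
      · rw [Set.mem_singleton_iff] at hκ
        rw [hκ] at hκ'
        exact vcl_ne_bare (m := 1) (by norm_num) (by omega) hκ' hz1 rfl
      · exact vcl_no (by norm_num) hκ hκ'
    · intro p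
      constructor
      · rintro ((h4 | h4) | h4)
        · exact Or.inl h4
        · exact Or.inr (Or.inl h4)
        · exact Or.inr (Or.inr h4)
      · rintro (h4 | h4 | h4)
        · exact Or.inl (Or.inl h4)
        · exact Or.inl (Or.inr h4)
        · exact Or.inr h4
  · obtain ⟨z, hz, h2⟩ := part_dn3 v hv h1 hk env dty (fun h => absurd h ho)
    exact ⟨z, hz, over_three hk h2⟩

end Pool.OddHC.PV

namespace Pool.OddHC

open Finset BinaryTree Multiset Pool.OddHop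

variable {j2 k : ℕ} {τ : Type} {P : τ → Set (Cyc k) → DG k → Prop} {V : Cyc j2}

/-- the type of the group `{z, t}` for `MaxR (inf (inf v))`, `B = [3]` -/
theorem MaxR.dtyw {v : X j2} (h : MaxR (inf (inf v.1))) (hB : (Tsq.sq (inf (inf v.1))).2 = pc 3)
    (hin : ∀ F g, TyR3w F g → Typd P P F) (z t : X k) (hz : z.1 = app (inf (inf v.1)) (pc 3))
    (ht : t.1 = .nil △ (app (inf (inf v.1)) (lp 2))) (htop : 3 < htc (cyc z)) : Typd P P {cyc z, cyc t} := by
  obtain ⟨g, hg⟩ := h.tyw hz ht (by rwa [htc_cyc] at htop) hB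
  exact hin _ g hg

end Pool.OddHC
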