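import Pool.Agent.Work.MP_8f87b2_h58.TyR3w
import Pool.Agent.Work.MP_8f87b2_fin.MatZ
import Pool.Agent.Work.MP_8f87b2_fin.MatIRq

/-!
# MP_8f87b2_co: rows of the type R3w (word matrix), part 1

`TyR3w.nc`: all rows of `TyRq 0` transfer. Rows E, Ed, K, Cr, Cl by hand (no `ClR`).
-/

set_option autoImplicit false
set_option linter.all false

namespace Pool.OddHC

open Finset Equiv BinaryTree Pool.Agent.Work.MP_8f87b2_co HM

variable {k : ℕ} {F F' : Set (Cyc k)} {g g' : DG k} {q : ℕ} {R B S U X : BinaryTree Unit}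

/-- words and arcs of R3w are words and arcs of a gadget `TyRq 0` -/
theorem TyR3w.toRq (h : TyR3w F g) : ∃ (c : Cyc k) (g1 : DG k), c ∈ F ∧ TyRq 0 {c} g1 ∧ (∀ w ∈ g.B, w ∈ g1.B) ∧
    ∀ p ∈ g.arcs, p ∈ g1.arcs := by
  obtain ⟨R, B, S, w0, h1, h12, rfl, rfl⟩ := h
  refine ⟨_, gad20 (H1.wX R B S 0 w0), Or.inl rfl, ⟨R, B, S, w0, h1.node, h1.hne w0, rfl, rfl⟩, ?_, ?_⟩
  · intro w hw
    obtain ⟨i, hi, -, -, -, rfl⟩ := memR3w.1 hw
    exact mem_gad20.2 ⟨i, hi, rfl⟩
  · intro p hp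
    rw [gadR3w, mem_gadOf_arcs] at hp
    obtain ⟨⟨i, j⟩, hq, rfl⟩ := hp
    simp only [arR3w, List.mem_cons, Prod.mk.injEq, List.not_mem_nil, or_false] at hq
    rcases hq with ⟨rfl, rfl⟩ | ⟨rfl, rfl⟩ | ⟨rfl, rfl⟩ | ⟨rfl, rfl⟩ | ⟨rfl, rfl⟩
    · exact Or.inr (Or.inl rfl)
    · exact Or.inr (Or.inr (Or.inl rfl))
    · exact Or.inr (Or.inr (Or.inr (Or.inl rfl)))
    · exact Or.inr (Or.inr (Or.inr (Or.inr (Or.inl rfl))))
    · exact Or.inr (Or.inr (Or.inr (Or.inr (Or.inr rfl))))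

/-- **transfer of word rows** -/
theorem TyR3w.nc (h : TyR3w F g) (row : ∀ (c : Cyc k) (g1 : DG k), c ∈ F → TyRq 0 {c} g1 → ∀ w ∈ g1.B, w ∉ g'.B) :
    ∀ w ∈ g.B, w ∉ g'.B := by
  obtain ⟨c, g1, hc, h1, hB, -⟩ := h.toRq
  exact fun w hw => row c g1 hc h1 w (hB w hw)

/-- **transfer of inner rows** (inner words of R3w) -/
theorem TyR3w.ni (h : TyR3w F g)
    (row : ∀ (c : Cyc k) (g1 : DG k), c ∈ F → TyRq 0 {c} g1 → ∀ p ∈ g1.arcs, ∀ w ∈ innA p, w ∉ g'.B) :
    ∀ p ∈ g.arcs, ∀ w ∈ innA p, w ∉ g'.B := by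
  obtain ⟨c, g1, hc, h1, -, ha⟩ := h.toRq
  exact fun p hp => row c g1 hc h1 p (ha p hp)

/-- **transfer of inner rows** (inner words of another gadget against the words of R3w) -/
theorem TyR3w.ino (h : TyR3w F g) {G : DG k}
    (row : ∀ (c : Cyc k) (g1 : DG k), c ∈ F → TyRq 0 {c} g1 → ∀ p ∈ G.arcs, ∀ w ∈ innA p, w ∉ g1.B) :
    ∀ p ∈ G.arcs, ∀ w ∈ innA p, w ∉ g.B := by
  obtain ⟨c, g1, hc, h1, hB, -⟩ := h.toRq
  exact fun p hp w hw hw' => row c g1 hc h1 p hp w hw (hB w hw')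

/-- the words are different -/
theorem R3wD.ne_top (h : R3wD k R B S) (w0 : OddHC.X k) {i j : ℕ} (hi : i < 20) (hj : j < 20) (hij : i ≠ j) :
    H1.W R (pc 1) B S i ≠ H1.W R (pc 1) B S j := by
  intro e
  apply hij
  apply h.node.rinj w0 (h.hne w0) i hi j hj
  apply Subtype.ext
  rw [h.node.rW w0 hi, h.node.rW w0 hj]
  exact e

/-- the data over `R` alone -/
theorem R3wD.gR (h : R3wD k R B S) : A0D 0 R .nil R where
  hv := h.node.a0d3.hv
  memw := h.node.a0d3.memw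
  top := h.node.a0d3.top
  eq := by rw [cont_nil, zero_add]
  hS := rfl

theorem R3wD.clR (h : R3wD k R B S) : ClR .nil R :=
  ⟨h.stR, fun e => by
    have := congrArg numNodes e.1
    simp [pc_num] at this⟩

/-! ### E -/

theorem R3wD.low45 (h : R3wD k R B S) : ¬ LowX (S △ app B (.nil △ .nil)) ∧ ¬ LowX ((S △ B) △ .nil) := by
  have g := h.node.a0d3
  have hS : 0 + 3 < ht S := by rw [g.hS]; exact g.top
  have hB3 : 3 ∈ cont B := by rw [h.hB, cont_pc]; simp
  have m2 : 3 ∈ raise (cont S) + cont B := Multiset.mem_add.2 (Or.inr hB3)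
  refine ⟨?_, ?_⟩
  · intro h
    have := h.not (by
      rw [cont_node, cont_app, ← add_assoc]
      exact Multiset.mem_add.2 (Or.inl m2)) (Fnb.node g.S_ne)
    omega
  · intro h
    have := h.not (by
      rw [cont_node, cont_nil, add_zero, cont_node]
      refine mem_raise m2 ?_
      rw [sup_add', sup_raise, ← ht_eq, ← ht_eq]
      omega) (Fnb.node (by simp))
    rw [ht_node] at this
    omega

/-- no word of an E triple is a word of the gadget -/
theorem R3wD.rlow (h : R3wD k R B S) (hX : X ≠ .nil) (hl : LowX X) (w0 : OddHC.X k) {i : ℕ} (hi : i < 20)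
    (h16 : i ≠ 16) (h18 : i ≠ 18) (h19 : i ≠ 19)
    (e : (H1.wX R B S 0 w0 i).1 = w1 .nil X .nil ∨ (H1.wX R B S 0 w0 i).1 = w1 X .nil .nil ∨
      (H1.wX R B S 0 w0 i).1 = w1 .nil .nil X) : False := by
  have hX' : Tsq.mir X ≠ .nil := mir_ne hX
  have e' : aw (Tsq.mir R) (pc (0 + 1)) (Tsq.mir B) (Tsq.mir S) i = w1 .nil (Tsq.mir X) .nil ∨
      aw (Tsq.mir R) (pc (0 + 1)) (Tsq.mir B) (Tsq.mir S) i = w1 .nil .nil (Tsq.mir X) ∨
      aw (Tsq.mir R) (pc (0 + 1)) (Tsq.mir B) (Tsq.mir S) i = w1 (Tsq.mir X) .nil .nil := by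
    rw [h.node.rword w0 hi] at e
    rcases e with e | e | e
    · left
      have := eq_mirR e
      rwa [mirR_w1] at this
    · right; left
      have := eq_mirR e
      rwa [mirR_w1] at this
    · right; right
      have := eq_mirR e
      rwa [mirR_w1] at this
  have key := (show _ ∨ _ ∨ _ from by
    rcases e' with e | e | e
    · exact aw_E h.node.a0d hi hX' e
    · exact aw_E2 h.node.a0d hi hX' e
    · exact aw_E1 h.node.a0d hi hX' e)
  have h0 : Tsq.mir (pc 1) = pc 1 := mir_pc 1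
  obtain ⟨r1, r2⟩ := low_rR h.node.a0d3 h.stR
  obtain ⟨l1, l2, l3, -⟩ := low_r0 h.gR h.clR
  obtain ⟨l4, l5⟩ := h.low45
  rcases key with ⟨hi', h1⟩ | ⟨hB, hi', h1⟩ | ⟨-, h1⟩
  · have h2 := eq_mirR h1
    rw [Tsq.mir_app, Tsq.mir_node, Tsq.mir_mir, h0, app_assoc'] at h2
    have h3 : X = app R (.nil △ pc 1) := h2
    rw [h3] at hl
    exact r1 hl
  · exact h.Bne (eq_mirR hB)
  · rcases h1 with ⟨hi', h1⟩ | ⟨hi', h1⟩ | ⟨hi', h1⟩ | ⟨hi', h1⟩ | ⟨hi', h1⟩ | ⟨hi', h1⟩ | ⟨hi', h1⟩ | ⟨hi', h1⟩ <;>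
    have h2 := eq_mirR h1 <;>
    simp only [Tsq.mir_app, Tsq.mir_node, Tsq.mir_mir, mirR_nil, app_assoc', app] at h2
    · rw [h2] at hl; exact absurd hl r2
    · rw [h2] at hl; exact absurd hl l1
    · rw [h2] at hl; exact absurd hl l2
    · rw [h2] at hl; exact absurd hl l3
    · rw [h2] at hl; exact absurd hl l4
    · rw [h2] at hl; exact absurd hl l5
    · exact absurd hi' h18
    · exact absurd hi' h19

/-- **row R3w - E** (all E triples, deep ones included) -/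
theorem TyR3w.disj_E (h : TyR3w F g) (h' : TyE F' g') : ∀ w ∈ g.B, w ∉ g'.B := by
  obtain ⟨X, hX, ht, hl⟩ := h'.low
  intro w hw hw'
  obtain ⟨R, B, S, w0, i, h1, hi, h16, h18, h19, rfl, -, -⟩ := h.words w hw
  refine h1.rlow hX hl w0 hi h16 h18 h19 ?_
  rcases ht.words _ hw' with e1 | ⟨_, e1 | e1⟩
  · exact Or.inl e1
  · exact Or.inr (Or.inl e1)
  · exact Or.inr (Or.inr e1)

/-! ### K -/

theorem R3wD.wK (h : R3wD k R B S) (w0 : OddHC.X k) (hU : KSh U) {i : ℕ} (hi : i < 20)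
    (h16 : i ≠ 16) (h18 : i ≠ 18) (h19 : i ≠ 19) :
    H1.W R (pc 1) B S i ≠ w1 .nil U (pc 1) ∧ H1.W R (pc 1) B S i ≠ w1 U (pc 1) .nil ∧
    H1.W R (pc 1) B S i ≠ w1 (pc 1) .nil U := by
  have hc : U ≠ R △ .nil := fun e => hU.cleanR h.gR h.clR (Or.inl e)
  have hn := hU.ne
  refine ⟨fun e => ?_, fun e => ?_, fun e => ?_⟩
  · rcases W_K h.node.a0d3 hi hn e with e1 | e1 | e1
    · exact hc e1
    · apply h.ne_top w0 hi (by norm_num) h19
      rw [e, e1]
      rfl
    · exact h.Bne e1.1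
  · rcases W_K1 h.node.a0d3 hi hn e with e1 | e1 | e1
    · exact hc e1
    · apply h.ne_top w0 hi (by norm_num) h16
      rw [e, e1]
      change app (app S (B △ .nil)) (pc 1 △ .nil) = app S (B △ (pc 1 △ .nil))
      rw [app_assoc']
      rfl
    · exact h.Bne e1.1
  · rcases W_K2 h.node.a0d3 hi hn e with e1 | e1 | e1
    · exact hc e1
    · apply h.ne_top w0 hi (by norm_num) h18
      rw [e, e1]
      rfl
    · exact h.Bne e1.1

/-- **row R3w - K** -/
theorem TyR3w.disj_K (h : TyR3w F g) (hU : KSh U) (h' : TyK U F' g') : ∀ w ∈ g.B, w ∉ g'.B := by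
  intro w hw hw'
  obtain ⟨R, B, S, w0, i, h1, hi, h16, h18, h19, rfl, -, -⟩ := h.words w hw
  obtain ⟨k1, k2, k3⟩ := h1.wK w0 hU hi h16 h18 h19
  rcases IsTri.words h' _ hw' with e1 | ⟨_, e1 | e1⟩ <;> rw [h1.node.rW w0 hi] at e1
  · exact k1 e1
  · exact k2 e1
  · exact k3 e1

/-- **row R3w - Km** -/
theorem TyR3w.disj_Km (h : TyR3w F g) (hU : KmSh U) (h' : TyK' U F' g') : ∀ w ∈ g.B, w ∉ g'.B := by
  intro w hw hw'
  obtain ⟨R, B, S, w0, i, h1, hi, h16, h18, h19, rfl, -, -⟩ := h.words w hw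
  obtain ⟨k1, k2, k3⟩ := W_KmSh h1.node.a0d3 hU hi
  rcases IsTri.words h' _ hw' with e1 | ⟨_, e1 | e1⟩ <;> rw [h1.node.rW w0 hi] at e1
  · exact k1 e1
  · exact k2 e1
  · exact k3 e1

/-! ### content links -/

/-- **row R3w - Cr** (`c` odd, the host does not start with a bead) -/
theorem R3wD.r_Cr (h : R3wD k R B S) (w0 : OddHC.X k) {i c : ℕ}
    (hi : i < 20) (h' : TyC c U F' g') (hc : 3 ≤ c) (hU : c + 1 ≤ ht U)
    (hp : ∀ x ∈ cont U, x = 1 ∨ c + 1 ≤ x) (hf : H1.fb U = false) : H1.wX R B S 0 w0 i ∉ g'.B := by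
  have ha := h.node.a0dR
  obtain ⟨c, rfl⟩ : ∃ m, c = m + 3 := ⟨c - 3, by omega⟩
  have hw : comps (H1.wX R B S 0 w0 i).1 = rl R B S i := by rw [h.node.rW w0 hi, comps_rl hi]
  have hbad : ¬ (B = pc (c + 3) ∧ U = .nil △ (.nil △ S)) := by
    rintro ⟨-, e2⟩
    rw [e2] at hf
    exact absurd hf (by simp [H1.fb, H1.isNil])
  have f1 : comps (H1.ch (c + 3)) = [pc (c + 2)] := by rw [H1.ch_eq]; rfl
  have f2 : comps (.nil : BinaryTree Unit) = [] := rfl
  refine tri_not h' ?_ ?_ ?_ <;> intro e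
  · rw [e, comps_w1, f1, f2, List.nil_append] at hw
    exact hbad (cr0 ha hi hU hp hw.symm)
  · rw [e, comps_w1, f2, H1.ch_eq] at hw
    exact hbad (cr1 ha hi hU hp hw.symm)
  · rw [e, comps_w1, f1, List.cons_append, List.nil_append] at hw
    exact hbad (cr2 ha hi hU hp hw.symm)

theorem TyR3w.disj_Cr (h : TyR3w F g) {c : ℕ} (h' : TyC c U F' g') (hc : 3 ≤ c) (hU : c + 1 ≤ ht U)
    (hp : ∀ x ∈ cont U, x = 1 ∨ c + 1 ≤ x) (hf : H1.fb U = false) : ∀ w ∈ g.B, w ∉ g'.B := by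
  intro w hw
  obtain ⟨R, B, S, w0, i, h1, hi, -, -, -, rfl, -, -⟩ := h.words w hw
  exact h1.r_Cr w0 hi h' hc hU hp hf

theorem cl2w (h : A0D 0 R B S) {i c : ℕ} (hi : i < 20) (hU : c + 3 ≤ ht U) (hc1 : c ≠ 1)
    (hp : 1 ≤ c → ∀ x ∈ cont U, x = 1 ∨ c + 3 ≤ x)
    (h0 : i ≠ 0) (h10 : i ≠ 10) (h1 : i ≠ 1) (h11 : i ≠ 11) (hS3 : ¬ St3 S)
    (e : rl R B S i = pc (c + 2) :: comps U) : False := by
  obtain ⟨⟨r, R1, R2, r', hr, hr', hr0, hr0'⟩, ⟨s0, S1, S2, s1, hs', hs1, hs0, hs0'⟩, hB⟩ := h.dat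
  have hr1 := lo_ne_nil hr0
  have hr1' := lo_ne_nil hr0'
  have hs2 := lo_ne_nil hs0
  have hs2' := lo_ne_nil hs0'
  have e2 : lp 2 = .nil △ (.nil △ .nil) := rfl
  have p1 : pc 1 = .nil △ .nil := rfl
  have p2 : pc 2 = (.nil △ .nil) △ .nil := rfl
  have pp : pc (c + 2) = (pc c △ .nil) △ .nil := rfl
  have R0 := h.R_ne
  have S0 := h.S_ne
  have u1 : U ≠ .nil := by rintro rfl; rw [ht] at hU; omega
  have u2 : comps U ≠ [] := comps_ne u1
  have c8 : ∀ Y : BinaryTree Unit, app Y (.nil △ (.nil △ .nil)) ≠ .nil := by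
    intro Y
    cases Y <;> simp [app]
  have c9 : ∀ Y : BinaryTree Unit, app S (Y △ .nil) ≠ .nil := by
    intro Y
    exact app_ne' (by simp)
  have len : ∀ {a b : List (BinaryTree Unit)}, a = b → a.length = b.length := fun e => by rw [e]
  have big : ∀ {n : ℕ}, (∀ A ∈ (comps U).reverse, ht A + 1 ≤ n) → c + 3 ≤ n := fun hh =>
    hU.trans (r3_low (fun A hA => hh A (List.mem_reverse.2 hA)))
  have b1 : 1 ≤ c → (BinaryTree.nil △ BinaryTree.nil : BinaryTree Unit) ∈ (comps U).reverse → False := by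
    intro h0 hh
    have h2 : 2 ∈ cont U := mem_comps (List.mem_reverse.1 hh) (by
      change 2 ∈ raise (cont (pc 1)); rw [raise_pc]; exact Multiset.mem_singleton_self _)
    have := hp h0 2 h2
    omega
  have b4 : 1 ≤ c → 3 ∉ cont U := by
    intro h0 h2
    have := hp h0 3 h2
    omega
  have hBS : ht B ≤ ht S := by
    rw [h.hS, OddHC.ht_eq, OddHC.ht_eq, ← h.eq, Multiset.sup_add]
    exact le_sup_left
  have bigf : ∀ {n : ℕ}, (∀ A ∈ comps U, ht A + 1 ≤ n) → c + 3 ≤ n := fun hh =>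
    hU.trans (r3_low hh)
  have st : s0 = (pc c △ .nil) △ .nil → 1 ≤ c := by
    intro h5
    by_contra h6
    have h7 : c = 0 := by omega
    subst h7
    apply hS3
    cases S with
    | nil => exact absurd rfl S0
    | node u A D =>
      have h8 : A :: comps D = s0 :: S1 := hs'
      exact ⟨D, by rw [(List.cons.inj h8).1, h5]; rfl⟩
  have nR : ∀ a ∈ comps R, a ≠ .nil := fun a ha => lo_ne_nil (h.hv.all a ha)
  have nB : ∀ a ∈ comps B, a ≠ .nil := fun a ha => lo_ne_nil (h.hvB.all a ha)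
  have nS : ∀ a ∈ comps S, a ≠ .nil := fun a ha => lo_ne_nil (h.hvS.all a ha)
  have k3 : 1 ≤ c → ∀ A, 3 ∈ raise (cont A) → A ∈ (comps U).reverse → False := fun h0 A h1 h2 =>
    b4 h0 (mem_comps (List.mem_reverse.1 h2) h1)
  have kp : 1 ≤ c → 3 ∉ raise (cont (pc (c + 2))) := by
    intro h0
    rw [raise_pc, Multiset.mem_singleton]
    omega
  have k4 : 3 ∈ cont S → 3 ∈ raise (cont (.nil △ (.nil △ S))) := by
    intro hh
    have h5 : 3 ∈ cont (.nil △ (.nil △ S)) := by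
      rw [cont_node, cont_node, Multiset.mem_add, Multiset.mem_add]
      exact Or.inr (Or.inr hh)
    apply mem_raise h5
    rw [← OddHC.ht_eq]
    have h6 := h.topSr3
    simp only [ht]
    omega
  have e4 := congrArg List.reverse e
  have e0 := e
  rcases hB with hB | ⟨b, B1, B2, b', hBn, hb, hb', hb0, hb0'⟩
  · subst hB
    have m3 : 3 ∈ cont S := by
      rcases r3_mem h with hh | hh
      · exact absurd hh (by rw [cont_nil]; simp)
      · exact hh
    interval_cases i <;>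
      simp [rl, hr', hs1, comps, hr1', hs2', R0, S0, p1, p2, e2, u1, u1.symm, u2, u2.symm, c8, c9, pp] at e4 <;>
      simp [rl, hr, hs', comps, hr1, hs2, R0, S0, p1, p2, e2, u1, u1.symm, u2, u2.symm, c8, c9, pp] at e <;>
      simp only [rl] at e0
    all_goals try (exfalso; rw [← e.1] at hU; simp [ht] at hU; done)
    all_goals try (exfalso; rw [← e.2] at hU; simp [ht] at hU; done)
    all_goals try (exfalso; have e7 := len e.2; simp at e7; done)
    all_goals try (exfalso; have e7 := len e.2; simp at e7; omega)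
    all_goals try (exfalso; have e7 := len e4.2; simp at e7; done)
    all_goals try (exfalso; have e7 := len e4.2; simp at e7; omega)
    all_goals try (exfalso; have e7 := congrArg comps e4.1; rw [comps_app] at e7; have e8 := len e7; simp [comps] at e8; done)
    all_goals try (exfalso; rw [← e4.2] at big; have e7 := big (n := 2); simp [ht] at e7; done)
    all_goals try (exfalso; rw [← e.2] at bigf; have e7 := bigf (n := 2); simp [ht] at e7; done)
    · have hc0 := st e.1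
      obtain ⟨A, hA, hx⟩ := r3_comps m3
      rw [hs', List.mem_cons] at hA
      rcases hA with hA | hA
      · rw [hA, e.1] at hx
        exact kp hc0 hx
      · exact k3 hc0 A hx (by rw [← e.2]; simp [hA])
    · have hc0 := st e.1
      exact b1 hc0 (by rw [← e.2]; simp)

  · have hb1 := lo_ne_nil hb0
    have hb1' := lo_ne_nil hb0'
    interval_cases i <;>
      simp [rl, hr', hs1, hb', comps, hr1', hs2', hb1', R0, S0, p1, p2, e2, u1, u1.symm, u2, u2.symm, c8, c9, pp] at e4 <;>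
      simp [rl, hr, hs', hb, comps, hr1, hs2, hb1, R0, S0, p1, p2, e2, u1, u1.symm, u2, u2.symm, c8, c9, pp] at e <;>
      simp only [rl] at e0
    all_goals try (exfalso; rw [← e.1] at hU; simp [ht] at hU; done)
    all_goals try (exfalso; rw [← e.2] at hU; simp [ht] at hU; done)
    all_goals try (exfalso; have e7 := len e.2; simp at e7; done)
    all_goals try (exfalso; have e7 := len e.2; simp at e7; omega)
    all_goals try (exfalso; have e7 := len e4.2; simp at e7; done)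
    all_goals try (exfalso; have e7 := len e4.2; simp at e7; omega)
    all_goals try (exfalso; have e7 := congrArg comps e4.1; rw [comps_app] at e7; have e8 := len e7; simp [comps] at e8; done)
    all_goals try (exfalso; rw [← e4.2] at big; have e7 := big (n := 2); simp [ht] at e7; done)
    all_goals try (exfalso; rw [← e.2] at bigf; have e7 := bigf (n := 2); simp [ht] at e7; done)
    · have h5 : ht S = c + 2 := by rw [e.1]; change ht (pc (c + 2)) = c + 2; rw [ht_pc]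
      have e7 : comps U = comps (app B (.nil △ (.nil △ .nil))) := by
        rw [comps_app, ← e.2, hb]; rfl
      rw [comps_inj e7, ht_app] at hU
      simp only [ht] at hU hBS
      have h6 := h.topSr3
      omega
    · have hc0 := st e.1
      by_cases m3 : 3 ∈ cont S
      · obtain ⟨A, hA, hx⟩ := r3_comps m3
        rw [hs', List.mem_cons] at hA
        rcases hA with hA | hA
        · rw [hA, e.1] at hx
          exact kp hc0 hx
        · exact k3 hc0 A hx (by rw [← e.2]; simp [hA])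
      · have m4 : 3 ∈ cont B := by
          rcases r3_mem h with hh | hh
          · exact hh
          · exact absurd hh m3
        by_cases hh : B = pc 3
        · have h7 : app (pc 3) (.nil △ (.nil △ .nil)) ∈ comps U := by
            rw [← e.2, hh]; simp
          have h8 : 4 ∈ cont U := mem_comps h7 (by
            rw [cont_app, cont_pc]
            unfold raise
            rw [Multiset.mem_cons]
            left
            rw [sup_add']
            simp [cont_node, cont_nil, raise_zero])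
          have := hp hc0 4 h8
          omega
        · exact k3 hc0 _ (r3_pile h.hvB m4 hh) (by rw [← e.2]; simp)
    · have hc0 := st e.1
      exact b1 hc0 (by rw [← e.2]; simp)



namespace HM

/-- **Cl**, `c` even: the only common words are `[3]U` with `U` the word 1 or 11 without its first component -/
theorem NodeM.r_Clw {c : ℕ} (h : NodeM k 0 R B S) (hS3 : ¬ St3 S) (w0 : OddHC.X k)
    {i : ℕ} (hi : i < 20) (h' : TyC' c U F' g') (hc : 2 ≤ c) (hc3 : c ≠ 3) (hU : c + 1 ≤ ht U)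
    (hp : 3 ≤ c → ∀ x ∈ cont U, x = 1 ∨ c + 1 ≤ x) (hz : cyc (H1.wX R B S 0 w0 0) ∉ F')
    (hw : H1.wX R B S 0 w0 i ∈ g'.B) :
    (i = 1 ∨ i = 11) ∧ cyc (H1.wX R B S 0 w0 i) ∈ F' ∧ c = 2 ∧ 3 < ht U ∧
      ∃ P Q : List (BinaryTree Unit), (∀ A ∈ P ++ Q, lo 0 A = 0) ∧
        comps U = P ++ (.nil :: .nil :: .nil :: Q) := by
  have ha := h.a0dR
  obtain ⟨c, rfl⟩ : ∃ m, c = m + 2 := ⟨c - 2, by omega⟩
  have hw' : comps (H1.wX R B S 0 w0 i).1 = rl R B S i := by rw [h.rW w0 hi, comps_rl hi]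
  have hp' : 1 ≤ c → ∀ x ∈ cont U, x = 1 ∨ c + 3 ≤ x := fun h0 => hp (by omega)
  have hc1 : c ≠ 1 := by omega
  have f1 : comps (H1.ch (c + 2)) = [pc (c + 1)] := by rw [H1.ch_eq]; rfl
  have f2 : comps (.nil : BinaryTree Unit) = [] := rfl
  have hbad : ¬ (c = 0 ∧ B = .nil ∧ U = S) := by
    rintro ⟨e0, e1, e2⟩
    subst e0
    obtain ⟨a, b, d, h1, h2, h3, h4, h5, h6, h7, h8⟩ := h'
    apply hz
    have e3 : d = H1.wX R B S 0 w0 10 := by
      apply Subtype.ext
      rw [h3, h.rW w0 (by norm_num)]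
      apply comps_inj
      rw [comps_rl (by norm_num), comps_w1, e1, e2, H1.ch_eq]
      rfl
    rw [h7, cyc_eq.2 (h.rsame10 w0), ← e3]
    exact Or.inr rfl
  rcases h'.words _ hw with e | ⟨hF, e | e⟩
  · exfalso
    rw [e, comps_w1, f1, f2] at hw'
    exact hbad (cl0 ha hi hU hc1 hp' hw'.symm)
  · exfalso
    rw [e, comps_w1, f1] at hw'
    exact hbad (cl1 ha hi hU hc1 hp' hw'.symm)
  · rw [e, comps_w1, f2, List.nil_append, H1.ch_eq] at hw'
    have h0 : i ≠ 0 := by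
      rintro rfl
      exact hz hF
    have h10 : i ≠ 10 := by
      rintro rfl
      rw [← cyc_eq.2 (h.rsame10 w0)] at hF
      exact hz hF
    by_cases h1 : i = 1 ∨ i = 11
    · obtain ⟨q1, q2, q3⟩ := cl3 ha h1 hp' hw'.symm
      exact ⟨h1, hF, by omega, q2, q3⟩
    · exfalso
      exact cl2w ha hi hU hc1 hp' h0 h10 (fun hh => h1 (Or.inl hh)) (fun hh => h1 (Or.inr hh)) hS3 hw'.symm


end HM

/-- **row R3w - Cl** (`c` even) -/
theorem TyR3w.disj_Cl (h : TyR3w F g) {c : ℕ} (h' : TyC' c U F' g') (hc : 2 ≤ c) (hc3 : c ≠ 3)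
    (hU : c + 1 ≤ ht U) (hp : 3 ≤ c → ∀ x ∈ cont U, x = 1 ∨ c + 1 ≤ x) (hN : c = 2 → NoT U)
    (hd : ∀ c ∈ F, c ∉ F') : ∀ w ∈ g.B, w ∉ g'.B := by
  intro w hw hw'
  obtain ⟨R, B, S, w0, i, h1, hi, -, -, -, rfl, hm, -⟩ := h.words w hw
  obtain ⟨-, -, h2, h3, P, Q, h4, h5⟩ := h1.node.r_Clw h1.stS w0 hi h' hc hc3 hU hp (hd _ hm) hw'
  rcases hN h2 with h6 | h6
  · omega
  · exact h6 P Q h4 h5

end Pool.OddHC
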