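import Pool.Agent.Work.MP_8f87b2_h13.TyRq
import Pool.Agent.Work.MP_8f87b2_h58.GadR3w

/-!
# MP_8f87b2_co: TYPE R3w

The bare T-cycles `z = Y[3][3]` with both `3` in one hole, `R = Y[3]`, `B = [3]`, grouped with the guest `cyc w2`, `w2 = ()R()()`:
seventeen words 0..15, 17 of the right window (the words 16, 18, 19 over `S[4]` are not used), arcs 1 > 11, 3 > 12, 6 > 15, 8 > 14,
9 > 17.
-/

set_option autoImplicit false
set_option linter.all false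

namespace Pool.OddHC
open Finset Equiv BinaryTree Pool.Agent.Work.MP_8f87b2_co HM
variable {k : ℕ} {F F' : Set (Cyc k)} {g g' : DG k} {q : ℕ} {R B S : BinaryTree Unit}

/-- the data of a word of type R3w -/
structure R3wD (k : ℕ) (R B S : BinaryTree Unit) : Prop where
  node : NodeM k 0 R B S
  hB : B = pc 3
  hS : 3 ∉ cont S
  stR : ¬ St3 R
  stS : ¬ St3 S

/-- TYPE R3w -/
def TyR3w (F : Set (Cyc k)) (g : DG k) : Prop :=
  ∃ (R B S : BinaryTree Unit) (w0 : X k), R3wD k R B S ∧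
    ¬ TT.SameCycle (H1.wX R B S 0 w0 1) (H1.wX R B S 0 w0 2) ∧
    F = {cyc (H1.wX R B S 0 w0 0), cyc (H1.wX R B S 0 w0 2)} ∧
    g = gadR3w (H1.wX R B S 0 w0)

theorem memR3w {w : ℕ → X k} {x : X k} :
    x ∈ (gadR3w w).B ↔ ∃ i < 20, i ≠ 16 ∧ i ≠ 18 ∧ i ≠ 19 ∧ w i = x := by
  rw [gadR3w, mem_gadOf_B]
  constructor
  · rintro ⟨i, hi, rfl⟩
    have : i < 20 ∧ i ≠ 16 ∧ i ≠ 18 ∧ i ≠ 19 := by
      have key : ∀ i ∈ ixR3w, i < 20 ∧ i ≠ 16 ∧ i ≠ 18 ∧ i ≠ 19 := by decide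
      exact key i hi
    exact ⟨i, this.1, this.2.1, this.2.2.1, this.2.2.2, rfl⟩
  · rintro ⟨i, hi, h1, h2, h3, rfl⟩
    refine ⟨i, ?_, rfl⟩
    interval_cases i <;> first | (exact absurd rfl h1) | (exact absurd rfl h2) | (exact absurd rfl h3) | decide

theorem R3wD.Bne (h : R3wD k R B S) : B ≠ .nil := by
  rw [h.hB]
  intro e
  have := congrArg numNodes e
  simp [pc_num] at this

theorem R3wD.Rne (h : R3wD k R B S) : R ≠ .nil := h.node.ne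

/-- `w0` and `w10` are different words -/
theorem R3wD.hne (h : R3wD k R B S) (w0 : X k) : H1.wX R B S 0 w0 0 ≠ H1.wX R B S 0 w0 10 := by
  intro e
  have e1 := congrArg Subtype.val e
  rw [h.node.rW w0 (by norm_num), h.node.rW w0 (by norm_num)] at e1
  have h1 : H1.W R (pc (0 + 1)) B S 0 = app R (pc 3) := by
    rfl
  have h2 : H1.W R (pc (0 + 1)) B S 10 = app B (pc 2 △ S) := by
    rfl
  rw [h1, h2, h.hB] at e1
  apply h.stR
  obtain ⟨A, C, hR⟩ : ∃ A C, R = A △ C := by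
    cases hR : R with
    | nil => exact absurd hR h.Rne
    | node _ A C => exact ⟨A, C, rfl⟩
  rw [hR] at e1 ⊢
  refine ⟨C, ?_⟩
  have e2 : A △ (app C (pc 3)) = pc 2 △ (pc 2 △ S) := e1
  rw [(H1.node_inj e2).1]

/-- old words -/
theorem R3wD.hold (h : R3wD k R B S) (w0 : X k) {i : ℕ} (hi : i < 20) (i0 : i ≠ 0) (i1 : i ≠ 1)
    (i2 : i ≠ 2) (i10 : i ≠ 10) (i11 : i ≠ 11) :
      ¬ TT.SameCycle (H1.wX R B S 0 w0 0) (H1.wX R B S 0 w0 i) ∧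
      ¬ TT.SameCycle (H1.wX R B S 0 w0 2) (H1.wX R B S 0 w0 i) := by
  obtain ⟨a, -, b⟩ := holdR h.node w0 (fun hB => absurd hB h.Bne) i hi i0 i1 i2 i10 i11
  exact ⟨a, b⟩

theorem R3wD.h01 (h : R3wD k R B S) (w0 : X k) : ¬ TT.SameCycle (H1.wX R B S 0 w0 0) (H1.wX R B S 0 w0 1) :=
  fun e => h.node.h01 w0 (same_mX.2 e)

theorem R3wD.h02 (h : R3wD k R B S) (w0 : X k) : ¬ TT.SameCycle (H1.wX R B S 0 w0 0) (H1.wX R B S 0 w0 2) :=
  fun e => h.node.h02 w0 (same_mX.2 e)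

theorem R3wD.holdAll (h : R3wD k R B S) (w0 : X k)
    (h12 : ¬ TT.SameCycle (H1.wX R B S 0 w0 1) (H1.wX R B S 0 w0 2)) {i : ℕ} (hi : i < 20) (i0 : i ≠ 0)
    (i2 : i ≠ 2) (i10 : i ≠ 10) :
      ¬ TT.SameCycle (H1.wX R B S 0 w0 0) (H1.wX R B S 0 w0 i) ∧
      ¬ TT.SameCycle (H1.wX R B S 0 w0 2) (H1.wX R B S 0 w0 i) := by
  by_cases i1 : i = 1
  · subst i1
    exact ⟨h.h01 w0, fun e => h12 e.symm⟩
  by_cases i11 : i = 11
  · subst i11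
    have h11 := h.node.rsame11 w0
    exact ⟨fun e => h.h01 w0 (e.trans h11.symm), fun e => h12 (h11.trans e.symm)⟩
  exact h.hold w0 hi i0 i1 i2 i10 i11

theorem TyR3w.hF (h : TyR3w F g) : ∀ w, w ∈ g.F ↔ cyc w ∈ F := by
  obtain ⟨R, B, S, w0, h1, h12, rfl, rfl⟩ := h
  intro w
  rw [gadR3w, mem_gadOf_F]
  constructor
  · rintro ⟨c, hc, e⟩
    have hc' : c = 2 ∨ c = 0 := by
      simpa [sgR3w, prR3w] using hc
    rcases hc' with rfl | rfl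
    · exact Or.inr (cyc_eq.2 e).symm
    · exact Or.inl (cyc_eq.2 e).symm
  · rintro (e | e)
    · exact ⟨0, by simp [sgR3w, prR3w], (cyc_eq.1 e).symm⟩
    · exact ⟨2, by simp [sgR3w, prR3w], (cyc_eq.1 e).symm⟩

theorem TyR3w.new (h : TyR3w F g) : ∀ c ∈ F, ∃ u ∈ g.B, cyc u = c := by
  obtain ⟨R, B, S, w0, h1, h12, rfl, rfl⟩ := h
  rintro c (rfl | rfl)
  · exact ⟨_, memR3w.2 ⟨0, by norm_num, by norm_num, by norm_num, by norm_num, rfl⟩, rfl⟩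
  · exact ⟨_, memR3w.2 ⟨2, by norm_num, by norm_num, by norm_num, by norm_num, rfl⟩, rfl⟩

theorem TyR3w.old (h : TyR3w F g) : ∃ u ∈ g.B, cyc u ∉ F := by
  obtain ⟨R, B, S, w0, h1, h12, rfl, rfl⟩ := h
  refine ⟨_, memR3w.2 ⟨3, by norm_num, by norm_num, by norm_num, by norm_num, rfl⟩, ?_⟩
  obtain ⟨a, b⟩ := h1.hold w0 (i := 3) (by norm_num) (by norm_num) (by norm_num) (by norm_num) (by norm_num)
    (by norm_num)
  rintro (e | e)
  · exact a (cyc_eq.1 e).symm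
  · exact b (cyc_eq.1 e).symm

theorem TyR3w.abs (h : TyR3w F g) : g.Abs := by
  obtain ⟨R, B, S, w0, h1, h12, rfl, rfl⟩ := h
  have e := h1.node.dat.num
  have es := h1.node.size
  have key : ∀ i ∈ ixR3w, i < 20 := by decide
  apply gadR3w_abs (R := R) (Q := H1.ch (0 + 1)) (B := B) (S := S)
    (by rw [H1.ch_num]; omega) (by rw [H1.ch_num]; omega)
    (fun i hi => by rw [H1.wX_eq h1.node.dat h1.node.size w0 (key i hi), H1.W_w20 _ _ _ _ i (key i hi)])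
    (fun i hi j hj e => h1.node.rinj w0 (h1.hne w0) i (key i hi) j (key j hj) e)
  · intro p hp
    have hp' : p = (0, 10) := by simpa [prR3w] using hp
    subst hp'
    exact h1.node.rsame10 w0
  · intro i hi j hj e
    have hi' : i = 2 ∨ i = 0 := by simpa [sgR3w, prR3w] using hi
    have hj' : j = 2 ∨ j = 0 := by simpa [sgR3w, prR3w] using hj
    rcases hi' with rfl | rfl <;> rcases hj' with rfl | rfl
    · rfl
    · exact absurd e.symm (h1.h02 w0)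
    · exact absurd e (h1.h02 w0)
    · rfl
  · intro i hi j hj
    have hi' : i = 2 ∨ i = 0 := by simpa [sgR3w, prR3w] using hi
    have key2 : ∀ j ∈ odR3w, j < 20 ∧ j ≠ 0 ∧ j ≠ 2 ∧ j ≠ 10 := by decide
    obtain ⟨j1, j2, j3, j4⟩ := key2 j hj
    obtain ⟨a, b⟩ := h1.holdAll w0 h12 j1 j2 j3 j4
    rcases hi' with rfl | rfl
    · exact b
    · exact a

/-- both T-cycles of the group have the same height -/
theorem TyR3w.htg (h : TyR3w F g) : ∀ c ∈ F, ∀ d ∈ F, htc c = htc d := by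
  obtain ⟨R, B, S, w0, h1, h12, rfl, rfl⟩ := h
  have key : ∀ c ∈ ({cyc (H1.wX R B S 0 w0 0), cyc (H1.wX R B S 0 w0 2)} :
      Set (Cyc k)), htc c = ht R := by
    rintro c (rfl | rfl)
    · rw [htc_cyc, ← ht_wX, h1.node.ht012 w0 (Or.inl rfl)]
    · rw [htc_cyc, ← ht_wX, h1.node.ht012 w0 (Or.inr (Or.inr rfl))]
  intro c hc d hd
  rw [key c hc, key d hd]

/-- rank: every old word is strictly higher, or one of the words 1, 11 with the content of `cyc w2`, or one of the words 4, 5, 13, and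
`Lower` than the bare T-cycle -/
theorem TyR3w.rank (h : TyR3w F g) : ∀ w ∈ g.B, cyc w ∈ F ∨ (∀ c ∈ F, htc c < htc (cyc w)) ∨
    ∃ (R B S : BinaryTree Unit) (w0 : X k) (i : ℕ), R3wD k R B S ∧
      F = {cyc (H1.wX R B S 0 w0 0), cyc (H1.wX R B S 0 w0 2)} ∧
      (i = 1 ∨ i = 11 ∨ i = 4 ∨ i = 5 ∨ i = 13) ∧
      w = H1.wX R B S 0 w0 i ∧ H1.Lower (contc (cyc w)) (contc (cyc (H1.wX R B S 0 w0 0))) := by
  have hg := h.htg
  obtain ⟨R, B, S, w0, h1, h12, rfl, rfl⟩ := h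
  intro w hw
  obtain ⟨i, hi, i16, i18, i19, rfl⟩ := memR3w.1 hw
  by_cases i0 : i = 0
  · left; rw [i0]; exact Or.inl rfl
  by_cases i2 : i = 2
  · left; rw [i2]; exact Or.inr rfl
  by_cases i10 : i = 10
  · left; rw [i10]; exact Or.inl (cyc_eq.2 (h1.node.rsame10 w0).symm)
  by_cases hi2 : i = 1 ∨ i = 11 ∨ i = 4 ∨ i = 5 ∨ i = 13
  · right; right
    exact ⟨R, B, S, w0, i, h1, rfl, hi2, rfl, h1.node.rrank w0 i hi i0 i10⟩
  · right; left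
    intro c hc
    have h2 := h1.node.htB w0 i hi (by omega)
    have h3 := hg c hc (cyc (H1.wX R B S 0 w0 0)) (Or.inl rfl)
    rw [h3, htc_cyc, htc_cyc, ← ht_wX, ← ht_wX, h1.node.ht012 w0 (Or.inl rfl)]
    exact h2

theorem TyR3w.arc (h : TyR3w F g) : ∀ a ∈ g.arcs, ∃ (R B S : BinaryTree Unit) (w0 : X k) (i j : ℕ),
    R3wD k R B S ∧ F = {cyc (H1.wX R B S 0 w0 0), cyc (H1.wX R B S 0 w0 2)} ∧
      g = gadR3w (H1.wX R B S 0 w0) ∧
      (i, j) ∈ [(1, 11), (3, 12), (6, 15), (8, 14), (9, 17)] ∧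
      a = (H1.wX R B S 0 w0 i, H1.wX R B S 0 w0 j) := by
  obtain ⟨R, B, S, w0, h1, h12, rfl, rfl⟩ := h
  intro p hp
  rw [gadR3w, mem_gadOf_arcs] at hp
  obtain ⟨⟨i, j⟩, hq, rfl⟩ := hp
  exact ⟨R, B, S, w0, i, j, h1, rfl, rfl, hq, rfl⟩

theorem TyR3w.path (h : TyR3w F g) : ∀ a ∈ g.arcs, ∃ n : ℕ, (TT ^ (n + 1)) a.1 = a.2 ∧ a.1 ∈ g.B ∧
    ∀ i < n, (TT ^ (i + 1)) a.1 ∈ innA a := by
  intro p hp
  obtain ⟨R, B, S, w0, i, j, h1, -, rfl, hij, rfl⟩ := h.arc p hp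
  have key : ∀ i j, (i, j) ∈ [(1, 11), (3, 12), (6, 15), (8, 14), (9, 17)] →
      (i, j) ∈ [(0, 10), (1, 11), (3, 12), (6, 15), (8, 14), (9, 17)] ∧ i < 20 ∧ i ≠ 16 ∧ i ≠ 18 ∧ i ≠ 19 := by
    intro i j h
    simp only [List.mem_cons, Prod.mk.injEq, List.not_mem_nil, or_false] at h ⊢
    omega
  obtain ⟨k1, k2, k3, k4, k5⟩ := key i j hij
  refine ⟨1, ?_, memR3w.2 ⟨i, k2, k3, k4, k5, rfl⟩, ?_⟩
  · rw [pow_succ, pow_one, Perm.mul_apply]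
    exact h1.node.rlink w0 k1
  · intro n hn
    obtain rfl : n = 0 := by omega
    rw [pow_one]
    rfl

/-- every word of an R3w gadget is a word of a right window -/
theorem TyR3w.words (h : TyR3w F g) : ∀ w ∈ g.B, ∃ (R B S : BinaryTree Unit) (w0 : X k) (i : ℕ),
    R3wD k R B S ∧ i < 20 ∧ i ≠ 16 ∧ i ≠ 18 ∧ i ≠ 19 ∧ w = H1.wX R B S 0 w0 i ∧
      cyc (H1.wX R B S 0 w0 0) ∈ F ∧ cyc (H1.wX R B S 0 w0 2) ∈ F := by
  obtain ⟨R, B, S, w0, h1, h12, rfl, rfl⟩ := h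
  intro w hw
  obtain ⟨i, hi, h16, h18, h19, rfl⟩ := memR3w.1 hw
  exact ⟨R, B, S, w0, i, h1, hi, h16, h18, h19, rfl, Or.inl rfl, Or.inr rfl⟩

/-- the inner words: `T` of the words 1, 3, 6, 8, 9 -/
theorem TyR3w.inn (h : TyR3w F g) : ∀ a ∈ g.arcs, ∃ (R B S : BinaryTree Unit) (w0 : X k) (i : ℕ),
    R3wD k R B S ∧ i ∈ [1, 3, 6, 8, 9] ∧ a.1 = H1.wX R B S 0 w0 i ∧
      cyc (H1.wX R B S 0 w0 0) ∈ F ∧ cyc (H1.wX R B S 0 w0 2) ∈ F := by
  intro p hp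
  obtain ⟨R, B, S, w0, i, j, h1, rfl, -, hij, rfl⟩ := h.arc p hp
  refine ⟨R, B, S, w0, i, h1, ?_, rfl, Or.inl rfl, Or.inr rfl⟩
  simp only [List.mem_cons, Prod.mk.injEq, List.not_mem_nil, or_false] at hij ⊢
  omega

/-- **disjointness R3w - R3w** -/
theorem TyR3w.dis (h : TyR3w F g) (h' : TyR3w F' g') (hd : ∀ c ∈ F, c ∉ F') :
    ∀ w ∈ g.B, w ∉ g'.B := by
  intro w hw hw'
  obtain ⟨R, B, S, w0, i, h1, hi, -, -, -, rfl, hm, -⟩ := h.words w hw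
  obtain ⟨R', B', S', w0', j, h1', hj, -, -, -, e, hm', -⟩ := h'.words _ hw'
  have := h1.node.rdis h1'.node (fun g => absurd g (lt_irrefl _)) (fun g => absurd g (lt_irrefl _)) w0 w0' hi hj e.symm
  exact hd _ hm (this ▸ hm')

/-- **disjointness R3w - R3** -/
theorem TyR3w.disR3 (h : TyR3w F g) (h' : TyR3 F' g') (hd : ∀ c ∈ F, c ∉ F') :
    ∀ w ∈ g.B, w ∉ g'.B := by
  intro w hw hw'
  obtain ⟨R, B, S, w0, i, h1, hi, -, -, -, rfl, hm, -⟩ := h.words w hw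
  obtain ⟨R', B', S', w0', j, h1', -, -, hj, e, hm'⟩ := h'.words _ hw'
  have := h1.node.rdis h1' (fun g => absurd g (lt_irrefl _)) (fun g => absurd g (lt_irrefl _)) w0 w0' hi hj e.symm
  exact hd _ hm (this ▸ hm')

end Pool.OddHC
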